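import Pool.Agent.W25.UB.Stm2

/-! Project UB, part SUM: the one-dimensional sieve sums with a presieve up to `(log 2N)^B`. -/

set_option autoImplicit false

namespace Pool.Agent.W290.UBSUM

open Finset Filter Topology
open Pool.Agent.H410R2 hiding GP GP_prof GP_cut_some GP_cut_none GP_lip gg_pos gg_le_one gg_anti ee_bound ee_nonneg gg_lip LB_gg LB_ee Sums exists_sums yx wx wxi Br sum_GP_none sum_GP_some sum_GP_some_ee sum_GP_some_one sum_GPr_none sum_GPr_some S1_final QI_final S2_final w_abs_le wmax gg ee I1 I2 IE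
open Pool.Agent.H361R2.GM
open Pool.Agent.H362R2.CM
open Pool.Agent.W25.UN
open Pool.Agent.W25.UB

/-! ### the local densities -/

theorem pow_one_add (a : ℕ) (x : ℝ) (h0 : 0 ≤ x) (h1 : x ≤ 1) :
    1 ≤ (1 + x) ^ a ∧ (1 + x) ^ a ≤ 1 + (2 ^ a - 1) * x := by
  induction a with
  | zero => simp
  | succ a ih =>
    have h2 : (1 : ℝ) ≤ 2 ^ a := one_le_pow₀ (by norm_num)
    refine ⟨one_le_pow₀ (by linarith), ?_⟩
    rw [pow_succ, pow_succ]
    calc (1 + x) ^ a * (1 + x) ≤ (1 + (2 ^ a - 1) * x) * (1 + x) :=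
          mul_le_mul_of_nonneg_right ih.2 (by linarith)
      _ ≤ 1 + (2 ^ a * 2 - 1) * x := by
          nlinarith [mul_nonneg (mul_nonneg (sub_nonneg.2 h2) h0) (sub_nonneg.2 h1)]

theorem hB_bound (a : ℕ) (p : ℕ) (hp : p.Prime) :
    |hB a p - 1 / p| ≤ (2 + 4 * 2 ^ a) / (p : ℝ) ^ 2 := by
  have h2 : (2 : ℝ) ≤ p := by exact_mod_cast hp.two_le
  have hp1 : (0 : ℝ) < (p : ℝ) - 1 := by linarith
  have hp0 : (0 : ℝ) < p := by linarith
  obtain ⟨x, hx⟩ : ∃ x : ℝ, x = 1 / ((p : ℝ) - 1) := ⟨_, rfl⟩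
  have hx0 : 0 ≤ x := by rw [hx]; positivity
  have hx1 : x ≤ 1 := by
    rw [hx, div_le_one hp1]
    linarith
  have hx2 : x ≤ 2 / p := by
    rw [hx, div_le_div_iff₀ hp1 hp0]
    linarith
  have e1 : (p : ℝ) / ((p : ℝ) - 1) = 1 + x := by
    rw [hx]
    field_simp
    ring
  have e2 : x - 1 / p = x * (1 / p) := by
    rw [hx]
    field_simp
    ring
  unfold hB
  rw [e1, ← hx]
  obtain ⟨h3, h4⟩ := pow_one_add a x hx0 hx1
  have h5 : x ≤ x * (1 + x) ^ a := le_mul_of_one_le_right hx0 h3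
  have h6 : x * (1 + x) ^ a ≤ x * (1 + (2 ^ a - 1) * x) := mul_le_mul_of_nonneg_left h4 hx0
  have h7 : 0 ≤ x * (1 / p) := by positivity
  have h8 : x * (1 / p) ≤ 2 / p * (1 / p) := mul_le_mul_of_nonneg_right hx2 (by positivity)
  have h9 : x * x ≤ 2 / p * (2 / p) := mul_le_mul hx2 hx2 hx0 (by positivity)
  have h10 : (1 : ℝ) ≤ 2 ^ a := one_le_pow₀ (by norm_num)
  have h11 : (2 ^ a - 1) * (x * x) ≤ 2 ^ a * (2 / p * (2 / p)) :=
    mul_le_mul (by linarith) h9 (mul_nonneg hx0 hx0) (by positivity)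
  have e3 : (2 + 4 * 2 ^ a) / (p : ℝ) ^ 2 = 2 / p * (1 / p) + 2 ^ a * (2 / p * (2 / p)) := by
    field_simp
    ring
  rw [e3, abs_of_nonneg (by linarith)]
  nlinarith

theorem gB_eq (a : ℕ) (p : ℕ) : gB a p = hB (2 * a + 1) p := by
  unfold gB hB
  have e : ((p : ℝ) / ((p : ℝ) - 1)) ^ (2 * a + 1) =
      ((p : ℝ) / ((p : ℝ) - 1)) ^ (2 * a) * ((p : ℝ) / ((p : ℝ) - 1)) := pow_succ _ _
  rw [e]
  rcases eq_or_ne ((p : ℝ) - 1) 0 with h | h
  · rw [h]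
    simp
  · field_simp

theorem gB_bound (a : ℕ) (p : ℕ) (hp : p.Prime) :
    |gB a p - 1 / p| ≤ (2 + 4 * 2 ^ (2 * a + 1)) / (p : ℝ) ^ 2 := by
  rw [gB_eq]
  exact hB_bound _ p hp

/-! ### sizes -/

theorem DB_lower (X B : ℕ) : Real.log X ^ B - 1 ≤ (DB X B : ℝ) := by
  have h1 : Real.log X ^ B ≤ (⌈Real.log X ^ B⌉₊ : ℝ) := Nat.le_ceil _
  have h2 : (⌈Real.log X ^ B⌉₊ : ℝ) ≤ (DB X B : ℝ) + 1 := by
    unfold DB
    exact_mod_cast (by omega : ⌈Real.log X ^ B⌉₊ ≤ (⌈Real.log X ^ B⌉₊ - 1) + 1)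
  linarith

theorem DB_upper (X B : ℕ) (h : 0 ≤ Real.log X) : (DB X B : ℝ) ≤ Real.log X ^ B := by
  have h0 : 0 ≤ Real.log X ^ B := pow_nonneg h _
  have h1 : (⌈Real.log X ^ B⌉₊ : ℝ) < Real.log X ^ B + 1 := Nat.ceil_lt_add_one h0
  rcases Nat.eq_zero_or_pos ⌈Real.log X ^ B⌉₊ with h2 | h2
  · unfold DB
    rw [h2]
    simpa using h0
  · have h3 : (⌈Real.log X ^ B⌉₊ : ℝ) = (DB X B : ℝ) + 1 := by
      unfold DB
      exact_mod_cast (by omega : ⌈Real.log X ^ B⌉₊ = (⌈Real.log X ^ B⌉₊ - 1) + 1)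
    linarith

theorem logN : Tendsto (fun N : ℕ => Real.log N) atTop atTop :=
  Real.tendsto_log_atTop.comp tendsto_natCast_atTop_atTop

theorem sizes (a : ℝ) (ha : 0 < a) (B : ℕ) (hB : 3 ≤ B) : ∀ᶠ N : ℕ in atTop,
    1 ≤ Real.log N ∧ Real.log (2 * N : ℕ) = Real.log 2 + Real.log N ∧
    (a * Real.log N) ^ 2 ≤ (DB (2 * N) B : ℝ) ∧ Real.log (2 * N : ℕ) ^ 2 ≤ (DB (2 * N) B : ℝ) ∧
    (DB (2 * N) B : ℝ) ≤ (a * Real.log N) ^ (B + 1) := by
  filter_upwards [eventually_ge_atTop 1, logN.eventually (eventually_ge_atTop (2 : ℝ)),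
    logN.eventually (eventually_ge_atTop (a ^ 2 + 1)),
    logN.eventually (eventually_ge_atTop (2 ^ B / a ^ (B + 1)))] with N hN h2 h3 h4
  have e1 : Real.log (2 * N : ℕ) = Real.log 2 + Real.log N := by
    push_cast
    exact Real.log_mul (by norm_num) (by positivity)
  have hl2 : 0 ≤ Real.log 2 := Real.log_nonneg (by norm_num)
  have hl3 : Real.log 2 ≤ 1 := by
    have := Real.log_two_lt_d9
    linarith
  have hlow := DB_lower (2 * N) B
  have hupp := DB_upper (2 * N) B (by rw [e1]; linarith)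
  obtain ⟨l, hl⟩ : ∃ l, l = Real.log N := ⟨_, rfl⟩
  obtain ⟨x, hx⟩ : ∃ x, x = Real.log (2 * N : ℕ) := ⟨_, rfl⟩
  rw [← hx] at hlow hupp e1 ⊢
  rw [← hl] at h2 h3 h4 e1 ⊢
  have hxl : l ≤ x := by linarith
  have hx2 : x ≤ 2 * l := by linarith
  have hxB : x ^ 3 ≤ x ^ B := pow_le_pow_right₀ (by linarith) hB
  have hl3' : l ^ 3 ≤ x ^ 3 := pow_le_pow_left₀ (by linarith) hxl 3
  refine ⟨by linarith, e1, ?_, ?_, ?_⟩
  · have h5 : (a ^ 2 + 1) * l ^ 2 ≤ l * l ^ 2 := mul_le_mul_of_nonneg_right h3 (by positivity)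
    have h6 : 1 ≤ l ^ 2 := one_le_pow₀ (by linarith)
    rw [mul_pow]
    nlinarith
  · have h5 : 2 * x ^ 2 ≤ x * x ^ 2 := mul_le_mul_of_nonneg_right (by linarith) (by positivity)
    have h6 : 1 ≤ x ^ 2 := one_le_pow₀ (by linarith)
    nlinarith
  · have h5 : x ^ B ≤ (2 * l) ^ B := pow_le_pow_left₀ (by linarith) hx2 B
    rw [div_le_iff₀ (by positivity)] at h4
    refine hupp.trans (h5.trans ?_)
    rw [mul_pow, mul_pow, pow_succ l]
    calc 2 ^ B * l ^ B ≤ (l * a ^ (B + 1)) * l ^ B :=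
          mul_le_mul_of_nonneg_right h4 (by positivity)
      _ = a ^ (B + 1) * (l ^ B * l) := by ring

/-! ### first claim -/

theorem useB (hOD : OneDimU) (C c K : ℝ) (F : ℝ → ℝ) (hc : 0 < c) (hF : LB c K F) (h : ℕ → ℝ)
    (hh : ∀ p : ℕ, p.Prime → |h p - 1 / p| ≤ C / (p : ℝ) ^ 2) (ε : ℝ) (hε : 0 < ε)
    (a : ℝ) (ha : 0 < a) (ρ₁ : ℝ) (hac : c * a < ρ₁) (C' : ℝ) (B : ℕ) (hB : 3 ≤ B) :
    ∀ᶠ N : ℕ in atTop, ∀ (Cl P : Finset ℕ), (Cl.card : ℝ) ≤ C' * Real.log N →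
      (∀ p ∈ P, p.Prime ∧ DB (2 * N) B < p) →
      (∀ p : ℕ, p.Prime → DB (2 * N) B < p → (p : ℝ) ≤ Real.exp (ρ₁ * Real.log N) → p ∉ Cl →
        p ∈ P) →
      |SS P h c (a * Real.log N) F - BD (DB (2 * N) B) * (a * Real.log N) *
        ∫ t in (0 : ℝ)..c, F t| ≤ ε * (BD (DB (2 * N) B) * (a * Real.log N)) := by
  have hδ : 0 < ρ₁ / a - c := by
    rw [sub_pos, lt_div_iff₀ ha]
    exact hac
  have h1 := hOD C c K F hc hF.1 hF.2 h 0 (fun p hp _ => hh p hp) ε ((B + 1 : ℕ) : ℝ)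
    (max C' 0 / a) (ρ₁ / a - c) hε hδ
  have ht : Tendsto (fun N : ℕ => a * Real.log N) atTop atTop := logN.const_mul_atTop ha
  filter_upwards [ht.eventually h1, sizes a ha B hB] with N h2 hs Cl P hCl hP1 hP2
  refine h2 (DB (2 * N) B) Cl P hs.2.2.1 ?_ ?_ hP1 ?_
  · rw [Real.rpow_natCast]
    exact hs.2.2.2.2
  · refine hCl.trans ?_
    have h3 : max C' 0 / a * (a * Real.log N) = max C' 0 * Real.log N := by field_simp
    rw [h3]
    exact mul_le_mul_of_nonneg_right (le_max_left _ _) (by linarith [hs.1])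
  · intro p hp hpD hpe hpC
    refine hP2 p hp hpD ?_ hpC
    have h3 : (c + (ρ₁ / a - c)) * (a * Real.log N) = ρ₁ * Real.log N := by
      field_simp
      ring
    rwa [h3] at hpe

/-! ### second claim -/

/-- elements larger than `z` do not contribute -/
theorem SS_extend (P P' : Finset ℕ) (h : ℕ → ℝ) (z : ℕ) (F : ℝ → ℝ) (hz : 1 ≤ z) (hPP : P ⊆ P')
    (h1 : ∀ p ∈ P', 1 ≤ p) (h2 : ∀ p ∈ P', p ∉ P → z < p) :
    SS P' h 1 (Real.log z) F = SS P h 1 (Real.log z) F := by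
  unfold SS
  symm
  apply Finset.sum_subset (Finset.powerset_mono.2 hPP)
  intro a ha ha'
  rw [Finset.mem_powerset] at ha ha'
  obtain ⟨p, hp, hpP⟩ := Finset.not_subset.1 ha'
  have h3 : z < p := h2 p (ha hp) hpP
  rw [if_neg, mul_zero]
  rw [one_mul, not_le]
  have h4 : (p : ℝ) ≤ ∏ q ∈ a, (q : ℝ) := by
    rw [← Finset.mul_prod_erase a (fun q : ℕ => (q : ℝ)) hp]
    refine le_mul_of_one_le_right (Nat.cast_nonneg p) ?_
    have h5 : ∀ q ∈ a.erase p, (1 : ℝ) ≤ (q : ℝ) := fun q hq => by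
      exact_mod_cast h1 q (ha (Finset.mem_of_mem_erase hq))
    exact Finset.one_le_prod h5
  apply Real.log_lt_log
  · exact_mod_cast hz
  · refine lt_of_lt_of_le ?_ h4
    exact_mod_cast h3

theorem claim2 (hOD : OneDimU) (ε C' : ℝ) (B : ℕ) (hε : 0 < ε) (hB : 3 ≤ B) :
    ∀ᶠ N : ℕ in atTop, ∀ (Cl P : Finset ℕ), (Cl.card : ℝ) ≤ C' * Real.log N →
      (∀ p ∈ P, p.Prime ∧ DB (2 * N) B < p) →
      ∀ z : ℕ, (N : ℝ) ^ (1 / 8 : ℝ) ≤ z → z ≤ 2 * N →
      (∀ p : ℕ, p.Prime → DB (2 * N) B < p → p ≤ z → p ∉ Cl → p ∈ P) →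
      BD (DB (2 * N) B) * Real.log z * (1 - ε) ≤ SS P h0 1 (Real.log z) (fun _ => 1) := by
  have h1 := hOD _ 1 1 _ one_pos LB_one.1 LB_one.2 h0 0 (fun p hp _ => h0_bound p hp) ε
    ((B + 1 : ℕ) : ℝ) (8 * max C' 0) 1 hε one_pos
  obtain ⟨L₀, hL₀⟩ := eventually_atTop.1 h1
  filter_upwards [sizes (1 / 8) (by norm_num) B hB, eventually_ge_atTop 2,
    logN.eventually (eventually_ge_atTop (8 * L₀))] with N hs hN hlN Cl P hCl hP z hz1 hz2 hPz
  obtain ⟨hl1, hx, -, hlow, hupp⟩ := hs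
  have hN0 : (0 : ℝ) < N := by positivity
  have hzpos : (0 : ℝ) < z := lt_of_lt_of_le (Real.rpow_pos_of_pos hN0 _) hz1
  have hzn : 1 ≤ z := by exact_mod_cast hzpos
  have hLl : 1 / 8 * Real.log N ≤ Real.log z := by
    have h2 := Real.log_le_log (Real.rpow_pos_of_pos hN0 _) hz1
    rwa [Real.log_rpow hN0] at h2
  have hLx : Real.log z ≤ Real.log (2 * N : ℕ) := by
    apply Real.log_le_log hzpos
    exact_mod_cast hz2
  have hL0 : 0 ≤ Real.log z := by linarith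
  -- the enlarged set
  set P' : Finset ℕ := P ∪ (Finset.range (z ^ 2 + 1)).filter
    (fun p => p.Prime ∧ DB (2 * N) B < p ∧ z < p) with hP'
  have hPP : P ⊆ P' := Finset.subset_union_left
  have hext : SS P' h0 1 (Real.log z) (fun _ => 1) = SS P h0 1 (Real.log z) (fun _ => 1) := by
    apply SS_extend P P' h0 z _ hzn hPP
    · intro p hp
      rw [hP', Finset.mem_union, Finset.mem_filter] at hp
      rcases hp with hp | hp
      · exact (hP p hp).1.one_lt.le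
      · exact hp.2.1.one_lt.le
    · intro p hp hpP
      rw [hP', Finset.mem_union, Finset.mem_filter] at hp
      rcases hp with hp | hp
      · exact absurd hp hpP
      · exact hp.2.2.2
  have h3 := hL₀ (Real.log z) (by linarith) (DB (2 * N) B) Cl P'
    (le_trans (pow_le_pow_left₀ hL0 hLx 2) hlow)
    (by
      rw [Real.rpow_natCast]
      exact hupp.trans (pow_le_pow_left₀ (by linarith) hLl _))
    (by
      refine hCl.trans ?_
      have h4 : C' * Real.log N ≤ max C' 0 * Real.log N :=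
        mul_le_mul_of_nonneg_right (le_max_left _ _) (by linarith)
      have h5 : max C' 0 * Real.log N ≤ max C' 0 * (8 * Real.log z) :=
        mul_le_mul_of_nonneg_left (by linarith) (le_max_right _ _)
      calc C' * Real.log N ≤ max C' 0 * (8 * Real.log z) := h4.trans h5
        _ = 8 * max C' 0 * Real.log z := by ring)
    (by
      intro p hp
      rw [hP', Finset.mem_union, Finset.mem_filter] at hp
      rcases hp with hp | hp
      · exact hP p hp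
      · exact ⟨hp.2.1, hp.2.2.1⟩)
    (by
      intro p hp hpD hpe hpC
      rw [hP', Finset.mem_union, Finset.mem_filter]
      by_cases hpz : p ≤ z
      · exact Or.inl (hPz p hp hpD hpz hpC)
      · refine Or.inr ⟨?_, hp, hpD, by omega⟩
        rw [Finset.mem_range, Nat.lt_succ_iff]
        have h4 : Real.exp ((1 + 1) * Real.log z) = (z : ℝ) ^ 2 := by
          have h5 : (1 + 1) * Real.log z = Real.log z + Real.log z := by ring
          rw [h5, Real.exp_add, Real.exp_log hzpos, pow_two]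
        rw [h4] at hpe
        exact_mod_cast hpe)
  rw [hext] at h3
  have hint1 : (∫ t in (0 : ℝ)..1, (1 : ℝ)) = 1 := by simp
  rw [hint1] at h3
  have h4 := (abs_le.1 h3).1
  linarith

/-- **(SUM)** -/
theorem main (hOD : OneDimU) : St_SUM := by
  intro Q K ε ρ ρ₁ C' B hε hρ hρ1 hB3
  have hG0 : 0 ≤ Q.G := Q.G0.le
  have hE0 : 0 ≤ (1 + Q.lam + Q.lam ^ 2 + (Q.lam + 2 * Q.lam ^ 2)) := by
    have := Q.hlam
    positivity
  have hGG : 0 ≤ Q.G * Q.G + Q.G * Q.G := by positivity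
  have hr : Q.c * ρ < ρ₁ := by nlinarith [Q.hc1, Q.hc]
  have hr1 : 1 * ρ < ρ₁ := by linarith
  have hr48 : 1 * (ρ / 48) < ρ₁ := by linarith
  have h480 : 0 < ρ / 48 := by linarith
  have bh1 : ∀ p : ℕ, p.Prime → |h1 p - 1 / p| ≤ 4 * (((0 : ℕ) : ℝ) + 2) / (p : ℝ) ^ 2 :=
    fun p hp => by rw [h1_eq]; exact hb_bound 0 p hp
  have lgg := (LB_gg Q).mul (LB_gg Q) hG0 hG0
  have lge := ((LB_gg Q).mul (LB_gg Q) hG0 hG0).mul (LB_ee Q) hGG hE0
  have q1 := (Filter.eventually_all_finset (Finset.range 4)).2 fun a _ =>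
    useB hOD _ 1 2 _ one_pos LB_f0 (gB a) (gB_bound a) ε hε _ h480 ρ₁ hr48 C' B hB3
  have q2 := (Filter.eventually_all_finset (Finset.range 4)).2 fun a _ =>
    useB hOD _ Q.c _ _ Q.hc lgg (gB a) (gB_bound a) ε hε _ hρ ρ₁ hr C' B hB3
  have q3 := (Filter.eventually_all_finset (Finset.range 4)).2 fun a _ =>
    useB hOD _ 1 1 _ one_pos LB_one (gB a) (gB_bound a) ε hε _ hρ ρ₁ hr1 C' B hB3
  have q4 := (Filter.eventually_all_finset (Finset.range 4)).2 fun a _ =>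
    useB hOD _ Q.c _ _ Q.hc (LB_gg Q) (hB a) (hB_bound a) ε hε _ hρ ρ₁ hr C' B hB3
  filter_upwards [q1, q2, q3, q4,
    useB hOD _ 1 1 _ one_pos LB_one h0 h0_bound ε hε _ hρ ρ₁ hr1 C' B hB3,
    useB hOD _ 1 2 _ one_pos LB_f0 (hb K) (hb_bound K) ε hε _ h480 ρ₁ hr48 C' B hB3,
    useB hOD _ Q.c _ _ Q.hc lgg (hb K) (hb_bound K) ε hε _ hρ ρ₁ hr C' B hB3,
    useB hOD _ 1 1 _ one_pos LB_one (hb K) (hb_bound K) ε hε _ hρ ρ₁ hr1 C' B hB3,
    useB hOD _ Q.c _ _ Q.hc (LB_gg Q) h0 h0_bound ε hε _ hρ ρ₁ hr C' B hB3,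
    useB hOD _ Q.c _ _ Q.hc lge (hb K) (hb_bound K) ε hε _ hρ ρ₁ hr C' B hB3,
    useB hOD _ 1 2 _ one_pos LB_f0 h1 bh1 ε hε _ h480 ρ₁ hr48 C' B hB3,
    useB hOD _ Q.c _ _ Q.hc lgg h1 bh1 ε hε _ hρ ρ₁ hr C' B hB3,
    useB hOD _ 1 1 _ one_pos LB_one h1 bh1 ε hε _ h480 ρ₁ hr48 C' B hB3,
    claim2 hOD ε C' B hε hB3] with
    N a1 a2 a3 a4 b1 b2 b3 b4 b5 b6 c1 c2 c3 d Cl P hCl hP1
  refine ⟨fun hP2 => ?_, d Cl P hCl hP1⟩
  have hI2 : (∫ t in (0 : ℝ)..Q.c, Q.gg t * Q.gg t) = Q.I2 := by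
    unfold SPar.I2
    congr 1
    funext t
    ring
  have hIE : (∫ t in (0 : ℝ)..Q.c, Q.gg t * Q.gg t * Q.ee t) = Q.IE := by
    unfold SPar.IE
    congr 1
    funext t
    ring
  have hI1 : (∫ t in (0 : ℝ)..Q.c, Q.gg t) = Q.I1 := rfl
  have hint1 : (∫ t in (0 : ℝ)..1, (1 : ℝ)) = 1 := by simp
  have hsq : (fun t => Q.gg t ^ 2) = fun t => Q.gg t * Q.gg t := by funext t; ring
  have hsq' : (fun t => Q.gg t ^ 2 * Q.ee t) = fun t => Q.gg t * Q.gg t * Q.ee t := by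
    funext t; ring
  have hL : ρ / 48 * Real.log N = ρ * Real.log N / 48 := by ring
  have b1' := abs_le.1 (b1 Cl P hCl hP1 hP2)
  have b2' := abs_le.1 (b2 Cl P hCl hP1 hP2)
  have b3' := abs_le.1 (b3 Cl P hCl hP1 hP2)
  have b4' := abs_le.1 (b4 Cl P hCl hP1 hP2)
  have b5' := abs_le.1 (b5 Cl P hCl hP1 hP2)
  have b6' := abs_le.1 (b6 Cl P hCl hP1 hP2)
  have c1' := abs_le.1 (c1 Cl P hCl hP1 hP2)
  have c2' := abs_le.1 (c2 Cl P hCl hP1 hP2)
  have c3' := abs_le.1 (c3 Cl P hCl hP1 hP2)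
  rw [hint1] at b1' b4' c3'
  rw [int_f0] at b2' c1'
  rw [hI2] at b3' c2'
  rw [hI1] at b5'
  rw [hIE] at b6'
  rw [hL] at b2' c1' c3'
  constructor
  · constructor
    · intro a ha
      have h := abs_le.1 (a1 a (Finset.mem_range.2 (by omega)) Cl P hCl hP1 hP2)
      rw [int_f0, hL] at h
      linarith [h.2]
    · intro a ha
      have h := abs_le.1 (a2 a (Finset.mem_range.2 (by omega)) Cl P hCl hP1 hP2)
      rw [hI2] at h
      rw [hsq]
      linarith [h.2]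
    · intro a ha
      have h := abs_le.1 (a3 a (Finset.mem_range.2 (by omega)) Cl P hCl hP1 hP2)
      rw [hint1] at h
      linarith [h.2]
    · intro a ha
      have h := abs_le.1 (a4 a (Finset.mem_range.2 (by omega)) Cl P hCl hP1 hP2)
      rw [hI1] at h
      linarith [h.2]
    · linarith [b1'.2]
    · linarith [b2'.1]
    · rw [hsq]; linarith [b3'.1]
    · linarith [b4'.1]
    · linarith [b5'.1]
    · linarith [b1'.1]
    · linarith [b2'.2]
    · rw [hsq']; linarith [b6'.2]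
    · linarith [b4'.2]
  · constructor
    · linarith [c1'.2]
    · rw [hsq]; linarith [c2'.2]
    · linarith [c3'.2]
    · linarith [b5'.1]
    · linarith [b2'.1]
    · linarith [b2'.2]
    · rw [hsq]; linarith [b3'.1]
    · rw [hsq']; linarith [b6'.2]

end Pool.Agent.W290.UBSUM
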