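import Mathlib

set_option autoImplicit false

namespace Pool.Agent.W290

open SimpleGraph

/-- A Hamiltonian graph with more than one vertex has a successor map along a Hamiltonian cycle. -/
theorem exists_succ {V : Type} [Fintype V] [DecidableEq V] (G : SimpleGraph V)
    (hG : G.IsHamiltonian) (hc : Fintype.card V ≠ 1) :
    ∃ s : V → V, Function.Injective s ∧ (∀ v, G.Adj v (s v)) ∧
      ∀ S : Set V, S.Nonempty → (∀ v ∈ S, s v ∈ S) → S = Set.univ := by
  obtain ⟨a, p, hp⟩ := hG hc
  have hq := hp.isHamiltonian_tail
  set q := p.tail with hqdef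
  set n := q.support.length with hn
  have hnpos : 0 < n := by
    rw [hn]; exact List.length_pos_of_ne_nil (by simp)
  let e : Fin n ≃ V := hq.getVertEquiv
  have he : ∀ i : Fin n, e i = q.getVert i := fun i => rfl
  have hlen : q.length + 1 = n := by rw [hn, Walk.length_support]
  let σ : Fin n → Fin n := fun i => ⟨(i.val + 1) % n, Nat.mod_lt _ hnpos⟩
  have hσ : Function.Injective σ := by
    intro i j h
    have h1 : (i.val + 1) % n = (j.val + 1) % n := congrArg Fin.val h
    have h2 : i.val % n = j.val % n := Nat.ModEq.add_right_cancel' 1 h1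
    rw [Nat.mod_eq_of_lt i.2, Nat.mod_eq_of_lt j.2] at h2
    exact Fin.ext h2
  refine ⟨fun v => e (σ (e.symm v)), ?_, ?_, ?_⟩
  · intro v w h
    exact e.symm.injective (hσ (e.injective h))
  · intro v
    obtain ⟨i, rfl⟩ := e.surjective v
    simp only [Equiv.symm_apply_apply]
    rw [he, he]
    by_cases hi : i.val + 1 < n
    · have : (σ i).val = i.val + 1 := Nat.mod_eq_of_lt hi
      rw [this]
      exact q.adj_getVert_succ (by omega)
    · have hi2 : i.val + 1 = n := by have := i.2; omega
      have : (σ i).val = 0 := by
        change (i.val + 1) % n = 0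
        rw [hi2, Nat.mod_self]
      rw [this, Walk.getVert_zero]
      have h3 : i.val = q.length := by omega
      rw [h3, Walk.getVert_length]
      have := p.adj_snd hp.isCycle.not_nil
      exact this
  · intro S hne hS
    obtain ⟨v, hv⟩ := hne
    have key : ∀ k : ℕ, e ⟨((e.symm v).val + k) % n, Nat.mod_lt _ hnpos⟩ ∈ S := by
      intro k
      induction k with
      | zero =>
        have : (⟨((e.symm v).val + 0) % n, Nat.mod_lt _ hnpos⟩ : Fin n) = e.symm v := by
          apply Fin.ext
          simp only [Nat.add_zero]
          exact Nat.mod_eq_of_lt (e.symm v).2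
        rw [this]; simpa using hv
      | succ k ih =>
        have h1 := hS _ ih
        simp only [Equiv.symm_apply_apply] at h1
        have : σ ⟨((e.symm v).val + k) % n, Nat.mod_lt _ hnpos⟩ =
            (⟨((e.symm v).val + (k + 1)) % n, Nat.mod_lt _ hnpos⟩ : Fin n) := by
          apply Fin.ext
          change (((e.symm v).val + k) % n + 1) % n = _
          rw [Nat.mod_add_mod, Nat.add_assoc]
        rw [this] at h1
        exact h1
    ext w
    simp only [Set.mem_univ, iff_true]
    obtain ⟨j, rfl⟩ := e.surjective w
    have h1 := key (j.val + n - (e.symm v).val)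
    have : (⟨((e.symm v).val + (j.val + n - (e.symm v).val)) % n, Nat.mod_lt _ hnpos⟩ : Fin n)
        = j := by
      apply Fin.ext
      change ((e.symm v).val + (j.val + n - (e.symm v).val)) % n = j.val
      have h2 := (e.symm v).2
      rw [show (e.symm v).val + (j.val + n - (e.symm v).val) = j.val + n by omega,
        Nat.add_mod_right, Nat.mod_eq_of_lt j.2]
    rw [this] at h1
    exact h1

end Pool.Agent.W290
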