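import Mathlib

set_option autoImplicit false

namespace Pool.Agent.W290.HexGraph

open SimpleGraph

section general

variable {V : Type*} {G : SimpleGraph V}

/-- two paths with the same ends whose total length is below the girth are equal -/
theorem path_eq_of_short {u v : V} (p q : G.Walk u v) (hp : p.IsPath) (hq : q.IsPath)
    (hg : ((p.length + q.length : ℕ) : ℕ∞) < G.egirth) : p = q := by
  classical
  let S : Set (Sym2 V) := {e | e ∈ p.edges ∨ e ∈ q.edges}
  let H := SimpleGraph.fromEdgeSet S
  have hedge : ∀ e ∈ S, e ∈ G.edgeSet := by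
    rintro e (he | he)
    · exact p.edges_subset_edgeSet he
    · exact q.edges_subset_edgeSet he
  have hSH : ∀ e ∈ S, e ∈ H.edgeSet := by
    intro e he
    rw [SimpleGraph.edgeSet_fromEdgeSet]
    exact ⟨he, G.not_isDiag_of_mem_edgeSet (hedge e he)⟩
  have hHS : ∀ e ∈ H.edgeSet, e ∈ S := by
    intro e he
    rw [SimpleGraph.edgeSet_fromEdgeSet] at he
    exact he.1
  have hHG : H ≤ G := by
    rw [← SimpleGraph.edgeSet_subset_edgeSet]
    intro e he
    exact hedge e (hHS e he)
  have hpH : ∀ e ∈ p.edges, e ∈ H.edgeSet := fun e he => hSH e (Or.inl he)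
  have hqH : ∀ e ∈ q.edges, e ∈ H.edgeSet := fun e he => hSH e (Or.inr he)
  have hac : H.IsAcyclic := by
    intro a c hc
    have h1 : G.egirth ≤ (c.mapLe hHG).length := egirth_le_length (hc.mapLe hHG)
    have h2 : c.length ≤ p.length + q.length := by
      calc c.length = c.edges.length := by simp
        _ = c.edges.toFinset.card := (List.toFinset_card_of_nodup hc.edges_nodup).symm
        _ ≤ (p.edges ++ q.edges).toFinset.card := by
            apply Finset.card_le_card
            intro e he
            have he' : e ∈ c.edges := by simpa using he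
            have := hHS e (c.edges_subset_edgeSet he')
            rcases this with h | h <;> simp [h]
        _ ≤ (p.edges ++ q.edges).length := List.toFinset_card_le _
        _ = p.length + q.length := by simp
    have h3 : (c.mapLe hHG).length = c.length := by simp
    rw [h3] at h1
    have h4 : ((c.length : ℕ) : ℕ∞) ≤ ((p.length + q.length : ℕ) : ℕ∞) := by exact_mod_cast h2
    exact absurd hg (not_lt.2 (h1.trans h4))
  have huniq := ((SimpleGraph.isAcyclic_iff_subsingleton_path.1 hac) u v).elim
    ⟨p.transfer H hpH, hp.transfer hpH⟩ ⟨q.transfer H hqH, hq.transfer hqH⟩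
  have h5 : p.transfer H hpH = q.transfer H hqH := by
    simpa using congrArg Subtype.val huniq
  apply Walk.ext_support
  have := congrArg Walk.support h5
  simpa using this

/-- the neighbour of `v` that is nearer to `u` is unique when `u`, `v` are close -/
theorem pred_unique (hconn : G.Connected) {u v a b : V} (ha : G.Adj a v) (hb : G.Adj b v)
    (hda : G.dist u a + 1 = G.dist u v) (hdb : G.dist u b + 1 = G.dist u v)
    (hg : ((2 * G.dist u v : ℕ) : ℕ∞) < G.egirth) : a = b := by
  obtain ⟨p, hp⟩ := hconn.exists_walk_length_eq_dist u a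
  obtain ⟨q, hq⟩ := hconn.exists_walk_length_eq_dist u b
  have h1 : (p.concat ha).length = G.dist u v := by rw [Walk.length_concat]; omega
  have h2 : (q.concat hb).length = G.dist u v := by rw [Walk.length_concat]; omega
  have h3 := path_eq_of_short (p.concat ha) (q.concat hb)
    (Walk.isPath_of_length_eq_dist _ h1) (Walk.isPath_of_length_eq_dist _ h2) (by
      rw [h1, h2, ← two_mul]; exact hg)
  have h4 := congrArg Walk.penultimate h3
  simpa using h4

theorem exists_pred (hconn : G.Connected) {u v : V} (h : u ≠ v) :
    ∃ a, G.Adj a v ∧ G.dist u a + 1 = G.dist u v := by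
  obtain ⟨p, hp⟩ := hconn.exists_walk_length_eq_dist u v
  have hnil : ¬ p.Nil := fun hn => h hn.eq
  refine ⟨p.penultimate, p.adj_penultimate hnil, ?_⟩
  have h1 : G.dist u v ≤ G.dist u p.penultimate + 1 := by
    have := hconn.dist_triangle (u := u) (v := p.penultimate) (w := v)
    rw [(SimpleGraph.dist_eq_one_iff_adj).2 (p.adj_penultimate hnil)] at this
    exact this
  have h2 : G.dist u p.penultimate ≤ p.dropLast.length := SimpleGraph.dist_le _
  have h3 : p.dropLast.length + 1 = p.length := by
    have := congrArg Walk.length (Walk.concat_dropLast (p := p) (p.adj_penultimate hnil))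
    rwa [Walk.length_concat] at this
  omega

/-- a vertex far away from a given one -/
theorem exists_far (hconn : G.Connected) (c : G.Coloring Bool) (n : ℕ)
    (hg : G.egirth = ((2 * n : ℕ) : ℕ∞)) (u : V) : ∃ v, n ≤ G.dist u v := by
  classical
  have hnac : ¬ G.IsAcyclic := by
    intro h
    have := h.egirth_eq_top
    rw [hg] at this
    exact ENat.natCast_ne_top _ this
  obtain ⟨a, w, hw, -⟩ := exists_egirth_eq_length.2 hnac
  obtain ⟨v, hv, hmax⟩ := Finset.exists_max_image w.support.toFinset (fun x => G.dist u x)
    ⟨a, by simp⟩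
  have hv' : v ∈ w.support := by simpa using hv
  refine ⟨v, ?_⟩
  by_contra hlt
  push Not at hlt
  have hr := hw.rotate hv'
  set r := w.rotate v hv' with hrdef
  have hnil : ¬ r.Nil := hr.not_nil
  have ha1 : G.Adj v r.snd := r.adj_snd hnil
  have ha2 : G.Adj r.penultimate v := r.adj_penultimate hnil
  have hm1 : r.snd ∈ w.support := by
    have : r.snd ∈ r.support := r.getVert_mem_support 1
    rwa [hrdef, Walk.mem_support_rotate_iff] at this
  have hm2 : r.penultimate ∈ w.support := by
    have : r.penultimate ∈ r.support := r.getVert_mem_support _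
    rwa [hrdef, Walk.mem_support_rotate_iff] at this
  have hpar : ∀ x, G.Adj x v → G.dist u x ≠ G.dist u v := by
    intro x hx he
    obtain ⟨p, hp⟩ := hconn.exists_walk_length_eq_dist u x
    obtain ⟨q, hq⟩ := hconn.exists_walk_length_eq_dist u v
    have h1 := c.even_length_iff_congr p
    have h2 := c.even_length_iff_congr q
    rw [hp, he, ← hq] at h1
    have h3 := c.valid hx
    apply h3
    have h4 := h1.symm.trans h2
    cases hcu : c u <;> cases hcx : c x <;> cases hcv : c v <;> simp_all
  have hstep : ∀ x, G.Adj x v → G.dist u x ≤ G.dist u v → G.dist u x + 1 = G.dist u v := by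
    intro x hx hle
    have h1 := hconn.dist_triangle (u := u) (v := x) (w := v)
    rw [(SimpleGraph.dist_eq_one_iff_adj).2 hx] at h1
    have := hpar x hx
    omega
  have e1 := hstep _ ha1.symm (hmax _ (by simpa using hm1))
  have e2 := hstep _ ha2 (hmax _ (by simpa using hm2))
  have := pred_unique hconn ha1.symm ha2 e1 e2 (by
    rw [hg]
    exact_mod_cast (by omega))
  exact hr.snd_ne_penultimate this

end general

section incidence

universe u v

variable {P : Type u} {L : Type v} (I : P → L → Prop)

/-- the incidence graph -/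
abbrev IG : SimpleGraph (P ⊕ L) :=
  SimpleGraph.fromRel (fun x y : P ⊕ L => ∃ p l, x = Sum.inl p ∧ y = Sum.inr l ∧ I p l)

lemma adj_lr {p : P} {l : L} : (IG I).Adj (Sum.inl p) (Sum.inr l) ↔ I p l := by
  simp [IG, SimpleGraph.fromRel_adj]

lemma adj_rl {p : P} {l : L} : (IG I).Adj (Sum.inr l) (Sum.inl p) ↔ I p l := by
  rw [SimpleGraph.adj_comm, adj_lr]

lemma not_adj_ll {p q : P} : ¬ (IG I).Adj (Sum.inl p) (Sum.inl q) := by
  simp [IG, SimpleGraph.fromRel_adj]

lemma not_adj_rr {p q : L} : ¬ (IG I).Adj (Sum.inr p) (Sum.inr q) := by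
  simp [IG, SimpleGraph.fromRel_adj]

/-- the two-colouring by points and lines -/
noncomputable def col : (IG I).Coloring Bool :=
  SimpleGraph.Coloring.mk (fun x => x.isLeft) (by
    intro a b hab
    rcases a with a | a <;> rcases b with b | b
    · exact absurd hab (not_adj_ll I)
    · simp
    · simp
    · exact absurd hab (not_adj_rr I))

lemma col_inl (x : P) : (col I) (Sum.inl x) = true := rfl

lemma col_inr (x : L) : (col I) (Sum.inr x) = false := rfl

lemma even_pp (hconn : (IG I).Connected) (x y : P) :
    Even ((IG I).dist (Sum.inl x) (Sum.inl y)) := by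
  obtain ⟨p, hp⟩ := hconn.exists_walk_length_eq_dist (Sum.inl x) (Sum.inl y)
  rw [← hp, (col I).even_length_iff_congr p, col_inl, col_inl]

lemma odd_pl (hconn : (IG I).Connected) (x : P) (y : L) :
    Odd ((IG I).dist (Sum.inl x) (Sum.inr y)) := by
  obtain ⟨p, hp⟩ := hconn.exists_walk_length_eq_dist (Sum.inl x) (Sum.inr y)
  rw [← hp, (col I).odd_length_iff_not_congr p, col_inl, col_inr]
  simp

end incidence

end Pool.Agent.W290.HexGraph
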