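import Pool.Agent.W290.FrLimit
import Pool.Agent.W290.HexGraph

set_option autoImplicit false

/-!
# Free construction of hexagons with finite lines: the incidence graph
-/

namespace Pool.Agent.W290.Fr

open SimpleGraph Pool.Agent.W290.HexGraph

section general

variable {V : Type*} {G : SimpleGraph V}

lemma level_le {f : V → ℕ} (hf : ∀ u v, G.Adj u v → f v ≤ f u + 1) {u v : V}
    (w : G.Walk u v) : f v ≤ f u + w.length := by
  induction w with
  | nil => simp
  | cons h p ih =>
    have := hf _ _ h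
    rw [Walk.length_cons]
    omega

theorem egirth_ge (n : ℕ) (S : Set V) (hS : ∀ u v, G.Adj u v → u ∈ S ∨ v ∈ S) (f : V → V → ℕ)
    (h0 : ∀ a ∈ S, f a a = 0)
    (h1 : ∀ a ∈ S, ∀ u v, G.Adj u v → f a u = f a v + 1 ∨ f a v = f a u + 1)
    (h2 : ∀ a ∈ S, ∀ u v v', G.Adj u v → G.Adj u v' → f a u < n → f a u = f a v + 1 →
      f a u = f a v' + 1 → v = v') : ((2 * n : ℕ) : ℕ∞) ≤ G.egirth := by
  classical
  rw [le_egirth]
  intro x w hw
  have hnil : ¬ w.Nil := hw.not_nil
  obtain ⟨a, haS, haw⟩ : ∃ a ∈ S, a ∈ w.support := by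
    rcases hS _ _ (w.adj_snd hnil) with h | h
    · exact ⟨x, h, w.start_mem_support⟩
    · exact ⟨w.snd, h, w.getVert_mem_support 1⟩
  have hr := hw.rotate haw
  have hlen : (w.rotate a haw).length = w.length := Walk.length_rotate _ _ _
  set r := w.rotate a haw with hrdef
  obtain ⟨v, hv, hmax⟩ := Finset.exists_max_image r.support.toFinset (fun x => f a x)
    ⟨a, by simp⟩
  have hv' : v ∈ r.support := by simpa using hv
  have hstep : ∀ u v, G.Adj u v → f a v ≤ f a u + 1 := by
    intro u v huv
    rcases h1 a haS u v huv with h | h <;> omega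
  have hl1 := level_le hstep (r.takeUntil v hv')
  have hl2 := level_le hstep (r.dropUntil v hv').reverse
  rw [Walk.length_reverse, h0 a haS] at hl2
  rw [h0 a haS] at hl1
  have hl3 : (r.takeUntil v hv').length + (r.dropUntil v hv').length = r.length := by
    rw [← Walk.length_append, Walk.take_spec]
  have hge : n ≤ f a v := by
    by_contra hlt
    push Not at hlt
    have hc := hr.rotate hv'
    set c := r.rotate v hv' with hcdef
    have hcnil : ¬ c.Nil := hc.not_nil
    have ha1 : G.Adj v c.snd := c.adj_snd hcnil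
    have ha2 : G.Adj c.penultimate v := c.adj_penultimate hcnil
    have hm1 : c.snd ∈ r.support := by
      have : c.snd ∈ c.support := c.getVert_mem_support 1
      rwa [hcdef, Walk.mem_support_rotate_iff] at this
    have hm2 : c.penultimate ∈ r.support := by
      have : c.penultimate ∈ c.support := c.getVert_mem_support _
      rwa [hcdef, Walk.mem_support_rotate_iff] at this
    have e1 := hmax _ (by simpa using hm1 : c.snd ∈ r.support.toFinset)
    have e2 := hmax _ (by simpa using hm2 : c.penultimate ∈ r.support.toFinset)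
    have e3 := h1 a haS _ _ ha1
    have e4 := h1 a haS _ _ ha2.symm
    have := h2 a haS v c.snd c.penultimate ha1 ha2.symm hlt (by omega) (by omega)
    exact hc.snd_ne_penultimate this
  have : 2 * n ≤ w.length := by omega
  exact_mod_cast this

end general

section hexagon

variable {s : ℕ} {L : Set (Finset ℕ)} {δ : ℕ → ℕ → ℕ}

/-- incidence -/
def inc (L : Set (Finset ℕ)) (p : ℕ) (l : {K // K ∈ L}) : Prop := p ∈ l.1

lemma Lim.exists_gate (H : Lim s L δ) (x : ℕ) (K : {K // K ∈ L}) :
    ∃ g ∈ K.1, ∀ u ∈ K.1, u ≠ g → δ x u = δ x g + 1 := H.pat x K.1 K.2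

/-- the point of the line `K` nearest to `x` -/
noncomputable def Lim.gate (H : Lim s L δ) (x : ℕ) (K : {K // K ∈ L}) : ℕ :=
  Classical.choose (H.exists_gate x K)

lemma Lim.gate_mem (H : Lim s L δ) (x : ℕ) (K : {K // K ∈ L}) : H.gate x K ∈ K.1 :=
  (Classical.choose_spec (H.exists_gate x K)).1

lemma Lim.gate_val (H : Lim s L δ) (x : ℕ) (K : {K // K ∈ L}) {u : ℕ} (hu : u ∈ K.1)
    (hne : u ≠ H.gate x K) : δ x u = δ x (H.gate x K) + 1 :=
  (Classical.choose_spec (H.exists_gate x K)).2 u hu hne

lemma Lim.gate_le (H : Lim s L δ) (hs : 1 ≤ s) (x : ℕ) (K : {K // K ∈ L}) :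
    δ x (H.gate x K) ≤ 2 := by
  obtain ⟨w, hw, hwg⟩ := Finset.exists_mem_ne (by rw [H.card K.1 K.2]; omega : 1 < K.1.card)
    (H.gate x K)
  have h1 := H.gate_val x K hw hwg
  have h2 := H.le x w
  omega

lemma Lim.self (H : Lim s L δ) (x : ℕ) : δ x x = 0 := (H.zero x x).2 rfl

lemma Lim.on_line (H : Lim s L δ) {x u : ℕ} {K : Finset ℕ} (hK : K ∈ L) (hx : x ∈ K)
    (hu : u ∈ K) (hne : u ≠ x) : δ x u = 1 := by
  obtain ⟨g, hg, h⟩ := H.pat x K hK
  have hxg : x = g := by
    by_contra hne'
    have := h x hx hne'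
    rw [H.self] at this
    omega
  subst hxg
  have := h u hu hne
  rw [H.self] at this
  exact this

lemma Lim.line_unique (H : Lim s L δ) {x y : ℕ} {K K' : Finset ℕ} (hK : K ∈ L) (hK' : K' ∈ L)
    (hx : x ∈ K) (hx' : x ∈ K') (hy : y ∈ K) (hy' : y ∈ K') (hne : x ≠ y) : K = K' := by
  have h1 := H.on_line hK hx hy hne.symm
  exact H.uniq x y (by omega) K hK K' hK' hy hy' ⟨x, hx, by rw [H.self, h1]⟩
    ⟨x, hx', by rw [H.self, h1]⟩

/-- the distance in the incidence graph from a point -/
noncomputable def Lim.lev (H : Lim s L δ) (a : ℕ) : ℕ ⊕ {K // K ∈ L} → ℕ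
  | Sum.inl y => 2 * δ a y
  | Sum.inr K => 2 * δ a (H.gate a K) + 1

lemma Lim.lev_adj (H : Lim s L δ) (a : ℕ) (u v : ℕ ⊕ {K // K ∈ L}) (h : (IG (inc L)).Adj u v) :
    H.lev a u = H.lev a v + 1 ∨ H.lev a v = H.lev a u + 1 := by
  have key : ∀ (y : ℕ) (K : {K // K ∈ L}), y ∈ K.1 →
      2 * δ a y = 2 * δ a (H.gate a K) + 1 + 1 ∨ 2 * δ a (H.gate a K) + 1 = 2 * δ a y + 1 := by
    intro y K hy
    by_cases hne : y = H.gate a K
    · right; rw [← hne]
    · left; rw [H.gate_val a K hy hne]; ring
  rcases u with y | K <;> rcases v with z | M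
  · exact absurd h (not_adj_ll _)
  · rw [adj_lr] at h
    exact key y M h
  · rw [adj_rl] at h
    exact (key z K h).symm
  · exact absurd h (not_adj_rr _)

/-- short walks from a point -/
lemma Lim.walk_point (H : Lim s L δ) (a y : ℕ) :
    ∃ w : (IG (inc L)).Walk (Sum.inl a) (Sum.inl y), w.length ≤ 2 * δ a y := by
  have h1 : ∀ a y, δ a y ≤ 1 → ∃ w : (IG (inc L)).Walk (Sum.inl a) (Sum.inl y),
      w.length ≤ 2 * δ a y := by
    intro a y h
    by_cases h0 : δ a y = 0
    · have := (H.zero a y).1 h0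
      subst this
      exact ⟨Walk.nil, by simp⟩
    · obtain ⟨K, hK, ha, hy⟩ := H.col a y (by omega)
      have e1 : (IG (inc L)).Adj (Sum.inl a) (Sum.inr ⟨K, hK⟩) := (adj_lr _).2 ha
      have e2 : (IG (inc L)).Adj (Sum.inr ⟨K, hK⟩) (Sum.inl y) := (adj_rl _).2 hy
      refine ⟨Walk.cons e1 (Walk.cons e2 Walk.nil), ?_⟩
      simp only [Walk.length_cons, Walk.length_nil]
      omega
  have h2 : ∀ a y, δ a y ≤ 2 → ∃ w : (IG (inc L)).Walk (Sum.inl a) (Sum.inl y),
      w.length ≤ 2 * δ a y := by
    intro a y h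
    by_cases h0 : δ a y ≤ 1
    · exact h1 a y h0
    · obtain ⟨g, hg1, hg2⟩ := H.two a y (by omega)
      obtain ⟨w1, hw1⟩ := h1 a g (by omega)
      obtain ⟨w2, hw2⟩ := h1 g y (by rw [H.symm]; omega)
      refine ⟨w1.append w2, ?_⟩
      rw [Walk.length_append]
      rw [H.symm g y] at hw2
      omega
  by_cases h0 : δ a y ≤ 2
  · exact h2 a y h0
  · have h3 : δ a y = 3 := by have := H.le a y; omega
    obtain ⟨K, hK, hy⟩ := (H.inf y).nonempty
    obtain ⟨g, hg, hgK⟩ := H.pat a K hK
    have hle : δ a g ≤ 2 := by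
      by_cases hyg : y = g
      · subst hyg
        obtain ⟨w, hw⟩ : ∃ w ∈ K, w ≠ y := by
          by_contra hcon
          push Not at hcon
          have h5 : ({K | K ∈ L ∧ y ∈ K} : Set (Finset ℕ)).Infinite := H.inf y
          have : ({K | K ∈ L ∧ y ∈ K} : Set (Finset ℕ)) ⊆ {{y}} := by
            rintro M ⟨hM, hyM⟩
            have hKc := H.card K hK
            have hMc := H.card M hM
            have hK1 : K.card = 1 := Finset.card_eq_one.2
              ⟨y, Finset.eq_singleton_iff_unique_mem.2 ⟨hy, hcon⟩⟩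
            have hM1 : M.card = 1 := by omega
            obtain ⟨z, hz⟩ := Finset.card_eq_one.1 hM1
            rw [hz] at hyM
            simp only [Finset.mem_singleton] at hyM
            subst hyM
            exact hz
          exact h5 ((Set.finite_singleton _).subset this)
        have e1 := hgK w hw.1 hw.2
        have e2 := H.le a w
        omega
      · have := hgK y hy hyg
        omega
    by_cases hyg : y = g
    · subst hyg; omega
    · have e1 := hgK y hy hyg
      obtain ⟨w1, hw1⟩ := h2 a g hle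
      obtain ⟨w2, hw2⟩ := h1 g y (by rw [H.on_line hK hg hy hyg])
      refine ⟨w1.append w2, ?_⟩
      rw [Walk.length_append]
      rw [H.on_line hK hg hy hyg] at hw2
      omega

lemma Lim.walk_lev (H : Lim s L δ) (a : ℕ) (v : ℕ ⊕ {K // K ∈ L}) :
    ∃ w : (IG (inc L)).Walk (Sum.inl a) v, w.length ≤ H.lev a v := by
  rcases v with y | K
  · exact H.walk_point a y
  · obtain ⟨w, hw⟩ := H.walk_point a (H.gate a K)
    have e : (IG (inc L)).Adj (Sum.inl (H.gate a K)) (Sum.inr K) := (adj_lr _).2 (H.gate_mem a K)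
    refine ⟨w.append (Walk.cons e Walk.nil), ?_⟩
    rw [Walk.length_append]
    simp only [Walk.length_cons, Walk.length_nil, Lim.lev]
    omega

lemma Lim.lev_le_length (H : Lim s L δ) (a : ℕ) {v : ℕ ⊕ {K // K ∈ L}}
    (w : (IG (inc L)).Walk (Sum.inl a) v) : H.lev a v ≤ w.length := by
  have := level_le (f := H.lev a) (fun u v huv => by
    rcases H.lev_adj a u v huv with h | h <;> omega) w
  have h0 : H.lev a (Sum.inl a) = 0 := by simp [Lim.lev, H.self]
  rw [h0] at this
  omega

/-- two points at distance three, with two lines through the second one -/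
lemma Lim.exists_opp (H : Lim s L δ) (hs : 1 ≤ s) : ∃ x y, δ x y = 3 := by
  have other : ∀ (y : ℕ) (K : Finset ℕ), ∃ K' ∈ L, y ∈ K' ∧ K' ≠ K := by
    intro y K
    obtain ⟨K', hK', hne⟩ := (H.inf y).exists_notMem_finset {K}
    exact ⟨K', hK'.1, hK'.2, by simpa using hne⟩
  have another : ∀ (y : ℕ), ∀ K ∈ L, ∃ z ∈ K, z ≠ y := by
    intro y K hK
    exact Finset.exists_mem_ne (by rw [H.card K hK]; omega) y
  -- a line, two points
  obtain ⟨K₁, hK₁, hx₁, -⟩ := other 0 ∅
  obtain ⟨y, hy₁, hy0⟩ := another 0 K₁ hK₁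
  have d1 : δ 0 y = 1 := H.on_line hK₁ hx₁ hy₁ hy0
  obtain ⟨K₂, hK₂, hy₂, h12⟩ := other y K₁
  have h02 : 0 ∉ K₂ := fun h => h12 (H.line_unique hK₂ hK₁ h hx₁ hy₂ hy₁ (Ne.symm hy0))
  obtain ⟨z, hz₂, hzy⟩ := another y K₂ hK₂
  have d2 : δ 0 z = 2 := by
    obtain ⟨g, hg, hgK⟩ := H.pat 0 K₂ hK₂
    have hyg : y = g := by
      by_contra hne
      have := hgK y hy₂ hne
      have h0 : δ 0 g = 0 := by omega
      have := (H.zero 0 g).1 h0
      subst this
      exact h02 hg
    subst hyg
    rw [hgK z hz₂ hzy, d1]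
  obtain ⟨K₃, hK₃, hz₃, h23⟩ := other z K₂
  obtain ⟨w, hw₃, hwz⟩ := another z K₃ hK₃
  refine ⟨0, w, ?_⟩
  obtain ⟨g, hg, hgK⟩ := H.pat 0 K₃ hK₃
  have hzg : z = g := by
    by_contra hne
    have e1 := hgK z hz₃ hne
    exact h23 (H.uniq 0 z (by omega) K₃ hK₃ K₂ hK₂ hz₃ hz₂ ⟨g, hg, e1.symm⟩
      ⟨y, hy₂, by omega⟩)
  subst hzg
  rw [hgK w hw₃ hwz, d2]

theorem Lim.egirth (H : Lim s L δ) (hs : 1 ≤ s) : (IG (inc L)).egirth = ((2 * 6 : ℕ) : ℕ∞) := by
  apply le_antisymm
  · -- two geodesics between opposite points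
    obtain ⟨x, y, h3⟩ := H.exists_opp hs
    obtain ⟨K, hK⟩ := (H.inf y).nonempty
    obtain ⟨K', hK', hne⟩ := (H.inf y).exists_notMem_finset {K}
    have hne' : K' ≠ K := by simpa using hne
    have geo : ∀ (M : Finset ℕ) (hM : M ∈ L) (hyM : y ∈ M),
        ∃ w : (IG (inc L)).Walk (Sum.inl x) (Sum.inl y), w.IsPath ∧ w.length = 6 ∧
          w.penultimate = Sum.inr ⟨M, hM⟩ := by
      intro M hM hyM
      obtain ⟨w, hw⟩ := H.walk_lev x (Sum.inr ⟨M, hM⟩)
      have e : (IG (inc L)).Adj (Sum.inr ⟨M, hM⟩) (Sum.inl y) := (adj_rl _).2 hyM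
      have hlev : H.lev x (Sum.inr ⟨M, hM⟩) = 5 := by
        have h1 := H.lev_adj x _ _ e
        have h2 := H.gate_le hs x ⟨M, hM⟩
        simp only [Lim.lev] at h1 ⊢
        omega
      have hlen : (w.concat e).length = 6 := by
        have h1 := H.lev_le_length x (w.concat e)
        rw [Walk.length_concat] at h1 ⊢
        simp only [Lim.lev] at h1 hlev
        simp only [Lim.lev] at hw
        omega
      refine ⟨w.concat e, ?_, hlen, by simp⟩
      apply Walk.isPath_of_length_eq_dist
      rw [hlen]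
      apply le_antisymm
      · rw [(SimpleGraph.Reachable.exists_walk_length_eq_dist (w.concat e).reachable).choose_spec.symm]
        have := H.lev_le_length x
          (SimpleGraph.Reachable.exists_walk_length_eq_dist (w.concat e).reachable).choose
        simp only [Lim.lev] at this
        omega
      · rw [← hlen]; exact SimpleGraph.dist_le _
    obtain ⟨p, hp, hpl, hpp⟩ := geo K hK.1 hK.2
    obtain ⟨q, hq, hql, hqp⟩ := geo K' hK'.1 hK'.2
    by_contra hcon
    rw [not_le] at hcon
    have := path_eq_of_short p q hp hq (by rw [hpl, hql]; exact hcon)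
    rw [this, hqp] at hpp
    simp only [Sum.inr.injEq, Subtype.mk.injEq] at hpp
    exact hne' hpp
  · refine egirth_ge 6 (Set.range Sum.inl) ?_ (fun u v => Sum.elim (fun a => H.lev a v)
      (fun _ => 0) u) ?_ ?_ ?_
    · intro u v huv
      rcases u with y | K
      · exact Or.inl ⟨y, rfl⟩
      · rcases v with z | M
        · exact Or.inr ⟨z, rfl⟩
        · exact absurd huv (not_adj_rr _)
    · rintro _ ⟨a, rfl⟩
      simp [Lim.lev, H.self]
    · rintro _ ⟨a, rfl⟩ u v huv
      exact H.lev_adj a u v huv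
    · rintro _ ⟨a, rfl⟩ u v v' h1 h2 hlt e1 e2
      simp only [Sum.elim_inl] at hlt e1 e2
      rcases u with y | K
      · -- a point: the line toward `a` is unique
        rcases v with z | M
        · exact absurd h1 (not_adj_ll _)
        rcases v' with z | M'
        · exact absurd h2 (not_adj_ll _)
        rw [adj_lr] at h1 h2
        simp only [Lim.lev] at hlt e1 e2
        have := H.uniq a y (by omega) M.1 M.2 M'.1 M'.2 h1 h2 ⟨H.gate a M, H.gate_mem a M, by omega⟩
          ⟨H.gate a M', H.gate_mem a M', by omega⟩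
        rw [Subtype.ext this]
      · -- a line: the gate is unique
        rcases v with z | M
        · rcases v' with z' | M'
          · rw [adj_rl] at h1 h2
            simp only [Lim.lev] at hlt e1 e2
            have k1 : z = H.gate a K := by
              by_contra hne
              have := H.gate_val a K h1 hne
              omega
            have k2 : z' = H.gate a K := by
              by_contra hne
              have := H.gate_val a K h2 hne
              omega
            rw [k1, k2]
          · exact absurd h2 (not_adj_rr _)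
        · exact absurd h1 (not_adj_rr _)

theorem Lim.ediam (H : Lim s L δ) (hs : 1 ≤ s) : (IG (inc L)).ediam = ((6 : ℕ) : ℕ∞) := by
  have hlev : ∀ a v, H.lev a v ≤ 6 := by
    intro a v
    rcases v with y | K
    · have := H.le a y
      simp only [Lim.lev]; omega
    · have := H.gate_le hs a K
      simp only [Lim.lev]; omega
  have hlev5 : ∀ a K, H.lev a (Sum.inr K) ≤ 5 := by
    intro a K
    have := H.gate_le hs a K
    simp only [Lim.lev]; omega
  have hpt : ∀ a v, (IG (inc L)).edist (Sum.inl a) v ≤ (H.lev a v : ℕ∞) := by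
    intro a v
    obtain ⟨w, hw⟩ := H.walk_lev a v
    exact (SimpleGraph.edist_le w).trans (by exact_mod_cast hw)
  apply le_antisymm
  · rw [ediam_le_iff]
    intro u v
    rcases u with a | K
    · exact (hpt a v).trans (by exact_mod_cast hlev a v)
    · rcases v with b | M
      · rw [SimpleGraph.edist_comm]
        exact (hpt b _).trans (by exact_mod_cast hlev b _)
      · obtain ⟨x, hx⟩ : K.1.Nonempty := by
          rw [← Finset.card_pos, H.card K.1 K.2]; omega
        obtain ⟨w, hw⟩ := H.walk_lev x (Sum.inr M)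
        have e : (IG (inc L)).Adj (Sum.inr K) (Sum.inl x) := (adj_rl _).2 hx
        refine (SimpleGraph.edist_le (Walk.cons e w)).trans ?_
        have h5 := hlev5 x M
        have : (Walk.cons e w).length ≤ 6 := by
          rw [Walk.length_cons]; omega
        exact_mod_cast this
  · obtain ⟨x, y, h3⟩ := H.exists_opp hs
    refine le_trans ?_ (SimpleGraph.edist_le_ediam (u := Sum.inl x) (v := Sum.inl y))
    rw [SimpleGraph.edist]
    refine le_iInf ?_
    intro w
    have := H.lev_le_length x w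
    simp only [Lim.lev] at this
    have h6 : 6 ≤ w.length := by omega
    exact_mod_cast h6

end hexagon

end Pool.Agent.W290.Fr
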