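import Pool.Agent.W290.FrE1

set_option autoImplicit false

/-!
# Free construction of hexagons with finite lines: preparing a common neighbour
-/

namespace Pool.Agent.W290.Fr

/-- the distances of the new points on a new line through `y`, with `n` collinear to `r` -/
def phiA (δ : ℕ → ℕ → ℕ) (y r : ℕ) (f : ℕ → ℕ) (j u : ℕ) : ℕ :=
  if δ y u ≤ 1 then δ y u + 1
  else if δ y u = 2 then (if u = r then (if j = 0 then 1 else 2) else 3)
  else if f u = j then 2 else 3

/-- `y` and `r` are at distance two but have no common neighbour -/
structure Uns (n : ℕ) (δ : ℕ → ℕ → ℕ) (y r : ℕ) : Prop where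
  yn : y < n
  rn : r < n
  two : δ y r = 2
  none : ∀ g < n, δ y g = 1 → δ r g = 1 → False

namespace Uns

variable {s N n : ℕ} {L : Set (Finset ℕ)} {δ : ℕ → ℕ → ℕ} {y r : ℕ}

lemma swap (U : Uns n δ y r) (h : ∀ a b, δ a b = δ b a) : Uns n δ r y :=
  ⟨U.rn, U.yn, by rw [h]; exact U.two, fun g hg h1 h2 => U.none g hg h2 h1⟩

/-- no line through `y` is toward `r` -/
lemma not_toward (U : Uns n δ y r) (H : Pre s n L δ) {K : Finset ℕ} (hK : K ∈ L) (hy : y ∈ K)
    {g : ℕ} (hg : g ∈ K) (h : δ r g = 1) : False := by
  have hne : g ≠ y := by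
    rintro rfl
    have := U.two
    rw [H.symm] at this
    omega
  exact U.none g (H.lt K hK g hg) (H.on_line hK hy hg hne) h

lemma not_both (U : Uns n δ y r) (H : Pre s n L δ) {K : Finset ℕ} (hK : K ∈ L) (hy : y ∈ K)
    (hr : r ∈ K) : False := by
  have hne : r ≠ y := by
    rintro rfl
    have := U.two
    rw [H.self U.rn] at this
    omega
  have := H.on_line hK hy hr hne
  rw [U.two] at this
  omega

/-- points collinear to `y` are opposite `r` -/
lemma lemR (U : Uns n δ y r) (H : Pre s n L δ) (C : Col n L δ) {u : ℕ} (hu : u < n)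
    (h : δ y u = 1) : δ r u = 3 := by
  obtain ⟨K, hK, hy, huK⟩ := C y u U.yn hu h
  obtain ⟨g, hg, hgK⟩ := H.pat r U.rn K hK
  have h2 : δ r y = 2 := by rw [H.symm]; exact U.two
  have hgy : g = y := by
    by_contra hne
    have := hgK y hy (Ne.symm hne)
    exact U.not_toward H hK hy hg (by omega)
  subst hgy
  have hne : u ≠ g := by
    rintro rfl
    rw [H.self hu] at h
    omega
  rw [hgK u huK hne, h2]

end Uns

theorem colorA {s N n : ℕ} {L : Set (Finset ℕ)} {δ : ℕ → ℕ → ℕ} (H : St s N n L δ)
    (hs : N + 2 ≤ s) {y r : ℕ} (U : Uns n δ y r) :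
    ∃ f : ℕ → ℕ, (∀ u < n, f u < s ∧ (δ y u = 3 → (δ r u = 1 → f u = 0) ∧
        (δ r u = 2 → f u ≠ 0))) ∧
      ∀ K ∈ L, ∀ u ∈ K, ∀ v ∈ K, u ≠ v → r ∉ K → δ y u = 3 → δ y v = 3 → f u ≠ f v := by
  have P := H.pre
  have hy := U.yn
  have hr := U.rn
  have U' := U.swap P.symm
  obtain ⟨f, hf1, hf2⟩ := H.sol
    (fun u a => a < s ∧ (δ y u = 3 → (δ r u = 1 → a = 0) ∧ (δ r u = 2 → a ≠ 0)))
    (fun K u v a b => r ∉ K → δ y u = 3 → δ y v = 3 → a ≠ b) (by
    intro K hK Q hQK hQ g hg1 hg2
    by_cases hrK : r ∈ K
    · -- the line contains `r`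
      classical
      refine ⟨fun u => if u ∈ Q then g u else 0, ?_, ?_, ?_⟩
      · intro u hu; simp [hu]
      · intro u hu
        by_cases huQ : u ∈ Q
        · simpa [huQ] using hg1 u huQ
        · simp only [huQ, if_false]
          refine ⟨by omega, fun _ => ⟨fun _ => trivial, fun h => ?_⟩⟩
          exfalso
          by_cases hur : u = r
          · subst hur
            rw [P.self hr] at h; omega
          · have := P.on_line hK hrK hu hur
            omega
      · intro u hu v hv huv hrK'
        exact absurd hrK hrK'
    · by_cases hex : ∃ u ∈ K, δ y u = 3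
      · obtain ⟨u₀, hu₀, hu₀3⟩ := hex
        obtain ⟨w, hw, hw2, hw3⟩ := P.three (by omega) hy hK hu₀ hu₀3
        have hwn := P.lt K hK w hw
        have hcard := P.card K hK
        set T := K.erase w with hT
        have hTc : T.card ≤ s := by
          rw [hT, Finset.card_erase_of_mem hw, hcard]; omega
        have hT3 : ∀ u ∈ T, u ∈ K ∧ δ y u = 3 := by
          intro u hu
          rw [hT, Finset.mem_erase] at hu
          exact ⟨hu.2, hw3 u hu.2 hu.1⟩
        have h3T : ∀ u ∈ K, δ y u = 3 → u ∈ T := by
          intro u hu h3
          rw [hT, Finset.mem_erase]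
          refine ⟨?_, hu⟩
          rintro rfl
          omega
        obtain ⟨a', ha', ha'K⟩ := P.pat r hr K hK
        have ha'n := P.lt K hK a' ha'
        have hpos : 1 ≤ δ r a' := P.pos hr ha'n (by rintro rfl; exact hrK ha')
        have hinjQ : ∀ u ∈ Q, ∀ v ∈ Q, u ∈ T → v ∈ T → u ≠ v → g u ≠ g v := by
          intro u hu v hv hu' hv' huv
          exact hg2 u hu v hv huv hrK (hT3 u hu').2 (hT3 v hv').2
        -- it suffices to find a point to be coloured zero
        have main : ∀ z ∈ T, (z ∈ Q → g z = 0) → (∀ u ∈ Q, u ∈ T → u ≠ z → g u ≠ 0) →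
            (∀ u ∈ T, δ r u = 1 → u = z) → (δ r z ≠ 2) →
            ∃ g' : ℕ → ℕ, (∀ u ∈ Q, g' u = g u) ∧
              (∀ u ∈ K, g' u < s ∧ (δ y u = 3 → (δ r u = 1 → g' u = 0) ∧
                (δ r u = 2 → g' u ≠ 0))) ∧
              ∀ u ∈ K, ∀ v ∈ K, u ≠ v → r ∉ K → δ y u = 3 → δ y v = 3 → g' u ≠ g' v := by
          intro z hz hz0 hzQ hz1 hz2
          obtain ⟨g', e1, e2, e3⟩ := extend_inj (by omega : 1 ≤ s) T (insert z Q) hTc
            (fun u => if u = z then 0 else g u) (by
              intro u hu
              by_cases huz : u = z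
              · simp [huz]; omega
              · simp only [huz, if_false]
                rw [Finset.mem_insert] at hu
                exact (hg1 u (hu.resolve_left huz)).1) (by
              intro u hu v hv hu' hv' huv
              rw [Finset.mem_insert] at hu hv
              by_cases huz : u = z
              · have hvz : v ≠ z := by rintro rfl; exact huv huz
                simp only [huz, if_true, hvz, if_false]
                exact (hzQ v (hv.resolve_left hvz) hv' hvz).symm
              · by_cases hvz : v = z
                · simp only [hvz, if_true, huz, if_false]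
                  exact hzQ u (hu.resolve_left huz) hu' huz
                · simp only [huz, hvz, if_false]
                  exact hinjQ u (hu.resolve_left huz) v (hv.resolve_left hvz) hu' hv' huv)
          have hgz : g' z = 0 := by rw [e1 z (Finset.mem_insert_self _ _)]; simp
          have hgQ : ∀ u ∈ Q, g' u = g u := by
            intro u hu
            by_cases huz : u = z
            · subst huz
              rw [hgz, hz0 hu]
            · rw [e1 u (Finset.mem_insert_of_mem hu)]; simp [huz]
          refine ⟨g', hgQ, ?_, ?_⟩
          · intro u hu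
            refine ⟨?_, fun h3 => ⟨fun h1 => ?_, fun h2 => ?_⟩⟩
            · by_cases huQ : u ∈ Q
              · rw [hgQ u huQ]; exact (hg1 u huQ).1
              · by_cases huz : u = z
                · rw [huz, hgz]; omega
                · exact e2 u (by rw [Finset.mem_insert]; tauto)
            · rw [hz1 u (h3T u hu h3) h1, hgz]
            · have huz : u ≠ z := by rintro rfl; exact hz2 h2
              have := e3 u (h3T u hu h3) z hz huz
              rw [hgz] at this
              exact this
          · intro u hu v hv huv _ h3 h3'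
            exact e3 u (h3T u hu h3) v (h3T v hv h3') huv
        by_cases hone : δ r a' = 1
        · -- `a'` is collinear to `r`
          have ha'3 : δ y a' = 3 := U'.lemR P H.col ha'n hone
          refine main a' (h3T a' ha' ha'3) ?_ ?_ ?_ (by omega)
          · intro hQ'
            exact ((hg1 a' hQ').2 ha'3).1 hone
          · intro u hu huT hne
            obtain ⟨huK, hu3⟩ := hT3 u huT
            exact ((hg1 u hu).2 hu3).2 (by rw [ha'K u huK hne, hone])
          · intro u huT hu1
            by_contra hne
            have := ha'K u (hT3 u huT).1 hne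
            omega
        · have hle : δ r a' ≤ 2 := by
            obtain ⟨v, hv, hva⟩ := Finset.exists_mem_ne (by omega : 1 < K.card) a'
            have h1 := ha'K v hv hva
            have h2 := P.le r v hr (P.lt K hK v hv)
            omega
          have ha'2 : δ r a' = 2 := by omega
          by_cases hzero : ∃ z ∈ Q, z ∈ T ∧ g z = 0
          · obtain ⟨z, hzQ, hzT, hz0⟩ := hzero
            obtain ⟨hzK, hz3⟩ := hT3 z hzT
            refine main z hzT (fun _ => hz0) ?_ ?_ ?_
            · intro u hu huT hne
              rw [← hz0]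
              exact hinjQ u hu z hzQ huT hzT hne
            · intro u huT hu1
              exfalso
              by_cases hua : u = a'
              · subst hua; omega
              · have := ha'K u (hT3 u huT).1 hua
                omega
            · intro h2
              exact ((hg1 z hzQ).2 hz3).2 h2 hz0
          · push Not at hzero
            have hcardU : (insert w (insert a' Q)).card ≤ N + 2 :=
              (Finset.card_insert_le _ _).trans
                (Nat.succ_le_succ ((Finset.card_insert_le _ _).trans (Nat.succ_le_succ hQ)))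
            obtain ⟨z, hzK, hz⟩ : ∃ z ∈ K, z ∉ insert w (insert a' Q) :=
              Finset.exists_mem_notMem_of_card_lt_card (by omega)
            simp only [Finset.mem_insert, not_or] at hz
            obtain ⟨hzw, hza, hzQ⟩ := hz
            refine main z (by rw [hT, Finset.mem_erase]; exact ⟨hzw, hzK⟩)
              (fun h => absurd h hzQ) ?_ ?_ ?_
            · intro u hu huT _
              exact hzero u hu huT
            · intro u huT hu1
              exfalso
              by_cases hua : u = a'
              · subst hua; omega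
              · have := ha'K u (hT3 u huT).1 hua
                omega
            · have := ha'K z hzK hza
              omega
      · -- no point of the line is opposite `y`
        push Not at hex
        classical
        refine ⟨fun u => if u ∈ Q then g u else 0, ?_, ?_, ?_⟩
        · intro u hu; simp [hu]
        · intro u hu
          by_cases huQ : u ∈ Q
          · simpa [huQ] using hg1 u huQ
          · simp only [huQ, if_false]
            exact ⟨by omega, fun h => absurd h (hex u hu)⟩
        · intro u hu v hv huv _ h3
          exact absurd h3 (hex u hu)) (by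
    intro x hx Z hZ hZ' g hg
    by_cases h3 : δ y x = 3
    · by_cases h1 : δ r x = 1
      · refine ⟨0, ⟨by omega, fun _ => ⟨fun _ => rfl, fun h => by omega⟩⟩, ?_⟩
        intro z hz
        obtain ⟨hzL, hxz, hzz, hne⟩ := hZ' z hz
        have key : r ∉ z.1 → δ y z.2 = 3 → g z.2 ≠ 0 := by
          intro hrz hz3
          have hzn := P.lt z.1 hzL z.2 hzz
          obtain ⟨a, ha, haK⟩ := P.pat r hr z.1 hzL
          have hapos : 1 ≤ δ r a := P.pos hr (P.lt _ hzL a ha) (by rintro rfl; exact hrz ha)
          have hax : x = a := by
            by_contra hne'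
            have := haK x hxz hne'
            omega
          subst hax
          exact ((hg z hz).2 hz3).2 (by rw [haK z.2 hzz hne, h1])
        exact ⟨fun hrz _ hz3 => (key hrz hz3).symm, fun hrz hz3 _ => key hrz hz3⟩
      · obtain ⟨a, ha1, ha2, ha3⟩ := exists_color Z (fun z => g z.2) 1 s (by omega)
        exact ⟨a, ⟨ha2, fun _ => ⟨fun h => absurd h h1, fun _ => by omega⟩⟩,
          fun z hz => ⟨fun _ _ _ => ha3 z hz, fun _ _ _ => (ha3 z hz).symm⟩⟩
    · exact ⟨0, ⟨by omega, fun h => absurd h h3⟩, fun z hz =>
        ⟨fun _ h => absurd h h3, fun _ _ h => absurd h h3⟩⟩)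
  exact ⟨f, hf1, fun K hK u hu v hv huv hrK h3 h3' => hf2 K hK u hu v hv huv hrK h3 h3'⟩

theorem stepA {s N n : ℕ} {L : Set (Finset ℕ)} {δ : ℕ → ℕ → ℕ} (H : St s N n L δ)
    (hs : N + 2 ≤ s) {y r : ℕ} (U : Uns n δ y r) :
    ∃ δ', Pre s (n + s) (insert (line1 n s y) L) δ' ∧
      (∀ x z, x < n → z < n → δ' x z = δ x z) ∧ δ' n r = 1 ∧
      (∀ u < n + s, δ' n u = δ' r u → δ' n u = 3) ∧
      (∀ u < n + s, δ' n u ≤ δ' r u + 1) ∧ (∀ u < n + s, δ' r u ≤ δ' n u + 1) ∧
      (∀ x < n + s, ∀ K ∈ insert (line1 n s y) L, n ∈ K → δ' r x + 1 = δ' n x → δ' n x ≤ 2 →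
        ∀ g ∈ K, δ' x g + 1 = δ' x n → False) ∧
      (∀ x < n + s, ∀ K ∈ insert (line1 n s y) L, r ∈ K → δ' n x + 1 = δ' r x → δ' r x ≤ 2 →
        ∀ g ∈ K, δ' x g + 1 = δ' x r → False) ∧
      (∀ x z, x < n + s → z < n + s → δ' x z = 1 →
        (x = n ∧ z = r) ∨ (x = r ∧ z = n) ∨ ∃ K ∈ insert (line1 n s y) L, x ∈ K ∧ z ∈ K) := by
  obtain ⟨f, hf1, hf2⟩ := colorA H hs U
  have P := H.pre
  have hy := U.yn
  have hr := U.rn
  have U' := U.swap P.symm
  have hyy := P.self hy
  have hyr := U.two
  have hry : δ r y = 2 := U'.two
  have hner : y ≠ r := by rintro rfl; omega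
  have hle : ∀ u, u < n → δ y u ≤ 3 := fun u hu => P.le y u hy hu
  have hphi1 : ∀ j, ∀ u < n, phiA δ y r f j u = 1 → u = y ∨ (u = r ∧ j = 0) := by
    intro j u hu h
    unfold phiA at h
    split_ifs at h with h1 h2 h3 h4
    · exact Or.inl ((P.zero y u hy hu).1 (by omega)).symm
    · exact Or.inr ⟨h3, h4⟩
    all_goals omega
  have hpos : ∀ j, ∀ u < n, 1 ≤ phiA δ y r f j u := by
    intro j u hu
    unfold phiA
    split_ifs <;> omega
  have hle3 : ∀ j, ∀ u < n, phiA δ y r f j u ≤ 3 := by
    intro j u hu
    unfold phiA
    split_ifs <;> omega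
  have hphiy : ∀ j, phiA δ y r f j y = 1 := by intro j; simp [phiA, hyy]
  have hphir0 : phiA δ y r f 0 r = 1 := by simp [phiA, hyr]
  have hphirj : ∀ j, j ≠ 0 → phiA δ y r f j r = 2 := by intro j hj; simp [phiA, hyr, hj]
  have hPre : Pre s (n + s) (insert (line1 n s y) L) (dext n δ (phiA δ y r f)) := by
    refine P.ext1 s (line1 n s y) (phiA δ y r f) (line1_card hy) ?_ ?_ ?_ ?_ ?_ ?_ ?_ ?_ ?_
    · intro u hu
      rw [mem_line1] at hu
      omega
    · intro j _ u hu; exact hpos j u hu
    · intro j _ u hu; exact hle3 j u hu
    · intro j _ u hu hun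
      rw [mem_line1] at hu
      have : u = y := by omega
      subst this
      exact hphiy j
    · intro j hj
      rw [mem_line1]; omega
    · -- pattern on the new line
      intro x hx
      have hxle := hle x hx
      by_cases h3 : δ y x = 3
      · have hfx := (hf1 x hx).1
        have hxr : x ≠ r := by rintro rfl; omega
        refine ⟨n + f x, by rw [mem_line1]; omega, ?_⟩
        intro u hu hne
        rw [dext_on hx]
        have hg : phiA δ y r f (f x) x = 2 := by simp [phiA, h3]
        rw [hg]
        rw [mem_line1] at hu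
        rcases hu with rfl | ⟨hu1, hu2⟩
        · rw [dext_old hx hy, P.symm, h3]
        · obtain ⟨j, rfl⟩ := Nat.exists_eq_add_of_le hu1
          rw [dext_on hx]
          have : f x ≠ j := by rintro rfl; exact hne rfl
          simp [phiA, h3, this]
      · by_cases hxr : x = r
        · subst hxr
          refine ⟨n + 0, by rw [mem_line1]; omega, ?_⟩
          intro u hu hne
          rw [dext_on hx, hphir0]
          rw [mem_line1] at hu
          rcases hu with rfl | ⟨hu1, hu2⟩
          · rw [dext_old hx hy, hry]
          · obtain ⟨j, rfl⟩ := Nat.exists_eq_add_of_le hu1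
            rw [dext_on hx, hphirj j (by rintro rfl; exact hne rfl)]
        · refine ⟨y, by rw [mem_line1]; omega, ?_⟩
          intro u hu hne
          rw [mem_line1] at hu
          rcases hu with rfl | ⟨hu1, hu2⟩
          · exact absurd rfl hne
          · obtain ⟨j, rfl⟩ := Nat.exists_eq_add_of_le hu1
            rw [dext_on hx, dext_old hx hy, P.symm x y]
            unfold phiA
            rw [if_neg hxr]
            split_ifs <;> omega
    · -- pattern on the old lines
      intro j hj K hK
      obtain ⟨g, hg, hgK⟩ := P.pat y hy K hK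
      have hgn := P.lt K hK g hg
      have hKle : ∀ u ∈ K, δ y u ≤ 3 := fun u hu => hle u (P.lt K hK u hu)
      have hcard := P.card K hK
      have hg2 : δ y g ≤ 2 := by
        obtain ⟨w, hw, hwg⟩ := Finset.exists_mem_ne (by omega : 1 < K.card) g
        have h1 := hgK w hw hwg
        have h2 := hKle w hw
        omega
      by_cases h2 : δ y g = 2
      · by_cases hrK : r ∈ K
        · -- `r` is on the line, so it is the gate
          have hgr : r = g := by
            by_contra hne
            have := hgK r hrK hne
            omega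
          subst hgr
          refine ⟨r, hg, ?_⟩
          intro u hu hur
          have hu3 : δ y u = 3 := by rw [hgK u hu hur, h2]
          have hu1 : δ r u = 1 := P.on_line hK hrK hu hur
          have hu0 : f u = 0 := ((hf1 u (P.lt K hK u hu)).2 hu3).1 hu1
          by_cases hj0 : j = 0
          · subst hj0
            rw [hphir0]
            simp [phiA, hu3, hu0]
          · rw [hphirj j hj0]
            simp [phiA, hu3, hu0, Ne.symm hj0]
        · have hgr : g ≠ r := by rintro rfl; exact hrK hg
          obtain ⟨u, hu, huj⟩ := surj_color (s := s) (T := K.erase g)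
            (by rw [Finset.card_erase_of_mem hg, hcard]; rfl) (f := f)
            (fun u hu => (hf1 u (P.lt K hK u (Finset.mem_of_mem_erase hu))).1) (by
              intro u hu v hv huv
              rw [Finset.mem_erase] at hu hv
              refine hf2 K hK u hu.2 v hv.2 huv hrK ?_ ?_
              · rw [hgK u hu.2 hu.1, h2]
              · rw [hgK v hv.2 hv.1, h2]) hj
          rw [Finset.mem_erase] at hu
          refine ⟨u, hu.2, ?_⟩
          have hu3 : δ y u = 3 := by rw [hgK u hu.2 hu.1, h2]
          have hval : phiA δ y r f j u = 2 := by simp [phiA, hu3, huj]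
          intro v hv hvu
          rw [hval]
          by_cases hvg : v = g
          · subst hvg
            simp [phiA, h2, hgr]
          · have hv3 : δ y v = 3 := by rw [hgK v hv hvg, h2]
            have : f v ≠ j := by
              rw [← huj]
              exact hf2 K hK v hv u hu.2 hvu hrK hv3 hu3
            simp [phiA, hv3, this]
      · refine ⟨g, hg, ?_⟩
        intro u hu hug
        have h3 := hgK u hu hug
        have hur : u ≠ r := by
          rintro rfl
          have hg1 : δ y g = 1 := by omega
          exact U'.not_toward P hK hu hg hg1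
        unfold phiA
        rw [if_neg hur]
        split_ifs <;> omega
    · -- uniqueness for the new points
      intro j hj u hu K hK K' hK' huK huK' hle2 hgt hgt'
      have key : ∀ K ∈ L, u ∈ K → (∃ g ∈ K, phiA δ y r f j g + 1 = phiA δ y r f j u) →
          (y ∈ K ∧ u ≠ y ∧ δ y u = 1) ∨ (r ∈ K ∧ u ≠ r ∧ δ r u = 1) := by
        rintro K hK huK ⟨g, hgK, hg⟩
        have hgn := P.lt K hK g hgK
        have h1 := hpos j g hgn
        have h2 : phiA δ y r f j g = 1 := by omega
        have h3 := hphi1 j g hgn h2
        rcases h3 with rfl | ⟨rfl, rfl⟩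
        · have hne : u ≠ g := by rintro rfl; omega
          exact Or.inl ⟨hgK, hne, P.on_line hK hgK huK hne⟩
        · have hne : u ≠ g := by rintro rfl; omega
          exact Or.inr ⟨hgK, hne, P.on_line hK hgK huK hne⟩
      rcases key K hK huK hgt with ⟨a1, a2, a3⟩ | ⟨a1, a2, a3⟩ <;>
        rcases key K' hK' huK' hgt' with ⟨b1, b2, b3⟩ | ⟨b1, b2, b3⟩
      · exact P.line_unique hK hK' huK huK' a1 b1 a2
      · exact (U.none u hu a3 b3).elim
      · exact (U.none u hu b3 a3).elim
      · exact P.line_unique hK hK' huK huK' a1 b1 a2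
    · -- the new line and the old lines through its old point
      rintro x hx u hu hun hle2 ⟨p, hp, hpx⟩ K hK huK ⟨g, hg, hgx⟩
      rw [mem_line1] at hu
      have huy : u = y := by omega
      subst huy
      rw [mem_line1] at hp
      rcases hp with rfl | ⟨hp1, hp2⟩
      · rw [dext_old hx hun] at hpx; omega
      · obtain ⟨j, rfl⟩ := Nat.exists_eq_add_of_le hp1
        rw [dext_on hx, P.symm x u] at hpx
        rw [P.symm x u] at hle2 hgx
        have h1 := hpos j x hx
        have hx1 : phiA δ u r f j x = 1 := by omega
        rcases hphi1 j x hx hx1 with rfl | ⟨rfl, rfl⟩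
        · omega
        · exact U.not_toward P hK huK hg (by omega)
  -- values of the two new functions
  have hE : ∀ u < n, dext n δ (phiA δ y r f) n u = phiA δ y r f 0 u := by
    intro u hu
    exact dext_no (j := 0) hu
  have hEn : ∀ j, dext n δ (phiA δ y r f) n (n + j) = if 0 = j then 0 else 1 := by
    intro j
    exact dext_nn (i := 0)
  have hR : ∀ u < n, dext n δ (phiA δ y r f) r u = δ r u := fun u hu => dext_old hr hu
  have hRn : ∀ j, dext n δ (phiA δ y r f) r (n + j) = if j = 0 then 1 else 2 := by
    intro j
    rw [dext_on hr]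
    split_ifs with h
    · subst h; exact hphir0
    · exact hphirj j h
  -- classification
  have cls : ∀ u < n + s, (dext n δ (phiA δ y r f) n u = dext n δ (phiA δ y r f) r u ∧
        dext n δ (phiA δ y r f) n u = 3) ∨
      dext n δ (phiA δ y r f) n u = dext n δ (phiA δ y r f) r u + 1 ∨
      dext n δ (phiA δ y r f) r u = dext n δ (phiA δ y r f) n u + 1 := by
    intro u hu
    rcases lt_or_ge u n with hun | hun
    · rw [hE u hun, hR u hun]
      obtain ⟨c1, c2⟩ := hf1 u hun
      have c3 := hle u hun
      have c4 := P.le r u hr hun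
      have c5 := U.lemR P H.col hun
      have c6 := U'.lemR P H.col hun
      have c7 := P.zero r u hr hun
      have c8 := P.zero y u hy hun
      rcases Nat.lt_or_ge (δ y u) 1 with k | k
      · have : y = u := c8.1 (by omega)
        subst this
        rw [hphiy, hry]; omega
      · by_cases k1 : δ y u = 1
        · have k2 := c5 k1
          have : phiA δ y r f 0 u = 2 := by simp [phiA, k1]
          omega
        · by_cases k2 : δ y u = 2
          · by_cases hur : u = r
            · subst hur
              rw [hphir0, P.self hr]; omega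
            · have : phiA δ y r f 0 u = 3 := by simp [phiA, k2, hur]
              have k3 : δ r u ≠ 0 := fun h => hur (c7.1 h).symm
              have k4 : δ r u ≠ 1 := fun h => by have := c6 h; omega
              omega
          · have k3 : δ y u = 3 := by omega
            obtain ⟨d1, d2⟩ := c2 k3
            have k4 : δ r u ≠ 0 := fun h => by
              have := c7.1 h
              subst this
              omega
            by_cases hf : f u = 0
            · have : phiA δ y r f 0 u = 2 := by simp [phiA, k3, hf]
              have : δ r u ≠ 2 := fun h => d2 h hf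
              omega
            · have : phiA δ y r f 0 u = 3 := by simp [phiA, k3, hf]
              have : δ r u ≠ 1 := fun h => hf (d1 h)
              omega
    · obtain ⟨j, rfl⟩ := Nat.exists_eq_add_of_le hun
      rw [hEn, hRn]
      by_cases hj : j = 0
      · subst hj; simp
      · simp [hj, Ne.symm hj]
  refine ⟨dext n δ (phiA δ y r f), hPre, fun x z hx hz => dext_old hx hz, ?_, ?_, ?_, ?_, ?_, ?_,
    ?_⟩
  · rw [hE r hr]; exact hphir0
  · intro u hu h
    rcases cls u hu with h' | h' | h' <;> omega
  · intro u hu
    rcases cls u hu with h' | h' | h' <;> omega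
  · intro u hu
    rcases cls u hu with h' | h' | h' <;> omega
  · -- the line `M₁` is the only one through `n` and is not toward points behind `r`
    intro x hx K hK hnK h1 h2 g hg hgx
    have hKM : K = line1 n s y := by
      rcases hK with rfl | hK
      · rfl
      · have := P.lt K hK n hnK
        omega
    subst hKM
    rcases lt_or_ge x n with hxn | hxn
    · rw [hPre.symm x n, hE x hxn] at hgx
      rw [hE x hxn] at h1 h2
      rw [hR x hxn] at h1
      rw [mem_line1] at hg
      have hxv : phiA δ y r f 0 x = 1 ∨ phiA δ y r f 0 x = 2 := by omega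
      rcases hxv with hv | hv
      · have h0 : δ r x = 0 := by omega
        have := (P.zero r x hr hxn).1 h0
        subst this
        rcases hg with rfl | ⟨hg1, hg2⟩
        · rw [dext_old hr hy] at hgx; omega
        · obtain ⟨j, rfl⟩ := Nat.exists_eq_add_of_le hg1
          rw [hRn] at hgx
          split_ifs at hgx <;> omega
      · have h0 : δ r x = 1 := by omega
        have h3 := U'.lemR P H.col hxn h0
        rcases hg with rfl | ⟨hg1, hg2⟩
        · rw [dext_old hxn hy, P.symm] at hgx; omega
        · obtain ⟨j, rfl⟩ := Nat.exists_eq_add_of_le hg1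
          rw [dext_on hxn] at hgx
          have h4 : phiA δ y r f j x = 1 := by omega
          rcases hphi1 j x hxn h4 with rfl | ⟨rfl, rfl⟩
          · omega
          · rw [P.self hr] at h0; omega
    · obtain ⟨i, rfl⟩ := Nat.exists_eq_add_of_le hxn
      rw [hEn, hRn] at h1
      split_ifs at h1 <;> omega
  · intro x hx K hK hrK h1 h2 g hg hgx
    have hKL : K ∈ L := by
      rcases hK with rfl | hK
      · rw [mem_line1] at hrK
        omega
      · exact hK
    have hgn := P.lt K hKL g hg
    rcases lt_or_ge x n with hxn | hxn
    · rw [dext_old hxn hgn, dext_old hxn hr] at hgx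
      rw [hE x hxn, hR x hxn] at h1
      rw [hR x hxn] at h2
      have h3 := hpos 0 x hxn
      have h4 : phiA δ y r f 0 x = 1 := by omega
      rcases hphi1 0 x hxn h4 with rfl | ⟨rfl, -⟩
      · exact U'.not_toward P hKL hrK hg (by rw [P.symm x r] at hgx; omega)
      · rw [P.self hr] at h1; omega
    · obtain ⟨i, rfl⟩ := Nat.exists_eq_add_of_le hxn
      rw [dext_no hgn, dext_no hr] at hgx
      by_cases hi : i = 0
      · subst hi
        rw [hphir0] at hgx
        have := hpos 0 g hgn
        omega
      · rw [hphirj i hi] at hgx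
        have h4 : phiA δ y r f i g = 1 := by omega
        rcases hphi1 i g hgn h4 with rfl | ⟨rfl, h0⟩
        · exact U'.not_both P hKL hrK hg
        · exact hi h0
  · -- collinearity
    intro x z hx hz h1
    rcases lt_or_ge x n with hxn | hxn <;> rcases lt_or_ge z n with hzn | hzn
    · rw [dext_old hxn hzn] at h1
      obtain ⟨K, hK, h⟩ := H.col x z hxn hzn h1
      exact Or.inr (Or.inr ⟨K, Or.inr hK, h⟩)
    · obtain ⟨j, rfl⟩ := Nat.exists_eq_add_of_le hzn
      rw [dext_on hxn] at h1
      rcases hphi1 j x hxn h1 with rfl | ⟨rfl, rfl⟩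
      · exact Or.inr (Or.inr ⟨_, Or.inl rfl, by rw [mem_line1]; omega, by rw [mem_line1]; omega⟩)
      · exact Or.inr (Or.inl ⟨rfl, rfl⟩)
    · obtain ⟨j, rfl⟩ := Nat.exists_eq_add_of_le hxn
      rw [dext_no hzn] at h1
      rcases hphi1 j z hzn h1 with rfl | ⟨rfl, rfl⟩
      · exact Or.inr (Or.inr ⟨_, Or.inl rfl, by rw [mem_line1]; omega, by rw [mem_line1]; omega⟩)
      · exact Or.inl ⟨rfl, rfl⟩
    · exact Or.inr (Or.inr ⟨_, Or.inl rfl, by rw [mem_line1]; omega, by rw [mem_line1]; omega⟩)

end Pool.Agent.W290.Fr
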