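import Pool.Agent.W290.FrE1

set_option autoImplicit false

/-!
# Free construction of hexagons with finite lines: joining two points by a new line
-/

namespace Pool.Agent.W290.Fr

/-- the line through `e` and `r` with `s - 1` new points -/
def line2 (n s e r : ℕ) : Finset ℕ := insert e (insert r (Finset.Ico n (n + (s - 1))))

lemma mem_line2 {n s e r u : ℕ} :
    u ∈ line2 n s e r ↔ u = e ∨ u = r ∨ (n ≤ u ∧ u < n + (s - 1)) := by
  simp [line2]

lemma line2_card {n s e r : ℕ} (hs : 1 ≤ s) (he : e < n) (hr : r < n) (her : e ≠ r) :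
    (line2 n s e r).card = s + 1 := by
  rw [line2, Finset.card_insert_of_notMem (by simp; omega),
    Finset.card_insert_of_notMem (by simp; omega), Nat.card_Ico]
  omega

/-- the distances of the new points on a new line through `e` and `r` -/
def phi2 (δ : ℕ → ℕ → ℕ) (e r : ℕ) (h : ℕ → ℕ) (j u : ℕ) : ℕ :=
  if δ e u = δ r u then (if h u = j then 2 else 3)
  else if δ e u < δ r u then δ e u + 1 else δ r u + 1

theorem color2 {s N n : ℕ} {L : Set (Finset ℕ)} {δ : ℕ → ℕ → ℕ} (H : Pre s n L δ)
    (S : Sol N n L) (hs : N + 2 ≤ s) {e r : ℕ} (he : e < n) (hr : r < n)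
    (h33 : ∀ u < n, δ e u = δ r u → δ e u = 3) :
    ∃ f : ℕ → ℕ, (∀ u < n, f u < s - 1) ∧
      ∀ K ∈ L, ∀ u ∈ K, ∀ v ∈ K, u ≠ v → δ e u = 3 → δ r u = 3 → δ e v = 3 → δ r v = 3 →
        f u ≠ f v := by
  obtain ⟨f, hf1, hf2⟩ := S (fun _ a => a < s - 1)
    (fun _ u v a b => (δ e u = 3 ∧ δ r u = 3) → (δ e v = 3 ∧ δ r v = 3) → a ≠ b) (by
    intro K hK Q hQK hQ g hg1 hg2
    obtain ⟨g', h1, h2, h3⟩ := extend_inj (by omega : 1 ≤ s - 1)
      (K.filter (fun u => δ e u = 3 ∧ δ r u = 3)) Q (by
      by_cases hex : ∃ u ∈ K, δ e u = 3 ∧ δ r u = 3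
      · obtain ⟨u, hu, hu3, hu3'⟩ := hex
        obtain ⟨a, ha, ha2, -⟩ := H.three (by omega) he hK hu hu3
        obtain ⟨b, hb, hb2, -⟩ := H.three (by omega) hr hK hu hu3'
        have hab : a ≠ b := by
          rintro rfl
          have := h33 a (H.lt K hK a ha) (by omega)
          omega
        have hsub : (K.filter (fun u => δ e u = 3 ∧ δ r u = 3)) ⊆ (K.erase a).erase b := by
          intro v hv
          simp only [Finset.mem_filter] at hv
          rw [Finset.mem_erase, Finset.mem_erase]
          refine ⟨?_, ?_, hv.1⟩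
          · rintro rfl
            omega
          · rintro rfl
            omega
        have := Finset.card_le_card hsub
        rw [Finset.card_erase_of_mem (by rw [Finset.mem_erase]; exact ⟨hab.symm, hb⟩),
          Finset.card_erase_of_mem ha, H.card K hK] at this
        omega
      · push Not at hex
        have : K.filter (fun u => δ e u = 3 ∧ δ r u = 3) = ∅ := by
          rw [Finset.filter_eq_empty_iff]
          intro u hu h
          exact hex u hu h.1 h.2
        rw [this]; simp) g hg1 (by
      intro u hu v hv hu' hv' huv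
      simp only [Finset.mem_filter] at hu' hv'
      exact hg2 u hu v hv huv hu'.2 hv'.2)
    refine ⟨g', h1, ?_, ?_⟩
    · intro u hu
      by_cases huQ : u ∈ Q
      · rw [h1 u huQ]; exact hg1 u huQ
      · exact h2 u huQ
    · intro u hu v hv huv hu3 hv3
      exact h3 u (by simp [hu, hu3]) v (by simp [hv, hv3]) huv) (by
    intro x hx Z hZ hZ' g hg
    obtain ⟨a, -, ha2, ha3⟩ := exists_color Z (fun z => g z.2) 0 (s - 1) (by omega)
    exact ⟨a, ha2, fun z hz => ⟨fun _ _ => ha3 z hz, fun _ _ => (ha3 z hz).symm⟩⟩)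
  exact ⟨f, hf1, fun K hK u hu v hv huv h3 h3' h4 h4' =>
    hf2 K hK u hu v hv huv ⟨h3, h3'⟩ ⟨h4, h4'⟩⟩

theorem stepB {s N n : ℕ} {L : Set (Finset ℕ)} {δ : ℕ → ℕ → ℕ} (H : Pre s n L δ)
    (S : Sol N n L) (hs : N + 2 ≤ s) {e r : ℕ} (he : e < n) (hr : r < n)
    (her : δ e r = 1)
    (h33 : ∀ u < n, δ e u = δ r u → δ e u = 3)
    (hd1 : ∀ u < n, δ e u ≤ δ r u + 1) (hd2 : ∀ u < n, δ r u ≤ δ e u + 1)
    (h7e : ∀ x < n, ∀ K ∈ L, e ∈ K → δ r x + 1 = δ e x → δ e x ≤ 2 →
      ∀ g ∈ K, δ x g + 1 = δ x e → False)
    (h7r : ∀ x < n, ∀ K ∈ L, r ∈ K → δ e x + 1 = δ r x → δ r x ≤ 2 →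
      ∀ g ∈ K, δ x g + 1 = δ x r → False)
    (hcol : ∀ x z, x < n → z < n → δ x z = 1 →
      (x = e ∧ z = r) ∨ (x = r ∧ z = e) ∨ ∃ K ∈ L, x ∈ K ∧ z ∈ K) :
    ∃ δ', Pre s (n + (s - 1)) (insert (line2 n s e r) L) δ' ∧
      Col (n + (s - 1)) (insert (line2 n s e r) L) δ' ∧
      ∀ x z, x < n → z < n → δ' x z = δ x z := by
  obtain ⟨f, hf1, hf2⟩ := color2 H S hs he hr h33
  have hee := H.self he
  have hrr := H.self hr
  have hre : δ r e = 1 := by rw [H.symm]; exact her
  have hner : e ≠ r := by rintro rfl; omega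
  have hle : ∀ u, u < n → δ e u ≤ 3 := fun u hu => H.le e u he hu
  have hle' : ∀ u, u < n → δ r u ≤ 3 := fun u hu => H.le r u hr hu
  have hphi1 : ∀ j, ∀ u < n, phi2 δ e r f j u = 1 → u = e ∨ u = r := by
    intro j u hu h
    unfold phi2 at h
    have h0 : δ e u = 0 ∨ δ r u = 0 := by
      split_ifs at h <;> omega
    rcases h0 with h0 | h0
    · exact Or.inl ((H.zero e u he hu).1 h0).symm
    · exact Or.inr ((H.zero r u hr hu).1 h0).symm
  have hpos : ∀ j, ∀ u < n, 1 ≤ phi2 δ e r f j u := by
    intro j u hu
    unfold phi2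
    split_ifs <;> omega
  have hle3 : ∀ j, ∀ u < n, phi2 δ e r f j u ≤ 3 := by
    intro j u hu
    have := hle u hu
    have := hle' u hu
    unfold phi2
    split_ifs <;> omega
  have hphie : ∀ j, phi2 δ e r f j e = 1 := by
    intro j; simp [phi2, hee, hre]
  have hphir : ∀ j, phi2 δ e r f j r = 1 := by
    intro j; simp [phi2, hrr, her]
  refine ⟨dext n δ (phi2 δ e r f), ?_, ?_, fun x z hx hz => dext_old hx hz⟩
  · refine H.ext1 (s - 1) (line2 n s e r) (phi2 δ e r f) (line2_card (by omega) he hr hner)
      ?_ ?_ ?_ ?_ ?_ ?_ ?_ ?_ ?_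
    · intro u hu
      rw [mem_line2] at hu
      omega
    · intro j _ u hu; exact hpos j u hu
    · intro j _ u hu; exact hle3 j u hu
    · intro j _ u hu hun
      rw [mem_line2] at hu
      rcases hu with rfl | rfl | hu
      · exact hphie j
      · exact hphir j
      · omega
    · intro j hj
      rw [mem_line2]; omega
    · -- pattern on the new line
      intro x hx
      have a1 := hle x hx
      have a2 := hle' x hx
      have a3 := h33 x hx
      have a4 := hd1 x hx
      have a5 := hd2 x hx
      rcases lt_trichotomy (δ e x) (δ r x) with hlt | heq | hlt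
      · refine ⟨e, by rw [mem_line2]; omega, ?_⟩
        intro u hu hne
        rw [mem_line2] at hu
        rcases hu with rfl | rfl | ⟨hu1, hu2⟩
        · exact absurd rfl hne
        · rw [dext_old hx hr, dext_old hx he, H.symm x, H.symm x]; omega
        · obtain ⟨j, rfl⟩ := Nat.exists_eq_add_of_le hu1
          rw [dext_on hx, dext_old hx he, H.symm x]
          unfold phi2
          rw [if_neg (by omega), if_pos hlt]
      · have hfx := hf1 x hx
        have hfv : phi2 δ e r f (f x) x = 2 := by simp [phi2, heq]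
        refine ⟨n + f x, by rw [mem_line2]; omega, ?_⟩
        intro u hu hne
        rw [mem_line2] at hu
        rw [dext_on hx, hfv]
        rcases hu with rfl | rfl | ⟨hu1, hu2⟩
        · rw [dext_old hx he, H.symm x]; exact a3 heq
        · rw [dext_old hx hr, H.symm x, ← heq]; exact a3 heq
        · obtain ⟨j, rfl⟩ := Nat.exists_eq_add_of_le hu1
          rw [dext_on hx]
          have : f x ≠ j := by rintro rfl; exact hne rfl
          simp [phi2, heq, this]
      · refine ⟨r, by rw [mem_line2]; omega, ?_⟩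
        intro u hu hne
        rw [mem_line2] at hu
        rcases hu with rfl | rfl | ⟨hu1, hu2⟩
        · rw [dext_old hx hr, dext_old hx he, H.symm x, H.symm x]; omega
        · exact absurd rfl hne
        · obtain ⟨j, rfl⟩ := Nat.exists_eq_add_of_le hu1
          rw [dext_on hx, dext_old hx hr, H.symm x]
          unfold phi2
          rw [if_neg (by omega), if_neg (by omega)]
    · -- pattern on the old lines
      intro j hj K hK
      obtain ⟨a, ha, haK⟩ := H.pat e he K hK
      obtain ⟨b, hb, hbK⟩ := H.pat r hr K hK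
      have han := H.lt K hK a ha
      have hbn := H.lt K hK b hb
      have hcard := H.card K hK
      have ha2 : δ e a ≤ 2 := by
        obtain ⟨w, hw, hwg⟩ := Finset.exists_mem_ne (by omega : 1 < K.card) a
        have h1 := haK w hw hwg
        have h2 := hle w (H.lt K hK w hw)
        omega
      have hb2 : δ r b ≤ 2 := by
        obtain ⟨w, hw, hwg⟩ := Finset.exists_mem_ne (by omega : 1 < K.card) b
        have h1 := hbK w hw hwg
        have h2 := hle' w (H.lt K hK w hw)
        omega
      by_cases hab : a = b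
      · subst hab
        refine ⟨a, ha, ?_⟩
        intro u hu hua
        have h1 := haK u hu hua
        have h2 := hbK u hu hua
        have h3 := h33 a han
        have h4 := h33 u (H.lt K hK u hu)
        unfold phi2
        rw [h1, h2]
        split_ifs <;> omega
      · have hEb := haK b hb (Ne.symm hab)
        have hRa := hbK a ha hab
        have e1 := h33 a han
        have e2 := h33 b hbn
        have e3 := hd1 a han
        have e4 := hd1 b hbn
        have e5 := hd2 a han
        have e6 := hd2 b hbn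
        have hαβ : δ e a = δ r b := by omega
        -- a third point
        obtain ⟨c, hc⟩ : ((K.erase a).erase b).Nonempty := by
          rw [← Finset.card_pos, Finset.card_erase_of_mem (by
            rw [Finset.mem_erase]; exact ⟨Ne.symm hab, hb⟩), Finset.card_erase_of_mem ha, hcard]
          omega
        rw [Finset.mem_erase, Finset.mem_erase] at hc
        obtain ⟨hcb, hca, hcK⟩ := hc
        have c1 := haK c hcK hca
        have c2 := hbK c hcK hcb
        have c3 := h33 c (H.lt K hK c hcK) (by omega)
        have hα : δ e a = 2 := by omega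
        have hβ : δ r b = 2 := by omega
        have hT : ((K.erase a).erase b).card = s - 1 := by
          rw [Finset.card_erase_of_mem (by
            rw [Finset.mem_erase]; exact ⟨Ne.symm hab, hb⟩), Finset.card_erase_of_mem ha, hcard]
          omega
        have hTv : ∀ u ∈ (K.erase a).erase b, u ∈ K ∧ δ e u = 3 ∧ δ r u = 3 := by
          intro u hu
          rw [Finset.mem_erase, Finset.mem_erase] at hu
          refine ⟨hu.2.2, ?_, ?_⟩
          · rw [haK u hu.2.2 hu.2.1, hα]
          · rw [hbK u hu.2.2 hu.1, hβ]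
        obtain ⟨u, hu, huj⟩ := surj_color hT (f := f)
          (fun u hu => hf1 u (H.lt K hK u (hTv u hu).1)) (by
            intro u hu v hv huv
            obtain ⟨p1, p2, p3⟩ := hTv u hu
            obtain ⟨q1, q2, q3⟩ := hTv v hv
            exact hf2 K hK u p1 v q1 huv p2 p3 q2 q3) hj
        obtain ⟨p1, p2, p3⟩ := hTv u hu
        have hval : phi2 δ e r f j u = 2 := by simp [phi2, p2, p3, huj]
        refine ⟨u, p1, ?_⟩
        intro v hv hvu
        rw [hval]
        by_cases hva : v = a
        · subst hva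
          simp [phi2, hα, hRa, hβ]
        · by_cases hvb : v = b
          · subst hvb
            simp [phi2, hβ, hEb, hα]
          · obtain ⟨q1, q2, q3⟩ := hTv v (by
              rw [Finset.mem_erase, Finset.mem_erase]; exact ⟨hvb, hva, hv⟩)
            have : f v ≠ j := by
              rw [← huj]
              exact hf2 K hK v q1 u p1 hvu q2 q3 p2 p3
            simp [phi2, q2, q3, this]
    · -- uniqueness for the new points
      intro j hj u hu K hK K' hK' huK huK' hle2 hgt hgt'
      have key : ∀ K ∈ L, u ∈ K → (∃ g ∈ K, phi2 δ e r f j g + 1 = phi2 δ e r f j u) →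
          (e ∈ K ∧ u ≠ e ∧ δ e u = 1) ∨ (r ∈ K ∧ u ≠ r ∧ δ r u = 1) := by
        rintro K hK huK ⟨g, hgK, hg⟩
        have hgn := H.lt K hK g hgK
        have h1 := hpos j g hgn
        have h2 : phi2 δ e r f j g = 1 := by omega
        have h3 := hphi1 j g hgn h2
        rcases h3 with rfl | rfl
        · have hne : u ≠ g := by rintro rfl; omega
          exact Or.inl ⟨hgK, hne, H.on_line hK hgK huK hne⟩
        · have hne : u ≠ g := by rintro rfl; omega
          exact Or.inr ⟨hgK, hne, H.on_line hK hgK huK hne⟩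
      have h11 : ¬ (δ e u = 1 ∧ δ r u = 1) := by
        rintro ⟨p, q⟩
        have := h33 u hu (by omega)
        omega
      rcases key K hK huK hgt with ⟨a1, a2, a3⟩ | ⟨a1, a2, a3⟩ <;>
        rcases key K' hK' huK' hgt' with ⟨b1, b2, b3⟩ | ⟨b1, b2, b3⟩
      · exact H.line_unique hK hK' huK huK' a1 b1 a2
      · exact absurd ⟨a3, b3⟩ h11
      · exact absurd ⟨b3, a3⟩ h11
      · exact H.line_unique hK hK' huK huK' a1 b1 a2
    · -- the new line and the old lines through its old points
      rintro x hx u hu hun hle2 ⟨p, hp, hpx⟩ K hK huK ⟨g, hg, hgx⟩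
      have a1 := hle x hx
      have a2 := hle' x hx
      have a3 := h33 x hx
      have a4 := hd1 x hx
      have a5 := hd2 x hx
      rw [mem_line2] at hu
      rcases hu with rfl | rfl | hu
      · -- u = e
        have hp' : δ r x + 1 = δ u x := by
          rw [mem_line2] at hp
          rw [H.symm x u] at hpx hle2
          rcases hp with rfl | rfl | ⟨hp1, hp2⟩
          · rw [dext_old hx he, H.symm x] at hpx; omega
          · rw [dext_old hx hr, H.symm x] at hpx; omega
          · obtain ⟨j, rfl⟩ := Nat.exists_eq_add_of_le hp1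
            rw [dext_on hx] at hpx
            unfold phi2 at hpx
            split_ifs at hpx <;> omega
        exact h7e x hx K hK huK hp' (by rw [H.symm]; exact hle2) g hg hgx
      · -- u = r
        have hp' : δ e x + 1 = δ u x := by
          rw [mem_line2] at hp
          rw [H.symm x u] at hpx hle2
          rcases hp with rfl | rfl | ⟨hp1, hp2⟩
          · rw [dext_old hx he, H.symm x] at hpx; omega
          · rw [dext_old hx hr, H.symm x] at hpx; omega
          · obtain ⟨j, rfl⟩ := Nat.exists_eq_add_of_le hp1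
            rw [dext_on hx] at hpx
            unfold phi2 at hpx
            split_ifs at hpx <;> omega
        exact h7r x hx K hK huK hp' (by rw [H.symm]; exact hle2) g hg hgx
      · omega
  · -- collinearity
    intro x z hx hz h1
    rcases lt_or_ge x n with hxn | hxn <;> rcases lt_or_ge z n with hzn | hzn
    · rw [dext_old hxn hzn] at h1
      rcases hcol x z hxn hzn h1 with ⟨rfl, rfl⟩ | ⟨rfl, rfl⟩ | ⟨K, hK, h⟩
      · exact ⟨_, Or.inl rfl, by rw [mem_line2]; omega, by rw [mem_line2]; omega⟩
      · exact ⟨_, Or.inl rfl, by rw [mem_line2]; omega, by rw [mem_line2]; omega⟩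
      · exact ⟨K, Or.inr hK, h⟩
    · obtain ⟨j, rfl⟩ := Nat.exists_eq_add_of_le hzn
      rw [dext_on hxn] at h1
      have := hphi1 j x hxn h1
      exact ⟨_, Or.inl rfl, by rw [mem_line2]; omega, by rw [mem_line2]; omega⟩
    · obtain ⟨j, rfl⟩ := Nat.exists_eq_add_of_le hxn
      rw [dext_no hzn] at h1
      have := hphi1 j z hzn h1
      exact ⟨_, Or.inl rfl, by rw [mem_line2]; omega, by rw [mem_line2]; omega⟩
    · exact ⟨_, Or.inl rfl, by rw [mem_line2]; omega, by rw [mem_line2]; omega⟩

end Pool.Agent.W290.Fr
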