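import Pool.Agent.W290.FrCore
import Pool.Agent.W290.FrGraph

set_option autoImplicit false

/-!
# Free construction of hexagons with finite lines: starting from a finite generalized hexagon
-/

namespace Pool.Agent.W290.Fr

open SimpleGraph Pool.Agent.W290.HexGraph

/-- the axioms of a (possibly non-thick) generalized hexagon in terms of point distances -/
structure FH {P₀ L₀ : Type} (I₀ : P₀ → L₀ → Prop) (d : P₀ → P₀ → ℕ) : Prop where
  symm : ∀ x y, d x y = d y x
  zero : ∀ x y, d x y = 0 ↔ x = y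
  le : ∀ x y, d x y ≤ 3
  pat : ∀ x K, ∃ g, I₀ g K ∧ d x g ≤ 2 ∧ ∀ u, I₀ u K → u ≠ g → d x u = d x g + 1
  uniq : ∀ x y, d x y ≤ 2 → ∀ K K', I₀ y K → I₀ y K' → (∃ g, I₀ g K ∧ d x g + 1 = d x y) →
    (∃ g, I₀ g K' ∧ d x g + 1 = d x y) → K = K'
  col : ∀ x y, d x y = 1 → ∃ K, I₀ x K ∧ I₀ y K

namespace FH

variable {P₀ L₀ : Type} {I₀ : P₀ → L₀ → Prop} {d : P₀ → P₀ → ℕ}

/-- the nearest point -/
noncomputable def gt (H : FH I₀ d) (x : P₀) (K : L₀) : P₀ := Classical.choose (H.pat x K)

/-- the distance to a line -/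
noncomputable def kap (H : FH I₀ d) (x : P₀) (K : L₀) : ℕ := d x (H.gt x K)

variable (H : FH I₀ d)

include H

lemma gt_mem (x : P₀) (K : L₀) : I₀ (H.gt x K) K := (Classical.choose_spec (H.pat x K)).1

lemma kap_le (x : P₀) (K : L₀) : H.kap x K ≤ 2 := (Classical.choose_spec (H.pat x K)).2.1

lemma val (x : P₀) (K : L₀) {u : P₀} (hu : I₀ u K) (hne : u ≠ H.gt x K) :
    d x u = H.kap x K + 1 := (Classical.choose_spec (H.pat x K)).2.2 u hu hne

lemma self (x : P₀) : d x x = 0 := (H.zero x x).2 rfl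

lemma kap_le_d (x : P₀) (K : L₀) {u : P₀} (hu : I₀ u K) : H.kap x K ≤ d x u := by
  by_cases hne : u = H.gt x K
  · rw [hne]; rfl
  · rw [H.val x K hu hne]; omega

lemma d_le_kap (x : P₀) (K : L₀) {u : P₀} (hu : I₀ u K) : d x u ≤ H.kap x K + 1 := by
  by_cases hne : u = H.gt x K
  · rw [hne]; exact Nat.le_succ _
  · rw [H.val x K hu hne]

lemma eq_gt (x : P₀) (K : L₀) {u : P₀} (hu : I₀ u K) (h : d x u = H.kap x K) :
    u = H.gt x K := by
  by_contra hne
  rw [H.val x K hu hne] at h
  omega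

lemma kap_eq_zero {x : P₀} {K : L₀} : H.kap x K = 0 ↔ I₀ x K := by
  constructor
  · intro h
    have := (H.zero x (H.gt x K)).1 h
    rw [this]; exact H.gt_mem x K
  · intro h
    have := H.kap_le_d x K h
    rw [H.self] at this
    omega

lemma on_line {x u : P₀} {K : L₀} (hx : I₀ x K) (hu : I₀ u K) (hne : u ≠ x) : d x u = 1 := by
  have h0 := (H.kap_eq_zero (x := x) (K := K)).2 hx
  have h1 := H.d_le_kap x K hu
  have h2 : d x u ≠ 0 := fun h => hne ((H.zero x u).1 h).symm
  omega

lemma line_unique {x y : P₀} {K K' : L₀} (hx : I₀ x K) (hx' : I₀ x K') (hy : I₀ y K)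
    (hy' : I₀ y K') (hne : x ≠ y) : K = K' := by
  have h1 := H.on_line hx hy hne.symm
  exact H.uniq x y (by omega) K K' hy hy' ⟨x, hx, by rw [H.self, h1]⟩
    ⟨x, hx', by rw [H.self, h1]⟩

/-- on a line not meeting `M`, at most one point is at distance one from `M` -/
lemma one_unique {K M : L₀} (hdis : ∀ p, I₀ p K → ¬ I₀ p M) {u u' : P₀} (hu : I₀ u K)
    (hu' : I₀ u' K) (h : H.kap u M = 1) (h' : H.kap u' M = 1) : u = u' := by
  by_contra hne
  have hv := H.gt_mem u M
  have hv' := H.gt_mem u' M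
  have huM : ¬ I₀ u M := hdis u hu
  have huM' : ¬ I₀ u' M := hdis u' hu'
  have h1 : d u u' = 1 := H.on_line hu hu' (Ne.symm hne)
  obtain ⟨R, hR, hR'⟩ := H.col u' (H.gt u' M) h'
  by_cases hvv : H.gt u' M = H.gt u M
  · -- a triangle
    obtain ⟨R₂, hR₂, hR₂'⟩ := H.col u (H.gt u M) h
    have hKR : K = R := by
      refine H.uniq (H.gt u M) u' (by rw [H.symm, ← hvv]; exact h'.le.trans (by omega)) K R hu' hR ?_ ?_ |>.trans rfl
      · exfalso
        -- distance from `v` to `u` and `u'` is one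
        have e1 : d (H.gt u M) u = 1 := by rw [H.symm]; exact h
        have e2 : d (H.gt u M) u' = 1 := by rw [H.symm, ← hvv]; exact h'
        obtain ⟨g, hg, hg2, hgK⟩ := H.pat (H.gt u M) K
        have hgM : g ≠ H.gt u M := by
          rintro rfl
          exact hdis _ hg hv
        have hg0 : d (H.gt u M) g ≠ 0 := fun h0 => hgM ((H.zero _ _).1 h0).symm
        by_cases hug : u = g
        · subst hug
          have := hgK u' hu' (Ne.symm hne)
          omega
        · have := hgK u hu hug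
          omega
      · exact ⟨H.gt u M, by rw [← hvv]; exact hR', by rw [H.self, H.symm, ← hvv]; exact h'.symm⟩
    exact hdis (H.gt u M) (by rw [hKR, ← hvv]; exact hR') hv
  · -- `v = gt u M`, `v' = gt u' M`, distinct; look at `v'` from `u`
    have h2 : d u (H.gt u' M) = 2 := by
      rw [H.val u M hv' hvv, h]
    have hMR : M = R := by
      refine H.uniq u (H.gt u' M) (by omega) M R hv' hR' ⟨H.gt u M, hv, ?_⟩ ⟨u', hR, ?_⟩
      · have : d u (H.gt u M) = 1 := h
        omega
      · omega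
    exact huM' (by rw [hMR]; exact hR)

/-- opposite lines have the same number of points -/
lemma opp_card {K M : L₀} (h : ∀ u v, I₀ u K → I₀ v M → 2 ≤ d u v) :
    {p | I₀ p K}.ncard = {p | I₀ p M}.ncard := by
  have h2 : ∀ u, I₀ u K → H.kap u M = 2 := by
    intro u hu
    have h1 := h u _ hu (H.gt_mem u M)
    have h3 := H.kap_le u M
    have : H.kap u M = d u (H.gt u M) := rfl
    omega
  have h2' : ∀ v, I₀ v M → H.kap v K = 2 := by
    intro v hv
    have h1 := h _ v (H.gt_mem v K) hv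
    have h3 := H.kap_le v K
    have : H.kap v K = d v (H.gt v K) := rfl
    rw [H.symm] at h1
    omega
  refine Set.ncard_congr (fun u _ => H.gt u M) (fun u _ => H.gt_mem u M) ?_ ?_
  · intro u u' hu hu' he
    have he : H.gt u M = H.gt u' M := he
    have e1 : d (H.gt u M) u = 2 := by rw [H.symm]; exact h2 u hu
    have e2 : d (H.gt u M) u' = 2 := by rw [H.symm, he]; exact h2 u' hu'
    have e3 := h2' (H.gt u M) (H.gt_mem u M)
    rw [H.eq_gt (H.gt u M) K hu (by omega), H.eq_gt (H.gt u M) K hu' (by omega)]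
  · intro v hv
    refine ⟨H.gt v K, H.gt_mem v K, ?_⟩
    have e1 : d (H.gt v K) v = 2 := by rw [H.symm]; exact h2' v hv
    have e2 := h2 (H.gt v K) (H.gt_mem v K)
    exact (H.eq_gt (H.gt v K) M hv (by omega)).symm

end FH

section enlarge

variable {P₀ L₀ : Type} (I₀ : P₀ → L₀ → Prop) (s : ℕ)

/-- the enlarged point set: every line gets new points so that it has `s + 1` points -/
def XX : Type := {x : P₀ ⊕ (L₀ × Fin (s + 1)) //
  ∀ K j, x = Sum.inr (K, j) → {p | I₀ p K}.ncard ≤ j.val}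

/-- incidence of enlarged points and lines -/
def XXon (x : XX I₀ s) (K : L₀) : Prop :=
  match x.1 with
  | Sum.inl p => I₀ p K
  | Sum.inr (K', _) => K' = K

variable {I₀ s}

/-- old points -/
def XXold (s : ℕ) (p : P₀) : XX I₀ s := ⟨Sum.inl p, by intro K j h; exact absurd h (by simp)⟩

/-- new points -/
def XXnew (K : L₀) (j : Fin (s + 1)) (h : {p | I₀ p K}.ncard ≤ j.val) : XX I₀ s :=
  ⟨Sum.inr (K, j), by
    intro K' j' h'
    simp only [Sum.inr.injEq, Prod.mk.injEq] at h'
    rw [← h'.1, ← h'.2]; exact h⟩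

lemma XX.cases (x : XX I₀ s) : (∃ p, x = XXold s p) ∨ ∃ K j h, x = XXnew K j h := by
  obtain ⟨x, hx⟩ := x
  rcases x with p | ⟨K, j⟩
  · exact Or.inl ⟨p, rfl⟩
  · exact Or.inr ⟨K, j, hx K j rfl, rfl⟩

@[simp] lemma XXon_old {p : P₀} {K : L₀} : XXon I₀ s (XXold s p) K ↔ I₀ p K := Iff.rfl

@[simp] lemma XXon_new {K' : L₀} {j : Fin (s + 1)} {h} {K : L₀} :
    XXon I₀ s (XXnew K' j h) K ↔ K' = K := Iff.rfl

lemma XXold_inj {p q : P₀} : (XXold s p : XX I₀ s) = XXold s q ↔ p = q := by
  constructor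
  · intro h
    have := congrArg Subtype.val h
    exact Sum.inl_injective this
  · rintro rfl; rfl

lemma XXnew_inj {K K' : L₀} {j j' : Fin (s + 1)} {h : {p | I₀ p K}.ncard ≤ j.val}
    {h' : {p | I₀ p K'}.ncard ≤ j'.val} : XXnew K j h = XXnew K' j' h' ↔ K = K' ∧ j = j' := by
  constructor
  · intro he
    have := Sum.inr_injective (congrArg Subtype.val he)
    exact Prod.mk.inj this
  · rintro ⟨rfl, rfl⟩; rfl

lemma XXold_ne_new {p : P₀} {K : L₀} {j : Fin (s + 1)} {h : {p | I₀ p K}.ncard ≤ j.val} :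
    (XXold s p : XX I₀ s) ≠ XXnew K j h := by
  intro he
  have := congrArg Subtype.val he
  exact absurd this (by simp [XXold, XXnew])

instance [Finite P₀] [Finite L₀] : Finite (XX I₀ s) := by
  unfold XX; infer_instance

variable {d : P₀ → P₀ → ℕ}

open Classical in
/-- distances between new points -/
noncomputable def DDnn (I₀ : P₀ → L₀ → Prop) (d : P₀ → P₀ → ℕ) (s : ℕ) (K : L₀) (j : Fin (s + 1))
    (K' : L₀) (j' : Fin (s + 1)) : ℕ :=
  if K = K' then (if j = j' then 0 else 1)
  else if ∃ p, I₀ p K ∧ I₀ p K' then 2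
  else if ∃ u v, I₀ u K ∧ I₀ v K' ∧ d u v = 1 then 3
  else if j = j' then 2 else 3

/-- distances between enlarged points -/
noncomputable def DD (H : FH I₀ d) (s : ℕ) (x y : XX I₀ s) : ℕ :=
  match x.1, y.1 with
  | Sum.inl p, Sum.inl q => d p q
  | Sum.inl p, Sum.inr (K, _) => H.kap p K + 1
  | Sum.inr (K, _), Sum.inl p => H.kap p K + 1
  | Sum.inr (K, j), Sum.inr (K', j') => DDnn I₀ d s K j K' j'

lemma DD_oo (H : FH I₀ d) {p q : P₀} : DD H s (XXold s p) (XXold s q) = d p q := rfl

lemma DD_on (H : FH I₀ d) {p : P₀} {K : L₀} {j : Fin (s + 1)} {h} :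
    DD H s (XXold s p) (XXnew K j h) = H.kap p K + 1 := rfl

lemma DD_no (H : FH I₀ d) {p : P₀} {K : L₀} {j : Fin (s + 1)} {h} :
    DD H s (XXnew K j h) (XXold s p) = H.kap p K + 1 := rfl

lemma DD_nn (H : FH I₀ d) {K K' : L₀} {j j' : Fin (s + 1)} {h h'} :
    DD H s (XXnew K j h) (XXnew K' j' h') = DDnn I₀ d s K j K' j' := rfl

lemma DDnn_symm (H : FH I₀ d) (K K' : L₀) (j j' : Fin (s + 1)) :
    DDnn I₀ d s K j K' j' = DDnn I₀ d s K' j' K j := by
  classical
  unfold DDnn
  have e1 : (K = K') ↔ (K' = K) := eq_comm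
  have e2 : (j = j') ↔ (j' = j) := eq_comm
  have e3 : (∃ p, I₀ p K ∧ I₀ p K') ↔ (∃ p, I₀ p K' ∧ I₀ p K) :=
    ⟨fun ⟨p, h⟩ => ⟨p, h.2, h.1⟩, fun ⟨p, h⟩ => ⟨p, h.2, h.1⟩⟩
  have e4 : (∃ u v, I₀ u K ∧ I₀ v K' ∧ d u v = 1) ↔ (∃ u v, I₀ u K' ∧ I₀ v K ∧ d u v = 1) :=
    ⟨fun ⟨u, v, h⟩ => ⟨v, u, h.2.1, h.1, by rw [H.symm]; exact h.2.2⟩,
      fun ⟨u, v, h⟩ => ⟨v, u, h.2.1, h.1, by rw [H.symm]; exact h.2.2⟩⟩
  exact if_congr e1 (if_congr e2 rfl rfl) (if_congr e3 rfl (if_congr e4 rfl (if_congr e2 rfl rfl)))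

lemma DDnn_meet {K K' : L₀} {j j' : Fin (s + 1)} (h1 : K ≠ K') (h2 : ∃ p, I₀ p K ∧ I₀ p K') :
    DDnn I₀ d s K j K' j' = 2 := by
  rw [DDnn, if_neg h1, if_pos h2]

lemma DDnn_near {K K' : L₀} {j j' : Fin (s + 1)} (h1 : K ≠ K') (h2 : ¬ ∃ p, I₀ p K ∧ I₀ p K')
    (h3 : ∃ u v, I₀ u K ∧ I₀ v K' ∧ d u v = 1) : DDnn I₀ d s K j K' j' = 3 := by
  rw [DDnn, if_neg h1, if_neg h2, if_pos h3]

lemma DDnn_opp {K K' : L₀} {j j' : Fin (s + 1)} (h1 : K ≠ K') (h2 : ¬ ∃ p, I₀ p K ∧ I₀ p K')
    (h3 : ¬ ∃ u v, I₀ u K ∧ I₀ v K' ∧ d u v = 1) (h4 : j = j') :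
    DDnn I₀ d s K j K' j' = 2 := by
  rw [DDnn, if_neg h1, if_neg h2, if_neg h3, if_pos h4]

lemma DDnn_opp_ne {K K' : L₀} {j j' : Fin (s + 1)} (h1 : K ≠ K') (h2 : ¬ ∃ p, I₀ p K ∧ I₀ p K')
    (h3 : ¬ ∃ u v, I₀ u K ∧ I₀ v K' ∧ d u v = 1) (h4 : j ≠ j') :
    DDnn I₀ d s K j K' j' = 3 := by
  rw [DDnn, if_neg h1, if_neg h2, if_neg h3, if_neg h4]

theorem preX [Finite P₀] [Finite L₀] (H : FH I₀ d) (hs : ∀ K, {p | I₀ p K}.ncard ≤ s) :
    PreX s (XXon I₀ s) (DD H s) := by
  classical
  refine ⟨?_, ?_, ?_, ?_, ?_, ?_, ?_⟩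
  · -- the number of points on a line
    intro K
    have hfin : {p | I₀ p K}.Finite := Set.toFinite _
    have e : {p // I₀ p K} ≃ Fin ({p | I₀ p K}.ncard) := by
      have h1 : Nat.card {p // I₀ p K} = {p | I₀ p K}.ncard := rfl
      exact Finite.equivFinOfCardEq h1
    have hle := hs K
    let F : {x : XX I₀ s // XXon I₀ s x K} → Fin (s + 1) := fun x =>
      match x with
      | ⟨⟨Sum.inl p, _⟩, h⟩ => ⟨(e ⟨p, h⟩).val, by have := (e ⟨p, h⟩).2; omega⟩
      | ⟨⟨Sum.inr (_, j), _⟩, _⟩ => j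
    have hF : Function.Bijective F := by
      constructor
      · rintro ⟨⟨x, hx⟩, hxK⟩ ⟨⟨y, hy⟩, hyK⟩ hxy
        rcases x with p | ⟨M, j⟩ <;> rcases y with q | ⟨M', j'⟩
        · simp only [F, Fin.mk.injEq] at hxy
          have := e.injective (Fin.ext hxy)
          have hpq : p = q := congrArg Subtype.val this
          subst hpq; rfl
        · exfalso
          have h1 := hy M' j' rfl
          have h2 : M' = K := hyK
          subst h2
          have h3 := (e ⟨p, hxK⟩).2
          have h4 := congrArg Fin.val hxy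
          simp only [F] at h4
          omega
        · exfalso
          have h1 := hx M j rfl
          have h2 : M = K := hxK
          subst h2
          have h3 := (e ⟨q, hyK⟩).2
          have h4 := congrArg Fin.val hxy
          simp only [F] at h4
          omega
        · have h1 : M = K := hxK
          have h2 : M' = K := hyK
          simp only [F] at hxy
          subst h1 h2 hxy
          rfl
      · intro j
        by_cases hj : j.val < {p | I₀ p K}.ncard
        · refine ⟨⟨⟨Sum.inl (e.symm ⟨j.val, hj⟩).1, by intro K' j' h; exact absurd h (by simp)⟩,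
            (e.symm ⟨j.val, hj⟩).2⟩, ?_⟩
          simp [F]
        · exact ⟨⟨XXnew K j (by omega), rfl⟩, rfl⟩
    have h1 : {x : XX I₀ s | XXon I₀ s x K}.ncard = Nat.card {x : XX I₀ s // XXon I₀ s x K} := rfl
    rw [h1, Nat.card_eq_of_bijective F hF, Nat.card_eq_fintype_card, Fintype.card_fin]
  · intro x y
    rcases XX.cases x with ⟨p, rfl⟩ | ⟨K, j, h, rfl⟩ <;>
      rcases XX.cases y with ⟨q, rfl⟩ | ⟨K', j', h', rfl⟩
    · exact H.symm p q
    · rfl
    · rfl
    · exact DDnn_symm H K K' j j'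
  · intro x y
    rcases XX.cases x with ⟨p, rfl⟩ | ⟨K, j, h, rfl⟩ <;>
      rcases XX.cases y with ⟨q, rfl⟩ | ⟨K', j', h', rfl⟩
    · rw [DD_oo, H.zero, XXold_inj]
    · rw [DD_on]
      exact ⟨fun h => by omega, fun h => absurd h XXold_ne_new⟩
    · rw [DD_no]
      exact ⟨fun h => by omega, fun h => absurd h.symm XXold_ne_new⟩
    · rw [DD_nn, XXnew_inj]
      unfold DDnn
      split_ifs with h1 h2 h3 h4 h5 <;> simp_all
  · intro x y
    rcases XX.cases x with ⟨p, rfl⟩ | ⟨K, j, h, rfl⟩ <;>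
      rcases XX.cases y with ⟨q, rfl⟩ | ⟨K', j', h', rfl⟩
    · exact H.le p q
    · rw [DD_on]; have := H.kap_le p K'; omega
    · rw [DD_no]; have := H.kap_le q K; omega
    · rw [DD_nn]
      unfold DDnn
      split_ifs <;> omega
  · -- pattern
    intro x K
    rcases XX.cases x with ⟨p, rfl⟩ | ⟨M, j, h, rfl⟩
    · refine ⟨XXold s (H.gt p K), H.gt_mem p K, ?_⟩
      intro u hu hne
      rcases XX.cases u with ⟨q, rfl⟩ | ⟨K', j', h', rfl⟩
      · rw [DD_oo, DD_oo]
        exact H.val p K hu (fun h => hne (by rw [h]))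
      · have : K' = K := hu
        subst this
        rw [DD_oo, DD_on]; rfl
    · by_cases hMK : M = K
      · subst hMK
        refine ⟨XXnew M j h, rfl, ?_⟩
        intro u hu hne
        rcases XX.cases u with ⟨q, rfl⟩ | ⟨K', j', h', rfl⟩
        · rw [DD_no, DD_nn, H.kap_eq_zero.2 hu]
          simp [DDnn]
        · have : K' = M := hu
          subst this
          rw [DD_nn, DD_nn]
          have hjj : j ≠ j' := fun he => hne (by rw [XXnew_inj]; exact ⟨rfl, he.symm⟩)
          simp [DDnn, hjj]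
      · by_cases hmeet : ∃ p, I₀ p M ∧ I₀ p K
        · obtain ⟨p, hpM, hpK⟩ := hmeet
          refine ⟨XXold s p, hpK, ?_⟩
          intro u hu hne
          rw [DD_no, H.kap_eq_zero.2 hpM]
          rcases XX.cases u with ⟨q, rfl⟩ | ⟨K', j', h', rfl⟩
          · have hqp : q ≠ p := fun h => hne (by rw [h])
            have hqM : ¬ I₀ q M := fun hq => hMK (H.line_unique hpM hpK hq hu hqp.symm)
            have e1 : H.kap q M ≠ 0 := fun h => hqM (H.kap_eq_zero.1 h)
            have e2 := H.kap_le_d q M hpM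
            rw [H.on_line hu hpK hqp.symm] at e2
            rw [DD_no]; omega
          · have : K' = K := hu
            subst this
            rw [DD_nn, DDnn_meet hMK ⟨p, hpM, hpK⟩]
        · have hdis : ∀ p, I₀ p K → ¬ I₀ p M := fun p h1 h2 => hmeet ⟨p, h2, h1⟩
          by_cases hone : ∃ u v, I₀ u M ∧ I₀ v K ∧ d u v = 1
          · obtain ⟨u, v, huM, hvK, huv⟩ := hone
            have hkv : H.kap v M = 1 := by
              have e1 := H.kap_le_d v M huM
              rw [H.symm, huv] at e1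
              have e2 : H.kap v M ≠ 0 := fun h => hdis v hvK (H.kap_eq_zero.1 h)
              omega
            refine ⟨XXold s v, hvK, ?_⟩
            intro w hw hne
            rw [DD_no, hkv]
            rcases XX.cases w with ⟨q, rfl⟩ | ⟨K', j', h', rfl⟩
            · have hqv : q ≠ v := fun h => hne (by rw [h])
              have e0 : H.kap q M ≠ 0 := fun h => hdis q hw (H.kap_eq_zero.1 h)
              have e1 : H.kap q M ≠ 1 := fun h => hqv (H.one_unique hdis hw hvK h hkv)
              have e2 := H.kap_le q M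
              rw [DD_no]; omega
            · have : K' = K := hw
              subst this
              rw [DD_nn, DDnn_near hMK hmeet ⟨u, v, huM, hvK, huv⟩]
          · have hfar : ∀ u v, I₀ u M → I₀ v K → 2 ≤ d u v := by
              intro u v hu hv
              by_contra hlt
              have h0 : d u v ≠ 0 := fun h => by
                have := (H.zero u v).1 h
                subst this
                exact hdis u hv hu
              exact hone ⟨u, v, hu, hv, by omega⟩
            have hcard := H.opp_card hfar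
            refine ⟨XXnew K j (by rw [← hcard]; exact h), rfl, ?_⟩
            intro w hw hne
            have hval : DD H s (XXnew M j h) (XXnew K j (by rw [← hcard]; exact h)) = 2 := by
              rw [DD_nn, DDnn_opp hMK hmeet hone rfl]
            rw [hval]
            rcases XX.cases w with ⟨q, rfl⟩ | ⟨K', j', h', rfl⟩
            · have e1 := hfar _ q (H.gt_mem q M) hw
              have e2 := H.kap_le q M
              have e3 : H.kap q M = d q (H.gt q M) := rfl
              rw [H.symm] at e1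
              rw [DD_no]; omega
            · have : K' = K := hw
              subst this
              have hjj : j ≠ j' := fun he => hne (by rw [XXnew_inj]; exact ⟨rfl, he.symm⟩)
              rw [DD_nn, DDnn_opp_ne hMK hmeet hone hjj]
  · -- uniqueness
    intro x y hle K K' hyK hyK' hg hg'
    rcases XX.cases y with ⟨b, rfl⟩ | ⟨M, j, h, rfl⟩
    · rcases XX.cases x with ⟨a, rfl⟩ | ⟨M, j, h, rfl⟩
      · rw [DD_oo] at hle hg hg'
        have key : ∀ K, I₀ b K → (∃ g, XXon I₀ s g K ∧ DD H s (XXold s a) g + 1 = d a b) →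
            ∃ g, I₀ g K ∧ d a g + 1 = d a b := by
          rintro K hb ⟨g, hgK, hg⟩
          rcases XX.cases g with ⟨c, rfl⟩ | ⟨M, i, hi, rfl⟩
          · exact ⟨c, hgK, hg⟩
          · exfalso
            have : M = K := hgK
            subst this
            rw [DD_on] at hg
            have := H.d_le_kap a M hb
            omega
        exact H.uniq a b hle K K' hyK hyK' (key K hyK hg) (key K' hyK' hg')
      · rw [DD_no] at hle hg hg'
        have key : ∀ K, I₀ b K → (∃ g, XXon I₀ s g K ∧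
            DD H s (XXnew M j h) g + 1 = H.kap b M + 1) →
            (H.kap b M = 0 ∧ K = M) ∨ (H.kap b M = 1 ∧ I₀ (H.gt b M) K) := by
          rintro K hb ⟨g, hgK, hg⟩
          rcases XX.cases g with ⟨c, rfl⟩ | ⟨R, i, hi, rfl⟩
          · rw [DD_no] at hg
            have hc0 : H.kap c M = 0 := by omega
            have hb1 : H.kap b M = 1 := by omega
            have hcM := H.kap_eq_zero.1 hc0
            have hbc : c ≠ b := by rintro rfl; omega
            have h1 := H.on_line hb hgK hbc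
            right
            refine ⟨hb1, ?_⟩
            rw [← H.eq_gt b M hcM (by rw [h1, hb1])]
            exact hgK
          · have : R = K := hgK
            subst this
            rw [DD_nn] at hg
            left
            by_cases hMR : M = R
            · subst hMR
              exact ⟨H.kap_eq_zero.2 hb, rfl⟩
            · exfalso
              unfold DDnn at hg
              rw [if_neg hMR] at hg
              split_ifs at hg <;> omega
        rcases key K hyK hg with ⟨a1, a2⟩ | ⟨a1, a2⟩ <;>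
          rcases key K' hyK' hg' with ⟨b1, b2⟩ | ⟨b1, b2⟩
        · rw [a2, b2]
        · omega
        · omega
        · refine H.line_unique hyK hyK' a2 b2 ?_
          rintro he
          have : H.kap b M = d b (H.gt b M) := rfl
          rw [← he, H.self] at this
          omega
    · have h1 : M = K := hyK
      have h2 : M = K' := hyK'
      rw [← h1, ← h2]
  · intro x y h1
    rcases XX.cases x with ⟨p, rfl⟩ | ⟨K, j, h, rfl⟩ <;>
      rcases XX.cases y with ⟨q, rfl⟩ | ⟨K', j', h', rfl⟩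
    · exact H.col p q h1
    · rw [DD_on] at h1
      exact ⟨K', H.kap_eq_zero.1 (by omega), rfl⟩
    · rw [DD_no] at h1
      exact ⟨K, rfl, H.kap_eq_zero.1 (by omega)⟩
    · rw [DD_nn] at h1
      unfold DDnn at h1
      split_ifs at h1 with h2 h3 <;> try omega
      exact ⟨K, rfl, h2.symm⟩

end enlarge

theorem FH.embed {P₀ L₀ : Type} {I₀ : P₀ → L₀ → Prop} {d : P₀ → P₀ → ℕ} [Finite P₀] [Finite L₀]
    [Nonempty P₀] (H : FH I₀ d) {s : ℕ} (hs : Nat.card P₀ + 4 ≤ s) :
    ∃ (L : Set (Finset ℕ)) (δ : ℕ → ℕ → ℕ), Lim s L δ ∧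
      ∃ (φ : P₀ → ℕ) (ψ : L₀ → {K // K ∈ L}), Function.Injective φ ∧ Function.Injective ψ ∧
        ∀ p K, inc L (φ p) (ψ K) ↔ I₀ p K := by
  classical
  have hcard : ∀ K, {p | I₀ p K}.ncard ≤ s := by
    intro K
    have := Set.ncard_le_card {p | I₀ p K}
    omega
  have : Nonempty (XX I₀ s) := ⟨XXold s (Classical.arbitrary P₀)⟩
  obtain ⟨T, φ, ψ, h0, hφ, hlt, hψL, hon, -⟩ := (preX H hcard).state (N := Nat.card P₀ + 2)
    (Set.range (XXold s)) (by
      have h1 : (Set.range (XXold s : P₀ → XX I₀ s)).ncard ≤ Nat.card P₀ := by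
        rw [← Set.image_univ]
        refine (Set.ncard_image_le (Set.toFinite _)).trans ?_
        rw [Set.ncard_univ]
      omega) (by
      intro x hx K K' hK hK'
      rcases XX.cases x with ⟨p, rfl⟩ | ⟨M, j, h, rfl⟩
      · exact absurd ⟨p, rfl⟩ hx
      · have h1 : M = K := hK
        have h2 : M = K' := hK'
        rw [← h1, ← h2])
  obtain ⟨L, δ, HL, hsub, -⟩ := T.exists_lim (by omega) (by omega) h0
  refine ⟨L, δ, HL, fun p => φ (XXold s p), fun K => ⟨ψ K, hsub (hψL K)⟩, ?_, ?_, ?_⟩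
  · intro p q h
    exact XXold_inj.1 (hφ h)
  · intro K K' h
    have h1 : ψ K = ψ K' := congrArg Subtype.val h
    have h2 : φ (XXnew K (Fin.last s) (hcard K)) ∈ ψ K := (hon _ _).2 rfl
    rw [h1, hon] at h2
    exact h2
  · intro p K
    exact hon _ _

end Pool.Agent.W290.Fr
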