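import Pool.Agent.W290.FrLimit

set_option autoImplicit false

/-!
# Free construction of hexagons with finite lines: starting states with a small core
-/

namespace Pool.Agent.W290.Fr

/-- if all points outside a small set are on one line only, all constraint systems are solvable -/
theorem Pre.sol_core {s N n : ℕ} {L : Set (Finset ℕ)} {δ : ℕ → ℕ → ℕ} (H : Pre s n L δ)
    (A : Finset ℕ) (hA : A.card ≤ N) (hAn : ∀ u ∈ A, u < n)
    (hu : ∀ u < n, u ∉ A → ∀ K ∈ L, ∀ K' ∈ L, u ∈ K → u ∈ K' → K = K') : Sol N n L := by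
  classical
  intro V C hcomp hfree
  -- solve on the core
  have core : ∀ B : Finset ℕ, B ⊆ A → ∃ f : ℕ → ℕ, (∀ u ∈ B, V u (f u)) ∧
      ∀ K ∈ L, ∀ u ∈ K, ∀ v ∈ K, u ∈ B → v ∈ B → u ≠ v → C K u v (f u) (f v) := by
    intro B
    induction B using Finset.induction_on with
    | empty => intro _; exact ⟨fun _ => 0, by simp, by simp⟩
    | insert x B hxB ih =>
      intro hB
      obtain ⟨f, hf1, hf2⟩ := ih (fun u hu => hB (Finset.mem_insert_of_mem hu))
      have hxA : x ∈ A := hB (Finset.mem_insert_self _ _)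
      have hxn := hAn x hxA
      -- the lines joining `x` to earlier points
      obtain ⟨B', hB'1, hB'2⟩ : ∃ B' : Finset ℕ, B' ⊆ B ∧
          ∀ u, u ∈ B' ↔ u ∈ B ∧ ∃ K ∈ L, x ∈ K ∧ u ∈ K :=
        ⟨B.filter (fun u => ∃ K ∈ L, x ∈ K ∧ u ∈ K), Finset.filter_subset _ _,
          fun u => Finset.mem_filter⟩
      have hB' : ∀ u ∈ B', ∃ K ∈ L, x ∈ K ∧ u ∈ K := fun u hu => ((hB'2 u).1 hu).2
      obtain ⟨ln, hln⟩ : ∃ ln : ℕ → Finset ℕ, ∀ u, (∃ K ∈ L, x ∈ K ∧ u ∈ K) →
          ln u ∈ L ∧ x ∈ ln u ∧ u ∈ ln u := by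
        refine ⟨fun u => if h : ∃ K ∈ L, x ∈ K ∧ u ∈ K then h.choose else ∅, ?_⟩
        intro u h
        simp only [h, dite_true]
        exact h.choose_spec
      obtain ⟨a, ha1, ha2⟩ := hfree x hxn (B'.image (fun u => (ln u, u))) (by
          refine Finset.card_image_le.trans ((Finset.card_le_card hB'1).trans ?_)
          exact (Finset.card_le_card (fun u hu => hB (Finset.mem_insert_of_mem hu))).trans hA) (by
          intro z hz
          simp only [Finset.mem_image] at hz
          obtain ⟨u, hu, rfl⟩ := hz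
          obtain ⟨h1, h2, h3⟩ := hln u (hB' u hu)
          refine ⟨h1, h2, h3, ?_⟩
          rintro rfl
          exact hxB (hB'1 hu)) f (by
          intro z hz
          simp only [Finset.mem_image] at hz
          obtain ⟨u, hu, rfl⟩ := hz
          exact hf1 u (hB'1 hu))
      refine ⟨Function.update f x a, ?_, ?_⟩
      · intro u hu
        by_cases hux : u = x
        · subst hux; simpa using ha1
        · rw [Function.update_of_ne hux]
          exact hf1 u ((Finset.mem_insert.1 hu).resolve_left hux)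
      · have key : ∀ K ∈ L, x ∈ K → ∀ u ∈ K, u ∈ B → u ≠ x →
            C K x u a (f u) ∧ C K u x (f u) a := by
          intro K hK hxK u huK huB hux
          obtain ⟨h1, h2, h3⟩ := hln u ⟨K, hK, hxK, huK⟩
          have hKl : ln u = K := H.line_unique h1 hK h3 huK h2 hxK hux
          have := ha2 (ln u, u) (Finset.mem_image_of_mem _ ((hB'2 u).2
            ⟨huB, K, hK, hxK, huK⟩))
          rw [hKl] at this
          exact this
        intro K hK u huK v hvK huB hvB huv
        by_cases hux : u = x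
        · subst hux
          have hvx : v ≠ u := huv.symm
          rw [Function.update_self, Function.update_of_ne hvx]
          exact (key K hK huK v hvK ((Finset.mem_insert.1 hvB).resolve_left hvx) hvx).1
        · by_cases hvx : v = x
          · subst hvx
            rw [Function.update_self, Function.update_of_ne hux]
            exact (key K hK hvK u huK ((Finset.mem_insert.1 huB).resolve_left hux) hux).2
          · rw [Function.update_of_ne hux, Function.update_of_ne hvx]
            exact hf2 K hK u huK v hvK ((Finset.mem_insert.1 huB).resolve_left hux)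
              ((Finset.mem_insert.1 hvB).resolve_left hvx) huv
  obtain ⟨f, hf1, hf2⟩ := core A subset_rfl
  -- complete every line
  have hline : ∀ K : {K // K ∈ L}, ∃ g' : ℕ → ℕ, (∀ u ∈ K.1 ∩ A, g' u = f u) ∧
      (∀ u ∈ K.1, V u (g' u)) ∧ ∀ u ∈ K.1, ∀ v ∈ K.1, u ≠ v → C K.1 u v (g' u) (g' v) := by
    intro K
    refine hcomp K.1 K.2 (K.1 ∩ A) Finset.inter_subset_left
      ((Finset.card_le_card Finset.inter_subset_right).trans hA) f ?_ ?_
    · intro u hu
      exact hf1 u (Finset.mem_inter.1 hu).2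
    · intro u hu v hv huv
      rw [Finset.mem_inter] at hu hv
      exact hf2 K.1 K.2 u hu.1 v hv.1 hu.2 hv.2 huv
  choose G hG1 hG2 hG3 using hline
  have hsingle : ∀ u : ℕ, u < n → ∃ a, V u a := by
    intro u hun
    obtain ⟨a, ha, -⟩ := hfree u hun ∅ (by simp) (by simp) (fun _ => 0) (by simp)
    exact ⟨a, ha⟩
  let F : ℕ → ℕ := fun u => if u ∈ A then f u else
    if h : ∃ K ∈ L, u ∈ K then G ⟨h.choose, h.choose_spec.1⟩ u else
    if h' : u < n then (hsingle u h').choose else 0
  have hFK : ∀ K (hK : K ∈ L), ∀ u ∈ K, F u = G ⟨K, hK⟩ u := by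
    intro K hK u huK
    by_cases huA : u ∈ A
    · simp only [F, huA, if_true]
      exact (hG1 ⟨K, hK⟩ u (Finset.mem_inter.2 ⟨huK, huA⟩)).symm
    · have h : ∃ K ∈ L, u ∈ K := ⟨K, hK, huK⟩
      have hKK : h.choose = K :=
        hu u (H.lt K hK u huK) huA _ h.choose_spec.1 K hK h.choose_spec.2 huK
      simp only [F, huA, if_false, h, dite_true]
      congr 2
  refine ⟨F, ?_, ?_⟩
  · intro u hun
    by_cases h : ∃ K ∈ L, u ∈ K
    · obtain ⟨K, hK, huK⟩ := h
      rw [hFK K hK u huK]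
      exact hG2 ⟨K, hK⟩ u huK
    · by_cases huA : u ∈ A
      · simp only [F, huA, if_true]
        exact hf1 u huA
      · simp only [F, huA, if_false, h, dite_false, hun, dite_true]
        exact (hsingle u hun).choose_spec
  · intro K hK u hu v hv huv
    rw [hFK K hK u hu, hFK K hK v hv]
    exact hG3 ⟨K, hK⟩ u hu v hv huv

/-- a finite geometry on an abstract type, with all lines of the same size -/
structure PreX {X M : Type} (s : ℕ) (on : X → M → Prop) (D : X → X → ℕ) : Prop where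
  card : ∀ K, {x | on x K}.ncard = s + 1
  symm : ∀ x y, D x y = D y x
  zero : ∀ x y, D x y = 0 ↔ x = y
  le : ∀ x y, D x y ≤ 3
  pat : ∀ x K, ∃ g, on g K ∧ ∀ u, on u K → u ≠ g → D x u = D x g + 1
  uniq : ∀ x y, D x y ≤ 2 → ∀ K K', on y K → on y K' →
    (∃ g, on g K ∧ D x g + 1 = D x y) → (∃ g, on g K' ∧ D x g + 1 = D x y) → K = K'
  col : ∀ x y, D x y = 1 → ∃ K, on x K ∧ on y K

theorem PreX.state {X M : Type} [Finite X] [Nonempty X] {s N : ℕ} {on : X → M → Prop}
    {D : X → X → ℕ} (H : PreX s on D) (A : Set X) (hA : A.ncard ≤ N)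
    (hu : ∀ x, x ∉ A → ∀ K K', on x K → on x K' → K = K') :
    ∃ (T : State s N) (φ : X → ℕ) (ψ : M → Finset ℕ), 0 < T.n ∧ Function.Injective φ ∧
      (∀ x, φ x < T.n) ∧ (∀ K, ψ K ∈ T.L) ∧ (∀ x K, φ x ∈ ψ K ↔ on x K) ∧
      (∀ x y, T.δ (φ x) (φ y) = D x y) := by
  classical
  have := Fintype.ofFinite X
  let e := Fintype.equivFin X
  let φ : X → ℕ := fun x => (e x).val
  have hφ : Function.Injective φ := fun x y h => e.injective (Fin.ext h)
  have hlt : ∀ x, φ x < Fintype.card X := fun x => (e x).2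
  have hsur : ∀ i, i < Fintype.card X → ∃ x, φ x = i := fun i hi =>
    ⟨e.symm ⟨i, hi⟩, by simp [φ]⟩
  let ψ : M → Finset ℕ := fun K => (Finset.univ.filter (fun x => on x K)).image φ
  have hψ : ∀ x K, φ x ∈ ψ K ↔ on x K := by
    intro x K
    simp only [ψ, Finset.mem_image, Finset.mem_filter, Finset.mem_univ, true_and]
    constructor
    · rintro ⟨y, hy, hxy⟩
      rw [← hφ hxy]; exact hy
    · intro h
      exact ⟨x, h, rfl⟩
  have hψ' : ∀ i K, i ∈ ψ K → ∃ x, on x K ∧ φ x = i := by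
    intro i K hi
    simp only [ψ, Finset.mem_image, Finset.mem_filter, Finset.mem_univ, true_and] at hi
    exact hi
  let δ : ℕ → ℕ → ℕ := fun i j =>
    if h : i < Fintype.card X ∧ j < Fintype.card X then D (e.symm ⟨i, h.1⟩) (e.symm ⟨j, h.2⟩)
    else 0
  have hδ : ∀ x y, δ (φ x) (φ y) = D x y := by
    intro x y
    have h : φ x < Fintype.card X ∧ φ y < Fintype.card X := ⟨hlt x, hlt y⟩
    simp only [δ, h, and_self, dite_true]
    simp [φ]
  have P : Pre s (Fintype.card X) (Set.range ψ) δ := by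
    refine ⟨?_, ?_, ?_, ?_, ?_, ?_, ?_⟩
    · rintro _ ⟨K, rfl⟩ i hi
      obtain ⟨x, -, rfl⟩ := hψ' i K hi
      exact hlt x
    · rintro _ ⟨K, rfl⟩
      have h1 : (ψ K).card = (Finset.univ.filter (fun x => on x K)).card :=
        Finset.card_image_of_injective _ hφ
      rw [h1, ← H.card K, Set.ncard_eq_toFinset_card']
      congr 1
      ext x
      simp
    · intro i j
      by_cases hi : i < Fintype.card X ∧ j < Fintype.card X
      · have hj : j < Fintype.card X ∧ i < Fintype.card X := ⟨hi.2, hi.1⟩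
        simp only [δ, hi, and_self, dite_true]
        exact H.symm _ _
      · have hj : ¬ (j < Fintype.card X ∧ i < Fintype.card X) := fun h => hi ⟨h.2, h.1⟩
        simp only [δ, hi, hj, dite_false]
    · intro i j hi hj
      obtain ⟨x, rfl⟩ := hsur i hi
      obtain ⟨y, rfl⟩ := hsur j hj
      rw [hδ, H.zero]
      exact ⟨fun h => by rw [h], fun h => hφ h⟩
    · intro i j hi hj
      obtain ⟨x, rfl⟩ := hsur i hi
      obtain ⟨y, rfl⟩ := hsur j hj
      rw [hδ]; exact H.le x y
    · rintro i hi _ ⟨K, rfl⟩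
      obtain ⟨x, rfl⟩ := hsur i hi
      obtain ⟨g, hg, hgK⟩ := H.pat x K
      refine ⟨φ g, (hψ g K).2 hg, ?_⟩
      intro j hj hne
      obtain ⟨u, hu, rfl⟩ := hψ' j K hj
      rw [hδ, hδ]
      exact hgK u hu (fun h => hne (by rw [h]))
    · rintro i j hi hj hle _ ⟨K, rfl⟩ _ ⟨K', rfl⟩ hyK hyK' ⟨g, hg, hgx⟩ ⟨g', hg', hgx'⟩
      obtain ⟨x, rfl⟩ := hsur i hi
      obtain ⟨y, rfl⟩ := hsur j hj
      obtain ⟨u, hu, rfl⟩ := hψ' g K hg
      obtain ⟨u', hu', rfl⟩ := hψ' g' K' hg'
      rw [hδ] at hle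
      rw [hδ, hδ] at hgx hgx'
      rw [hψ] at hyK hyK'
      rw [H.uniq x y hle K K' hyK hyK' ⟨u, hu, hgx⟩ ⟨u', hu', hgx'⟩]
  have C : Col (Fintype.card X) (Set.range ψ) δ := by
    intro i j hi hj h1
    obtain ⟨x, rfl⟩ := hsur i hi
    obtain ⟨y, rfl⟩ := hsur j hj
    rw [hδ] at h1
    obtain ⟨K, h1, h2⟩ := H.col x y h1
    exact ⟨ψ K, ⟨K, rfl⟩, (hψ x K).2 h1, (hψ y K).2 h2⟩
  have S : Sol N (Fintype.card X) (Set.range ψ) := by
    refine P.sol_core (A.toFinite.toFinset.image φ) ?_ ?_ ?_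
    · refine Finset.card_image_le.trans ?_
      rw [← Set.ncard_eq_toFinset_card]
      exact hA
    · intro u hu
      simp only [Finset.mem_image] at hu
      obtain ⟨x, -, rfl⟩ := hu
      exact hlt x
    · rintro i hi hiA _ ⟨K, rfl⟩ _ ⟨K', rfl⟩ hK hK'
      obtain ⟨x, rfl⟩ := hsur i hi
      rw [hψ] at hK hK'
      have hxA : x ∉ A := by
        intro hx
        apply hiA
        simp only [Finset.mem_image, Set.Finite.mem_toFinset]
        exact ⟨x, hx, rfl⟩
      rw [hu x hxA K K' hK hK']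
  exact ⟨⟨_, _, δ, ⟨P, C, S⟩⟩, φ, ψ, Fintype.card_pos, hφ, hlt, fun K => ⟨K, rfl⟩, hψ, hδ⟩

end Pool.Agent.W290.Fr
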