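import Mathlib

set_option autoImplicit false

/-!
# Free construction of hexagons with finite lines: states and one-line extensions
-/

namespace Pool.Agent.W290.Fr

/-- `φ` has a unique minimum on `K` and all other values are larger by one. -/
def Pat (φ : ℕ → ℕ) (K : Finset ℕ) : Prop := ∃ g ∈ K, ∀ u ∈ K, u ≠ g → φ u = φ g + 1

lemma Pat.congr {φ ψ : ℕ → ℕ} {K : Finset ℕ} (h : Pat φ K) (he : ∀ u ∈ K, ψ u = φ u) :
    Pat ψ K := by
  obtain ⟨g, hg, h⟩ := h
  exact ⟨g, hg, fun u hu hne => by rw [he u hu, he g hg]; exact h u hu hne⟩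

lemma Pat.of_lt {φ : ℕ → ℕ} {K : Finset ℕ} (h : Pat φ K) {u v : ℕ} (hu : u ∈ K) (hv : v ∈ K)
    (hlt : φ u < φ v) : ∀ w ∈ K, w ≠ u → φ w = φ u + 1 := by
  obtain ⟨g, hg, h⟩ := h
  have hug : u = g := by
    by_contra hne
    have h1 := h u hu hne
    by_cases hvg : v = g
    · rw [hvg] at hlt; omega
    · have h2 := h v hv hvg; omega
  subst hug
  exact h

/-- if the value three is attained then there is a unique point with value two -/
lemma Pat.three {φ : ℕ → ℕ} {K : Finset ℕ} (h : Pat φ K) (hle : ∀ u ∈ K, φ u ≤ 3)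
    (hc : 2 ≤ K.card) {u : ℕ} (hu : u ∈ K) (hu3 : φ u = 3) :
    ∃ g ∈ K, φ g = 2 ∧ ∀ w ∈ K, w ≠ g → φ w = 3 := by
  obtain ⟨g, hg, h⟩ := h
  by_cases hug : u = g
  · subst hug
    obtain ⟨w, hw, hwu⟩ := Finset.exists_mem_ne (by omega : 1 < K.card) u
    have := h w hw hwu
    have := hle w hw
    omega
  · have h1 := h u hu hug
    exact ⟨g, hg, by omega, fun w hw hwg => by have := h w hw hwg; omega⟩

/-- the axioms on a partial geometry on the points `0, …, n - 1` with line set `L`, lines of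
`s + 1` points and intended distances `δ ≤ 3` -/
structure Pre (s n : ℕ) (L : Set (Finset ℕ)) (δ : ℕ → ℕ → ℕ) : Prop where
  lt : ∀ K ∈ L, ∀ u ∈ K, u < n
  card : ∀ K ∈ L, K.card = s + 1
  symm : ∀ x y, δ x y = δ y x
  zero : ∀ x y, x < n → y < n → (δ x y = 0 ↔ x = y)
  le : ∀ x y, x < n → y < n → δ x y ≤ 3
  pat : ∀ x, x < n → ∀ K ∈ L, Pat (δ x) K
  uniq : ∀ x y, x < n → y < n → δ x y ≤ 2 → ∀ K ∈ L, ∀ K' ∈ L, y ∈ K → y ∈ K' →
    (∃ g ∈ K, δ x g + 1 = δ x y) → (∃ g ∈ K', δ x g + 1 = δ x y) → K = K'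

/-- points at intended distance one are on a common line -/
def Col (n : ℕ) (L : Set (Finset ℕ)) (δ : ℕ → ℕ → ℕ) : Prop :=
  ∀ x y, x < n → y < n → δ x y = 1 → ∃ K ∈ L, x ∈ K ∧ y ∈ K

namespace Pre

variable {s n : ℕ} {L : Set (Finset ℕ)} {δ : ℕ → ℕ → ℕ}

lemma self (H : Pre s n L δ) {x : ℕ} (hx : x < n) : δ x x = 0 := (H.zero x x hx hx).2 rfl

lemma pos (H : Pre s n L δ) {x y : ℕ} (hx : x < n) (hy : y < n) (h : x ≠ y) : 1 ≤ δ x y := by
  rcases Nat.eq_zero_or_pos (δ x y) with h0 | h0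
  · exact absurd ((H.zero x y hx hy).1 h0) h
  · exact h0

lemma on_line (H : Pre s n L δ) {x u : ℕ} {K : Finset ℕ} (hK : K ∈ L) (hx : x ∈ K) (hu : u ∈ K)
    (hne : u ≠ x) : δ x u = 1 := by
  have hxn := H.lt K hK x hx
  obtain ⟨g, hg, h⟩ := H.pat x hxn K hK
  have hxg : x = g := by
    by_contra hne'
    have := h x hx hne'
    rw [H.self hxn] at this
    omega
  subst hxg
  have := h u hu hne
  rw [H.self hxn] at this
  exact this

lemma line_unique (H : Pre s n L δ) {x y : ℕ} {K K' : Finset ℕ} (hK : K ∈ L) (hK' : K' ∈ L)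
    (hx : x ∈ K) (hx' : x ∈ K') (hy : y ∈ K) (hy' : y ∈ K') (hne : x ≠ y) : K = K' := by
  have hxn := H.lt K hK x hx
  have hyn := H.lt K hK y hy
  have h1 := H.on_line hK hx hy hne.symm
  exact H.uniq x y hxn hyn (by omega) K hK K' hK' hy hy' ⟨x, hx, by rw [H.self hxn, h1]⟩
    ⟨x, hx', by rw [H.self hxn, h1]⟩

lemma le_on (H : Pre s n L δ) {x : ℕ} {K : Finset ℕ} (hx : x < n) (hK : K ∈ L) :
    ∀ u ∈ K, δ x u ≤ 3 := fun u hu => H.le x u hx (H.lt K hK u hu)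

lemma three (H : Pre s n L δ) (hs : 1 ≤ s) {x u : ℕ} {K : Finset ℕ} (hx : x < n) (hK : K ∈ L)
    (hu : u ∈ K) (h3 : δ x u = 3) : ∃ g ∈ K, δ x g = 2 ∧ ∀ w ∈ K, w ≠ g → δ x w = 3 :=
  (H.pat x hx K hK).three (H.le_on hx hK) (by rw [H.card K hK]; omega) hu h3

end Pre

/-- the distances after adding the new points `n, n+1, …` -/
def dext (n : ℕ) (δ φ : ℕ → ℕ → ℕ) (x y : ℕ) : ℕ :=
  if x < n then (if y < n then δ x y else φ (y - n) x)
  else (if y < n then φ (x - n) y else if x = y then 0 else 1)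

lemma dext_old {n : ℕ} {δ φ : ℕ → ℕ → ℕ} {x y : ℕ} (hx : x < n) (hy : y < n) :
    dext n δ φ x y = δ x y := by simp [dext, hx, hy]

lemma dext_on {n : ℕ} {δ φ : ℕ → ℕ → ℕ} {x j : ℕ} (hx : x < n) :
    dext n δ φ x (n + j) = φ j x := by simp [dext, hx]

lemma dext_no {n : ℕ} {δ φ : ℕ → ℕ → ℕ} {x j : ℕ} (hx : x < n) :
    dext n δ φ (n + j) x = φ j x := by simp [dext, hx]

lemma dext_nn {n : ℕ} {δ φ : ℕ → ℕ → ℕ} {i j : ℕ} :
    dext n δ φ (n + i) (n + j) = if i = j then 0 else 1 := by simp [dext]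

lemma dext_symm {n : ℕ} {δ φ : ℕ → ℕ → ℕ} (h : ∀ x y, δ x y = δ y x) (x y : ℕ) :
    dext n δ φ x y = dext n δ φ y x := by
  unfold dext
  by_cases hx : x < n <;> by_cases hy : y < n <;> simp [hx, hy, h x y, eq_comm]

/-- **One-line extension.** -/
theorem Pre.ext1 {s n : ℕ} {L : Set (Finset ℕ)} {δ : ℕ → ℕ → ℕ} (H : Pre s n L δ) (k : ℕ)
    (M : Finset ℕ) (φ : ℕ → ℕ → ℕ) (hMc : M.card = s + 1) (hMlt : ∀ u ∈ M, u < n + k)
    (h1 : ∀ j < k, ∀ u < n, 1 ≤ φ j u) (h1' : ∀ j < k, ∀ u < n, φ j u ≤ 3)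
    (h2 : ∀ j < k, ∀ u ∈ M, u < n → φ j u = 1)
    (hnew : ∀ j < k, n + j ∈ M)
    (h4 : ∀ x < n, Pat (dext n δ φ x) M)
    (h5 : ∀ j < k, ∀ K ∈ L, Pat (φ j) K)
    (h6 : ∀ j < k, ∀ u < n, ∀ K ∈ L, ∀ K' ∈ L, u ∈ K → u ∈ K' → φ j u ≤ 2 →
      (∃ g ∈ K, φ j g + 1 = φ j u) → (∃ g ∈ K', φ j g + 1 = φ j u) → K = K')
    (h7 : ∀ x < n, ∀ u ∈ M, u < n → δ x u ≤ 2 → (∃ p ∈ M, dext n δ φ x p + 1 = δ x u) →
      ∀ K ∈ L, u ∈ K → ¬ ∃ g ∈ K, δ x g + 1 = δ x u) :
    Pre s (n + k) (insert M L) (dext n δ φ) := by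
  have hold : ∀ K ∈ L, ∀ u ∈ K, u < n := H.lt
  refine ⟨?_, ?_, dext_symm H.symm, ?_, ?_, ?_, ?_⟩
  · rintro K (rfl | hK) u hu
    · exact hMlt u hu
    · have := hold K hK u hu; omega
  · rintro K (rfl | hK)
    · exact hMc
    · exact H.card K hK
  · intro x y hx hy
    rcases lt_or_ge x n with hxn | hxn <;> rcases lt_or_ge y n with hyn | hyn
    · rw [dext_old hxn hyn]; exact H.zero x y hxn hyn
    · obtain ⟨j, rfl⟩ := Nat.exists_eq_add_of_le hyn
      rw [dext_on hxn]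
      have := h1 j (by omega) x hxn
      constructor <;> intro h <;> omega
    · obtain ⟨j, rfl⟩ := Nat.exists_eq_add_of_le hxn
      rw [dext_no hyn]
      have := h1 j (by omega) y hyn
      constructor <;> intro h <;> omega
    · obtain ⟨i, rfl⟩ := Nat.exists_eq_add_of_le hxn
      obtain ⟨j, rfl⟩ := Nat.exists_eq_add_of_le hyn
      rw [dext_nn]
      split_ifs with h
      · simp [h]
      · simp [h]
  · intro x y hx hy
    rcases lt_or_ge x n with hxn | hxn <;> rcases lt_or_ge y n with hyn | hyn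
    · rw [dext_old hxn hyn]; exact H.le x y hxn hyn
    · obtain ⟨j, rfl⟩ := Nat.exists_eq_add_of_le hyn
      rw [dext_on hxn]
      exact h1' j (by omega) x hxn
    · obtain ⟨j, rfl⟩ := Nat.exists_eq_add_of_le hxn
      rw [dext_no hyn]
      exact h1' j (by omega) y hyn
    · obtain ⟨i, rfl⟩ := Nat.exists_eq_add_of_le hxn
      obtain ⟨j, rfl⟩ := Nat.exists_eq_add_of_le hyn
      rw [dext_nn]
      split_ifs <;> omega
  · rintro x hx K (rfl | hK)
    · rcases lt_or_ge x n with hxn | hxn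
      · exact h4 x hxn
      · obtain ⟨i, rfl⟩ := Nat.exists_eq_add_of_le hxn
        refine ⟨n + i, hnew i (by omega), ?_⟩
        intro u hu hne
        rw [dext_nn, if_pos rfl]
        rcases lt_or_ge u n with hun | hun
        · rw [dext_no hun, h2 i (by omega) u hu hun]
        · obtain ⟨j, rfl⟩ := Nat.exists_eq_add_of_le hun
          rw [dext_nn, if_neg (by omega)]
    · rcases lt_or_ge x n with hxn | hxn
      · exact (H.pat x hxn K hK).congr (fun u hu => dext_old hxn (hold K hK u hu))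
      · obtain ⟨i, rfl⟩ := Nat.exists_eq_add_of_le hxn
        exact (h5 i (by omega) K hK).congr (fun u hu => dext_no (hold K hK u hu))
  · have key : ∀ x y, x < n + k → y < n + k → dext n δ φ x y ≤ 2 → ∀ K' ∈ L, y ∈ M → y ∈ K' →
        (∃ g ∈ M, dext n δ φ x g + 1 = dext n δ φ x y) →
        (∃ g ∈ K', dext n δ φ x g + 1 = dext n δ φ x y) → False := by
      rintro x y hx hy hle K' hK' hyM hyK' hg ⟨g', hg'K, hg'⟩
      have hyn := hold K' hK' y hyK'
      have hgn := hold K' hK' g' hg'K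
      rcases lt_or_ge x n with hxn | hxn
      · rw [dext_old hxn hyn] at hle hg hg'
        rw [dext_old hxn hgn] at hg'
        exact h7 x hxn y hyM hyn hle hg K' hK' hyK' ⟨g', hg'K, hg'⟩
      · obtain ⟨i, rfl⟩ := Nat.exists_eq_add_of_le hxn
        rw [dext_no hyn, dext_no hgn, h2 i (by omega) y hyM hyn] at hg'
        have := h1 i (by omega) g' hgn
        omega
    rintro x y hx hy hle K (rfl | hK) K' (rfl | hK') hyK hyK' hg hg'
    · rfl
    · exact (key x y hx hy hle K' hK' hyK hyK' hg hg').elim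
    · exact (key x y hx hy hle K hK hyK' hyK hg' hg).elim
    · have hyn := hold K hK y hyK
      obtain ⟨g, hgK, hg⟩ := hg
      obtain ⟨g', hgK', hg'⟩ := hg'
      have hgn := hold K hK g hgK
      have hgn' := hold K' hK' g' hgK'
      rcases lt_or_ge x n with hxn | hxn
      · rw [dext_old hxn hyn] at hle hg hg'
        rw [dext_old hxn hgn] at hg
        rw [dext_old hxn hgn'] at hg'
        exact H.uniq x y hxn hyn hle K hK K' hK' hyK hyK' ⟨g, hgK, hg⟩ ⟨g', hgK', hg'⟩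
      · obtain ⟨i, rfl⟩ := Nat.exists_eq_add_of_le hxn
        rw [dext_no hyn] at hle hg hg'
        rw [dext_no hgn] at hg
        rw [dext_no hgn'] at hg'
        exact h6 i (by omega) y hyn K hK K' hK' hyK hyK' hle ⟨g, hgK, hg⟩ ⟨g', hgK', hg'⟩

end Pool.Agent.W290.Fr
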