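import Mathlib

set_option autoImplicit false

/-!
# Free construction of hexagons with finite lines: solvable constraint systems
-/

namespace Pool.Agent.W290.Fr

/-- Every system of pairwise constraints along the lines which can always be completed on a line
from at most `N` values, and in which a point can always be given a value compatible with at most
`N` given values at collinear points, is solvable. -/
def Sol (N n : ℕ) (L : Set (Finset ℕ)) : Prop :=
  ∀ (V : ℕ → ℕ → Prop) (C : Finset ℕ → ℕ → ℕ → ℕ → ℕ → Prop),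
    (∀ K ∈ L, ∀ Q ⊆ K, Q.card ≤ N → ∀ g : ℕ → ℕ, (∀ u ∈ Q, V u (g u)) →
      (∀ u ∈ Q, ∀ v ∈ Q, u ≠ v → C K u v (g u) (g v)) →
      ∃ g' : ℕ → ℕ, (∀ u ∈ Q, g' u = g u) ∧ (∀ u ∈ K, V u (g' u)) ∧
        ∀ u ∈ K, ∀ v ∈ K, u ≠ v → C K u v (g' u) (g' v)) →
    (∀ x < n, ∀ Z : Finset (Finset ℕ × ℕ), Z.card ≤ N →
      (∀ z ∈ Z, z.1 ∈ L ∧ x ∈ z.1 ∧ z.2 ∈ z.1 ∧ z.2 ≠ x) → ∀ g : ℕ → ℕ,
      (∀ z ∈ Z, V z.2 (g z.2)) →
      ∃ a, V x a ∧ ∀ z ∈ Z, C z.1 x z.2 a (g z.2) ∧ C z.1 z.2 x (g z.2) a) →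
    ∃ f : ℕ → ℕ, (∀ u < n, V u (f u)) ∧
      ∀ K ∈ L, ∀ u ∈ K, ∀ v ∈ K, u ≠ v → C K u v (f u) (f v)

theorem Sol.pend {N n : ℕ} {L : Set (Finset ℕ)} (h : Sol N n L) (hL : ∀ K ∈ L, ∀ u ∈ K, u < n)
    (hN : 1 ≤ N) (k y : ℕ) (M : Finset ℕ) (hyn : y < n) (hyM : y ∈ M)
    (hM : ∀ u ∈ M, u < n → u = y) (hcov : ∀ u, n ≤ u → u < n + k → u ∈ M) :
    Sol N (n + k) (insert M L) := by
  intro V C hcomp hfree
  obtain ⟨f, hf1, hf2⟩ := h V C (fun K hK => hcomp K (Or.inr hK)) (by
    intro x hx Z hZ hZ' g hg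
    exact hfree x (by omega) Z hZ (fun z hz => ⟨Or.inr (hZ' z hz).1, (hZ' z hz).2⟩) g hg)
  obtain ⟨g, hg1, hg2, hg3⟩ := hcomp M (Or.inl rfl) {y} (by simpa using hyM)
    (by simpa using hN) f (by simpa using hf1 y hyn) (by
      intro u hu v hv huv
      simp only [Finset.mem_singleton] at hu hv
      exact absurd (hu.trans hv.symm) huv)
  have hgy : g y = f y := hg1 y (by simp)
  set F : ℕ → ℕ := fun u => if u < n then f u else g u with hF
  have hFM : ∀ u ∈ M, F u = g u := by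
    intro u hu
    by_cases hun : u < n
    · rw [hM u hu hun]; simp [hF, hyn, hgy]
    · simp [hF, hun]
  refine ⟨F, ?_, ?_⟩
  · intro u hu
    by_cases hun : u < n
    · simpa [hF, hun] using hf1 u hun
    · rw [hFM u (hcov u (by omega) hu)]
      exact hg2 u (hcov u (by omega) hu)
  · rintro K (rfl | hK) u hu v hv huv
    · rw [hFM u hu, hFM v hv]
      exact hg3 u hu v hv huv
    · have h1 := hL K hK u hu
      have h2 := hL K hK v hv
      simpa [hF, h1, h2] using hf2 K hK u hu v hv huv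

theorem Sol.ear {N n : ℕ} {L : Set (Finset ℕ)} (h : Sol N n L) (hL : ∀ K ∈ L, ∀ u ∈ K, u < n)
    (hN : 2 ≤ N) (k y r e : ℕ) (M₁ M₂ : Finset ℕ) (hyn : y < n) (hrn : r < n) (hen : n ≤ e)
    (hek : e < n + k) (hy : y ∈ M₁) (he₁ : e ∈ M₁) (hr : r ∈ M₂) (he₂ : e ∈ M₂)
    (hM₁ : ∀ u ∈ M₁, u < n → u = y) (hM₂ : ∀ u ∈ M₂, u < n → u = r)
    (h12 : ∀ u ∈ M₁, u ∈ M₂ → u = e)
    (hcov : ∀ u, n ≤ u → u < n + k → u ∈ M₁ ∨ u ∈ M₂) :
    Sol N (n + k) (insert M₂ (insert M₁ L)) := by
  classical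
  intro V C hcomp hfree
  obtain ⟨f, hf1, hf2⟩ := h V C (fun K hK => hcomp K (Or.inr (Or.inr hK))) (by
    intro x hx Z hZ hZ' g hg
    exact hfree x (by omega) Z hZ (fun z hz => ⟨Or.inr (Or.inr (hZ' z hz).1), (hZ' z hz).2⟩) g hg)
  obtain ⟨a, ha1, ha2⟩ := hfree e hek {(M₁, y), (M₂, r)} (Finset.card_le_two.trans hN) (by
    intro z hz
    simp only [Finset.mem_insert, Finset.mem_singleton] at hz
    rcases hz with rfl | rfl
    · exact ⟨Or.inr (Or.inl rfl), he₁, hy, by simp only; omega⟩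
    · exact ⟨Or.inl rfl, he₂, hr, by simp only; omega⟩) f (by
    intro z hz
    simp only [Finset.mem_insert, Finset.mem_singleton] at hz
    rcases hz with rfl | rfl
    · exact hf1 y hyn
    · exact hf1 r hrn)
  have hay := ha2 (M₁, y) (by simp)
  have har := ha2 (M₂, r) (by simp)
  simp only at hay har
  set f' : ℕ → ℕ := Function.update f e a with hf'
  have hf'e : f' e = a := by simp [hf']
  have hf'o : ∀ u, u < n → f' u = f u := by
    intro u hu
    rw [hf', Function.update_of_ne (by omega)]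
  have hcompM : ∀ (M : Finset ℕ) (z : ℕ), M ∈ insert M₂ (insert M₁ L) → z < n → z ∈ M → e ∈ M →
      C M e z a (f z) ∧ C M z e (f z) a → ∃ g : ℕ → ℕ, g z = f z ∧ g e = a ∧
      (∀ u ∈ M, V u (g u)) ∧ ∀ u ∈ M, ∀ v ∈ M, u ≠ v → C M u v (g u) (g v) := by
    intro M z hM hz hzM heM hC
    obtain ⟨g, hg1, hg2, hg3⟩ := hcomp M hM {z, e} (by
      intro u hu
      simp only [Finset.mem_insert, Finset.mem_singleton] at hu
      rcases hu with rfl | rfl <;> assumption) (Finset.card_le_two.trans hN) f' (by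
      intro u hu
      simp only [Finset.mem_insert, Finset.mem_singleton] at hu
      rcases hu with rfl | rfl
      · rw [hf'o _ hz]; exact hf1 _ hz
      · rw [hf'e]; exact ha1) (by
      intro u hu v hv huv
      simp only [Finset.mem_insert, Finset.mem_singleton] at hu hv
      rcases hu with rfl | rfl <;> rcases hv with rfl | rfl
      · exact absurd rfl huv
      · rw [hf'o _ hz, hf'e]; exact hC.2
      · rw [hf'o _ hz, hf'e]; exact hC.1
      · exact absurd rfl huv)
    refine ⟨g, ?_, ?_, hg2, hg3⟩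
    · rw [hg1 z (by simp), hf'o z hz]
    · rw [hg1 e (by simp), hf'e]
  obtain ⟨g₁, a1, a2, a3, a4⟩ := hcompM M₁ y (Or.inr (Or.inl rfl)) hyn hy he₁ hay
  obtain ⟨g₂, b1, b2, b3, b4⟩ := hcompM M₂ r (Or.inl rfl) hrn hr he₂ har
  set F : ℕ → ℕ := fun u => if u < n then f u else if u ∈ M₁ then g₁ u else g₂ u with hF
  have hF₁ : ∀ u ∈ M₁, F u = g₁ u := by
    intro u hu
    by_cases hun : u < n
    · rw [hM₁ u hu hun]; simp [hF, hyn, a1]
    · simp [hF, hun, hu]
  have hF₂ : ∀ u ∈ M₂, F u = g₂ u := by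
    intro u hu
    by_cases hun : u < n
    · rw [hM₂ u hu hun]; simp [hF, hrn, b1]
    · by_cases hu1 : u ∈ M₁
      · rw [h12 u hu1 hu]
        have : ¬ e < n := by omega
        simp [hF, this, he₁, a2, b2]
      · simp [hF, hun, hu1]
  refine ⟨F, ?_, ?_⟩
  · intro u hu
    by_cases hun : u < n
    · simpa [hF, hun] using hf1 u hun
    · rcases hcov u (by omega) hu with h | h
      · rw [hF₁ u h]; exact a3 u h
      · rw [hF₂ u h]; exact b3 u h
  · rintro K (rfl | rfl | hK) u hu v hv huv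
    · rw [hF₂ u hu, hF₂ v hv]
      exact b4 u hu v hv huv
    · rw [hF₁ u hu, hF₁ v hv]
      exact a4 u hu v hv huv
    · have h1 := hL K hK u hu
      have h2 := hL K hK v hv
      simpa [hF, h1, h2] using hf2 K hK u hu v hv huv

/-- extending an injective colouring -/
lemma extend_inj {q : ℕ} (hq : 1 ≤ q) (T Q : Finset ℕ) (hT : T.card ≤ q) (g : ℕ → ℕ)
    (hg : ∀ u ∈ Q, g u < q) (hinj : ∀ u ∈ Q, ∀ v ∈ Q, u ∈ T → v ∈ T → u ≠ v → g u ≠ g v) :
    ∃ g' : ℕ → ℕ, (∀ u ∈ Q, g' u = g u) ∧ (∀ u, u ∉ Q → g' u < q) ∧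
      ∀ u ∈ T, ∀ v ∈ T, u ≠ v → g' u ≠ g' v := by
  classical
  -- the new points
  set R := T \ Q with hR
  set A := (T ∩ Q).image g with hA
  have hAcard : A.card = (T ∩ Q).card := by
    apply Finset.card_image_of_injOn
    intro u hu v hv huv
    by_contra hne
    simp only [Finset.coe_inter, Set.mem_inter_iff, Finset.mem_coe] at hu hv
    exact hinj u hu.2 v hv.2 hu.1 hv.1 hne huv
  have hAsub : A ⊆ Finset.range q := by
    intro a ha
    simp only [hA, Finset.mem_image, Finset.mem_inter] at ha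
    obtain ⟨u, hu, rfl⟩ := ha
    simpa using hg u hu.2
  have hfree : R.card ≤ (Finset.range q \ A).card := by
    rw [Finset.card_sdiff_of_subset hAsub, Finset.card_range, hAcard]
    have := Finset.card_sdiff_add_card_inter T Q
    rw [← hR] at this
    omega
  obtain ⟨B, hB, hBc⟩ := Finset.exists_subset_card_eq hfree
  have e := Finset.equivOfCardEq hBc.symm
  refine ⟨fun u => if h : u ∈ R then (e ⟨u, h⟩ : ℕ) else if u ∈ Q then g u else 0, ?_, ?_, ?_⟩
  · intro u hu
    have : u ∉ R := by simp [hR, hu]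
    simp [this, hu]
  · intro u hu
    by_cases h : u ∈ R
    · have h1 := hB (e ⟨u, h⟩).2
      simp only [Finset.mem_sdiff, Finset.mem_range] at h1
      simpa [h] using h1.1
    · simp only [h, dite_false, hu, if_false]
      omega
  · have hval : ∀ u (h : u ∈ R), (e ⟨u, h⟩ : ℕ) ∉ A := by
      intro u h
      have h1 := hB (e ⟨u, h⟩).2
      simp only [Finset.mem_sdiff] at h1
      exact h1.2
    intro u hu v hv huv
    have hmem : ∀ w ∈ T, w ∉ R → w ∈ Q := by
      intro w hw hwR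
      by_contra hwQ
      exact hwR (by simp [hR, hw, hwQ])
    by_cases h1 : u ∈ R <;> by_cases h2 : v ∈ R
    · simp only [h1, h2, dite_true]
      intro he
      have := e.injective (Subtype.ext he)
      exact huv (congrArg Subtype.val this)
    · have hvQ := hmem v hv h2
      simp only [h1, h2, dite_true, dite_false, hvQ, if_true]
      intro he
      apply hval u h1
      rw [he]
      exact Finset.mem_image_of_mem g (by simp [hv, hvQ])
    · have huQ := hmem u hu h1
      simp only [h1, h2, dite_true, dite_false, huQ, if_true]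
      intro he
      apply hval v h2
      rw [← he]
      exact Finset.mem_image_of_mem g (by simp [hu, huQ])
    · have huQ := hmem u hu h1
      have hvQ := hmem v hv h2
      simp only [h1, h2, dite_false, huQ, hvQ, if_true]
      exact hinj u huQ v hvQ hu hv huv

/-- a colour different from few given ones -/
lemma exists_color {ι : Type} (Z : Finset ι) (g : ι → ℕ) (lo hi : ℕ) (h : Z.card + lo < hi) :
    ∃ a, lo ≤ a ∧ a < hi ∧ ∀ z ∈ Z, a ≠ g z := by
  classical
  have h1 : (Z.image g).card < (Finset.Ico lo hi).card := by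
    have := Finset.card_image_le (s := Z) (f := g)
    rw [Nat.card_Ico]
    omega
  obtain ⟨a, ha, ha'⟩ := Finset.exists_mem_notMem_of_card_lt_card h1
  rw [Finset.mem_Ico] at ha
  refine ⟨a, ha.1, ha.2, ?_⟩
  rintro z hz rfl
  exact ha' (Finset.mem_image_of_mem g hz)

end Pool.Agent.W290.Fr
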