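import Pool.Agent.W290.FrDefs
import Pool.Agent.W290.FrSol

set_option autoImplicit false

/-!
# Free construction of hexagons with finite lines: a new line through a point
-/

namespace Pool.Agent.W290.Fr

/-- a state of the construction -/
structure St (s N n : ℕ) (L : Set (Finset ℕ)) (δ : ℕ → ℕ → ℕ) : Prop where
  pre : Pre s n L δ
  col : Col n L δ
  sol : Sol N n L

/-- an injective colouring with as many colours as points is onto -/
lemma surj_color {s : ℕ} {T : Finset ℕ} (hT : T.card = s) {f : ℕ → ℕ} (hf : ∀ u ∈ T, f u < s)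
    (hinj : ∀ u ∈ T, ∀ v ∈ T, u ≠ v → f u ≠ f v) {j : ℕ} (hj : j < s) : ∃ u ∈ T, f u = j := by
  have h1 : (T.image f).card = s := by
    rw [Finset.card_image_of_injOn, hT]
    intro u hu v hv huv
    by_contra hne
    exact hinj u hu v hv hne huv
  have h2 : T.image f ⊆ Finset.range s := by
    intro a ha
    simp only [Finset.mem_image] at ha
    obtain ⟨u, hu, rfl⟩ := ha
    simpa using hf u hu
  have h3 : T.image f = Finset.range s :=
    Finset.eq_of_subset_of_card_le h2 (by rw [h1, Finset.card_range])
  have h4 : j ∈ T.image f := by rw [h3]; simpa using hj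
  simpa using h4

/-- the distances of the new points on a new line through `y` -/
def phi1 (δ : ℕ → ℕ → ℕ) (y : ℕ) (f : ℕ → ℕ) (j u : ℕ) : ℕ :=
  if δ y u ≤ 1 then δ y u + 1 else if δ y u = 2 then 3 else if f u = j then 2 else 3

/-- the new line -/
def line1 (n s y : ℕ) : Finset ℕ := insert y (Finset.Ico n (n + s))

lemma mem_line1 {n s y u : ℕ} : u ∈ line1 n s y ↔ u = y ∨ (n ≤ u ∧ u < n + s) := by
  simp [line1]

lemma line1_card {n s y : ℕ} (hy : y < n) : (line1 n s y).card = s + 1 := by
  rw [line1, Finset.card_insert_of_notMem (by simp; omega), Nat.card_Ico]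
  omega

theorem St.color1 {s N n : ℕ} {L : Set (Finset ℕ)} {δ : ℕ → ℕ → ℕ} (H : St s N n L δ)
    (hs : N < s) {y : ℕ} (hy : y < n) :
    ∃ f : ℕ → ℕ, (∀ u < n, f u < s) ∧
      ∀ K ∈ L, ∀ u ∈ K, ∀ v ∈ K, u ≠ v → δ y u = 3 → δ y v = 3 → f u ≠ f v := by
  obtain ⟨f, hf1, hf2⟩ := H.sol (fun _ a => a < s)
    (fun _ u v a b => δ y u = 3 → δ y v = 3 → a ≠ b) (by
    intro K hK Q hQK hQ g hg1 hg2
    obtain ⟨g', h1, h2, h3⟩ := extend_inj (by omega : 1 ≤ s) (K.filter (fun u => δ y u = 3)) Q (by
      by_cases hex : ∃ u ∈ K, δ y u = 3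
      · obtain ⟨u, hu, hu3⟩ := hex
        obtain ⟨w, hw, hw2, -⟩ := H.pre.three (by omega) hy hK hu hu3
        have : (K.filter (fun u => δ y u = 3)) ⊆ K.erase w := by
          intro v hv
          simp only [Finset.mem_filter] at hv
          rw [Finset.mem_erase]
          refine ⟨?_, hv.1⟩
          rintro rfl
          omega
        have := Finset.card_le_card this
        rw [Finset.card_erase_of_mem hw, H.pre.card K hK] at this
        omega
      · push Not at hex
        have : K.filter (fun u => δ y u = 3) = ∅ := by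
          rw [Finset.filter_eq_empty_iff]
          intro u hu
          exact hex u hu
        rw [this]; simp) g hg1 (by
      intro u hu v hv hu' hv' huv
      simp only [Finset.mem_filter] at hu' hv'
      exact hg2 u hu v hv huv hu'.2 hv'.2)
    refine ⟨g', h1, ?_, ?_⟩
    · intro u hu
      by_cases huQ : u ∈ Q
      · rw [h1 u huQ]; exact hg1 u huQ
      · exact h2 u huQ
    · intro u hu v hv huv hu3 hv3
      exact h3 u (by simp [hu, hu3]) v (by simp [hv, hv3]) huv) (by
    intro x hx Z hZ hZ' g hg
    obtain ⟨a, -, ha2, ha3⟩ := exists_color Z (fun z => g z.2) 0 s (by omega)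
    exact ⟨a, ha2, fun z hz => ⟨fun _ _ => ha3 z hz, fun _ _ => (ha3 z hz).symm⟩⟩)
  exact ⟨f, hf1, fun K hK u hu v hv huv h3 h3' => hf2 K hK u hu v hv huv h3 h3'⟩

theorem St.E1 {s N n : ℕ} {L : Set (Finset ℕ)} {δ : ℕ → ℕ → ℕ} (H : St s N n L δ)
    (hN : 1 ≤ N) (hs : N < s) {y : ℕ} (hy : y < n) :
    ∃ δ', St s N (n + s) (insert (line1 n s y) L) δ' ∧ ∀ x z, x < n → z < n → δ' x z = δ x z := by
  obtain ⟨f, hf1, hf2⟩ := H.color1 hs hy
  have hle : ∀ u, u < n → δ y u ≤ 3 := fun u hu => H.pre.le y u hy hu
  have hphi1 : ∀ j, ∀ u < n, phi1 δ y f j u = 1 → u = y := by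
    intro j u hu h
    unfold phi1 at h
    have h0 : δ y u = 0 := by
      split_ifs at h <;> omega
    exact ((H.pre.zero y u hy hu).1 h0).symm
  have hpos : ∀ j, ∀ u < n, 1 ≤ phi1 δ y f j u := by
    intro j u hu
    unfold phi1
    split_ifs <;> omega
  have hle3 : ∀ j, ∀ u < n, phi1 δ y f j u ≤ 3 := by
    intro j u hu
    unfold phi1
    split_ifs <;> omega
  refine ⟨dext n δ (phi1 δ y f), ⟨?_, ?_, ?_⟩, fun x z hx hz => dext_old hx hz⟩
  · refine H.pre.ext1 s (line1 n s y) (phi1 δ y f) (line1_card hy) ?_ ?_ ?_ ?_ ?_ ?_ ?_ ?_ ?_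
    · intro u hu
      rw [mem_line1] at hu
      omega
    · intro j _ u hu; exact hpos j u hu
    · intro j _ u hu; exact hle3 j u hu
    · intro j _ u hu hun
      rw [mem_line1] at hu
      have : u = y := by omega
      subst this
      simp [phi1, H.pre.self hy]
    · intro j hj
      rw [mem_line1]; omega
    · -- pattern on the new line
      intro x hx
      have hxle := hle x hx
      by_cases h3 : δ y x = 3
      · have hfx := hf1 x hx
        refine ⟨n + f x, by rw [mem_line1]; omega, ?_⟩
        intro u hu hne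
        rw [dext_on hx]
        have hg : phi1 δ y f (f x) x = 2 := by simp [phi1, h3]
        rw [hg]
        rw [mem_line1] at hu
        rcases hu with rfl | ⟨hu1, hu2⟩
        · rw [dext_old hx hy, H.pre.symm, h3]
        · obtain ⟨j, rfl⟩ := Nat.exists_eq_add_of_le hu1
          rw [dext_on hx]
          have : f x ≠ j := by rintro rfl; exact hne rfl
          simp [phi1, h3, this]
      · refine ⟨y, by rw [mem_line1]; omega, ?_⟩
        intro u hu hne
        rw [mem_line1] at hu
        rcases hu with rfl | ⟨hu1, hu2⟩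
        · exact absurd rfl hne
        · obtain ⟨j, rfl⟩ := Nat.exists_eq_add_of_le hu1
          rw [dext_on hx, dext_old hx hy, H.pre.symm x y]
          unfold phi1
          split_ifs <;> omega
    · -- pattern on the old lines
      intro j hj K hK
      obtain ⟨g, hg, hgK⟩ := H.pre.pat y hy K hK
      have hgn := H.pre.lt K hK g hg
      have hKle : ∀ u ∈ K, δ y u ≤ 3 := fun u hu => hle u (H.pre.lt K hK u hu)
      have hcard := H.pre.card K hK
      have hg2 : δ y g ≤ 2 := by
        obtain ⟨w, hw, hwg⟩ := Finset.exists_mem_ne (by omega : 1 < K.card) g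
        have h1 := hgK w hw hwg
        have h2 := hKle w hw
        omega
      by_cases h2 : δ y g = 2
      · obtain ⟨u, hu, huj⟩ := surj_color (s := s) (T := K.erase g)
          (by rw [Finset.card_erase_of_mem hg, hcard]; rfl) (f := f)
          (fun u hu => hf1 u (H.pre.lt K hK u (Finset.mem_of_mem_erase hu))) (by
            intro u hu v hv huv
            rw [Finset.mem_erase] at hu hv
            refine hf2 K hK u hu.2 v hv.2 huv ?_ ?_
            · rw [hgK u hu.2 hu.1, h2]
            · rw [hgK v hv.2 hv.1, h2]) hj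
        rw [Finset.mem_erase] at hu
        refine ⟨u, hu.2, ?_⟩
        have hu3 : δ y u = 3 := by rw [hgK u hu.2 hu.1, h2]
        have hval : phi1 δ y f j u = 2 := by simp [phi1, hu3, huj]
        intro v hv hvu
        rw [hval]
        by_cases hvg : v = g
        · subst hvg
          simp [phi1, h2]
        · have hv3 : δ y v = 3 := by rw [hgK v hv hvg, h2]
          have : f v ≠ j := by
            rw [← huj]
            exact hf2 K hK v hv u hu.2 hvu hv3 hu3
          simp [phi1, hv3, this]
      · refine ⟨g, hg, ?_⟩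
        intro u hu hug
        have := hgK u hu hug
        unfold phi1
        split_ifs <;> omega
    · -- uniqueness for the new points
      intro j hj u hu K hK K' hK' huK huK' hle2 hgt hgt'
      have key : ∀ K ∈ L, u ∈ K → (∃ g ∈ K, phi1 δ y f j g + 1 = phi1 δ y f j u) →
          y ∈ K ∧ u ≠ y := by
        rintro K hK huK ⟨g, hgK, hg⟩
        have hgn := H.pre.lt K hK g hgK
        have h1 := hpos j g hgn
        have h2 : phi1 δ y f j g = 1 := by omega
        have h3 := hphi1 j g hgn h2
        subst h3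
        refine ⟨hgK, ?_⟩
        rintro rfl
        omega
      obtain ⟨a1, a2⟩ := key K hK huK hgt
      obtain ⟨b1, -⟩ := key K' hK' huK' hgt'
      exact H.pre.line_unique hK hK' huK huK' a1 b1 a2
    · -- the new line is not toward old points
      intro x hx u hu hun hle2 hp
      rw [mem_line1] at hu
      have huy : u = y := by omega
      subst huy
      exfalso
      obtain ⟨p, hp, hpx⟩ := hp
      rw [mem_line1] at hp
      rcases hp with rfl | ⟨hp1, hp2⟩
      · rw [dext_old hx hun] at hpx; omega
      · obtain ⟨j, rfl⟩ := Nat.exists_eq_add_of_le hp1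
        rw [dext_on hx, H.pre.symm x u] at hpx
        rw [H.pre.symm x u] at hle2
        unfold phi1 at hpx
        split_ifs at hpx <;> omega
  · -- collinearity
    intro x z hx hz h1
    rcases lt_or_ge x n with hxn | hxn <;> rcases lt_or_ge z n with hzn | hzn
    · rw [dext_old hxn hzn] at h1
      obtain ⟨K, hK, h⟩ := H.col x z hxn hzn h1
      exact ⟨K, Or.inr hK, h⟩
    · obtain ⟨j, rfl⟩ := Nat.exists_eq_add_of_le hzn
      rw [dext_on hxn] at h1
      have := hphi1 j x hxn h1
      subst this
      exact ⟨_, Or.inl rfl, by rw [mem_line1]; omega, by rw [mem_line1]; omega⟩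
    · obtain ⟨j, rfl⟩ := Nat.exists_eq_add_of_le hxn
      rw [dext_no hzn] at h1
      have := hphi1 j z hzn h1
      subst this
      exact ⟨_, Or.inl rfl, by rw [mem_line1]; omega, by rw [mem_line1]; omega⟩
    · exact ⟨_, Or.inl rfl, by rw [mem_line1]; omega, by rw [mem_line1]; omega⟩
  · refine H.sol.pend H.pre.lt hN s y (line1 n s y) hy (by rw [mem_line1]; omega) ?_ ?_
    · intro u hu hun
      rw [mem_line1] at hu
      omega
    · intro u h1 h2
      rw [mem_line1]; omega

end Pool.Agent.W290.Fr
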