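import Pool.Agent.W290.FrA
import Pool.Agent.W290.FrB

set_option autoImplicit false

/-!
# Free construction of hexagons with finite lines: creating a common neighbour
-/

namespace Pool.Agent.W290.Fr

theorem St.E2 {s N n : ℕ} {L : Set (Finset ℕ)} {δ : ℕ → ℕ → ℕ} (H : St s N n L δ)
    (hN : 2 ≤ N) (hs : N + 2 ≤ s) {y r : ℕ} (U : Uns n δ y r) :
    ∃ δ', St s N (n + s + (s - 1)) (insert (line2 (n + s) s n r) (insert (line1 n s y) L)) δ' ∧
      (∀ x z, x < n → z < n → δ' x z = δ x z) ∧
      ∃ g < n + s + (s - 1), δ' y g = 1 ∧ δ' r g = 1 := by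
  obtain ⟨δA, P, hext, her, h33, hd1, hd2, h7e, h7r, hcol⟩ := stepA H hs U
  have hy := U.yn
  have hr := U.rn
  have S1 : Sol N (n + s) (insert (line1 n s y) L) := by
    refine H.sol.pend H.pre.lt (by omega) s y (line1 n s y) hy (by rw [mem_line1]; omega) ?_ ?_
    · intro u hu hun
      rw [mem_line1] at hu
      omega
    · intro u h1 h2
      rw [mem_line1]; omega
  obtain ⟨δ', P', C', hext'⟩ := stepB P S1 hs (e := n) (r := r) (by omega) (by omega) her h33 hd1
    hd2 h7e h7r hcol
  have hner : y ≠ r := by
    rintro rfl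
    have := U.two
    rw [H.pre.self hy] at this
    omega
  refine ⟨δ', ⟨P', C', ?_⟩, ?_, n, by omega, ?_, ?_⟩
  · have := H.sol.ear H.pre.lt hN (s + (s - 1)) y r n (line1 n s y) (line2 (n + s) s n r) hy hr
      le_rfl (by omega) (by rw [mem_line1]; omega) (by rw [mem_line1]; omega)
      (by rw [mem_line2]; omega) (by rw [mem_line2]; omega)
      (by intro u hu hun; rw [mem_line1] at hu; omega)
      (by intro u hu hun; rw [mem_line2] at hu; omega)
      (by intro u hu hu'; rw [mem_line1] at hu; rw [mem_line2] at hu'; omega)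
      (by intro u h1 h2; rw [mem_line1, mem_line2]; omega)
    rw [← Nat.add_assoc] at this
    exact this
  · intro x z hx hz
    rw [hext' x z (by omega) (by omega), hext x z hx hz]
  · rw [hext' y n (by omega) (by omega)]
    exact P.on_line (K := line1 n s y) (Or.inl rfl) (by rw [mem_line1]; omega)
      (by rw [mem_line1]; omega) (by omega)
  · rw [hext' r n (by omega) (by omega), P.symm]
    exact her

end Pool.Agent.W290.Fr
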