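import Pool.Agent.W290.FrHex

set_option autoImplicit false

/-!
# The flag geometry of a projective plane
-/

namespace Pool.Agent.W290.Fr

open Configuration

section flag

variable (P L : Type) [Membership P L]

/-- flags -/
abbrev Flag : Type := {x : P × L // x.1 ∈ x.2}

variable {P L}

/-- a flag is incident with its two members -/
def flagInc (x : Flag P L) (K : P ⊕ L) : Prop :=
  match K with
  | Sum.inl p => x.1.1 = p
  | Sum.inr l => x.1.2 = l

open Classical in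
/-- distances between flags -/
noncomputable def flagD (x y : Flag P L) : ℕ :=
  if x = y then 0
  else if x.1.1 = y.1.1 ∨ x.1.2 = y.1.2 then 1
  else if x.1.1 ∈ y.1.2 ∨ y.1.1 ∈ x.1.2 then 2 else 3

lemma flagD_eq_zero {x y : Flag P L} : flagD x y = 0 ↔ x = y := by
  unfold flagD
  split_ifs with h1 h2 h3 <;> simp [h1]

lemma flagD_eq_one {x y : Flag P L} :
    flagD x y = 1 ↔ x ≠ y ∧ (x.1.1 = y.1.1 ∨ x.1.2 = y.1.2) := by
  unfold flagD
  split_ifs with h1 h2 h3
  · simp [h1]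
  · simp [h1, h2]
  · simp [h2]
  · simp [h2]

lemma flagD_eq_two {x y : Flag P L} :
    flagD x y = 2 ↔ x.1.1 ≠ y.1.1 ∧ x.1.2 ≠ y.1.2 ∧ (x.1.1 ∈ y.1.2 ∨ y.1.1 ∈ x.1.2) := by
  unfold flagD
  split_ifs with h1 h2 h3
  · simp [h1]
  · simp only [OfNat.one_ne_ofNat, false_iff]
    rintro ⟨a, b, -⟩
    exact h2.elim a b
  · simp only [true_iff]
    exact ⟨fun h => h2 (Or.inl h), fun h => h2 (Or.inr h), h3⟩
  · simp only [Nat.reduceEqDiff, false_iff]
    rintro ⟨-, -, h⟩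
    exact h3 h

lemma flagD_eq_three {x y : Flag P L} :
    flagD x y = 3 ↔ x.1.1 ∉ y.1.2 ∧ y.1.1 ∉ x.1.2 := by
  unfold flagD
  split_ifs with h1 h2 h3
  · subst h1
    simp only [false_iff]
    rintro ⟨a, -⟩
    exact a x.2
  · simp only [OfNat.one_ne_ofNat, false_iff]
    rintro ⟨a, b⟩
    rcases h2 with h2 | h2
    · exact a (by rw [h2]; exact y.2)
    · exact a (by rw [← h2]; exact x.2)
  · simp only [Nat.reduceEqDiff, false_iff]
    rintro ⟨a, b⟩
    exact h3.elim a b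
  · simp only [true_iff]
    exact ⟨fun h => h3 (Or.inl h), fun h => h3 (Or.inr h)⟩

lemma flagD_le (x y : Flag P L) : flagD x y ≤ 3 := by
  unfold flagD
  split_ifs <;> omega

theorem flagFH [ProjectivePlane P L] : FH (flagInc (P := P) (L := L)) flagD := by
  classical
  have huniq : ∀ (p q : P) (l m : L), p ∈ l → q ∈ l → p ∈ m → q ∈ m → p = q ∨ l = m :=
    fun p q l m h1 h2 h3 h4 => Nondegenerate.eq_or_eq h1 h2 h3 h4
  refine ⟨?_, fun x y => flagD_eq_zero, flagD_le, ?_, ?_, ?_⟩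
  · intro x y
    unfold flagD
    simp only [eq_comm (a := x), eq_comm (a := x.1.1), eq_comm (a := x.1.2),
      or_comm (a := x.1.1 ∈ y.1.2)]
  · -- the nearest flag
    rintro ⟨⟨p, l⟩, hpl⟩ (p₀ | l₀)
    · by_cases h1 : p₀ = p
      · subst h1
        refine ⟨⟨⟨p₀, l⟩, hpl⟩, rfl, ?_, ?_⟩
        · rw [flagD_eq_zero.2 rfl]; omega
        · rintro ⟨⟨p', m⟩, hm⟩ hu hne
          have hp' : p' = p₀ := hu
          subst hp'
          rw [flagD_eq_zero.2 rfl, flagD_eq_one.2 ⟨Ne.symm hne, Or.inl rfl⟩]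
      · by_cases h2 : p₀ ∈ l
        · have hd : flagD (⟨(p, l), hpl⟩ : Flag P L) ⟨(p₀, l), h2⟩ = 1 :=
            flagD_eq_one.2 ⟨fun h => h1 (congrArg (fun z : Flag P L => z.1.1) h).symm, Or.inr rfl⟩
          refine ⟨⟨⟨p₀, l⟩, h2⟩, rfl, by rw [hd]; omega, ?_⟩
          rintro ⟨⟨p', m⟩, hm⟩ hu hne
          have hp' : p' = p₀ := hu
          subst hp'
          have hml : m ≠ l := by rintro rfl; exact hne rfl
          rw [hd]
          exact flagD_eq_two.2 ⟨Ne.symm h1, Ne.symm hml, Or.inr h2⟩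
        · obtain ⟨hm1, hm2⟩ := HasLines.mkLine_ax (P := P) (L := L) h1
          set m := HasLines.mkLine (P := P) (L := L) h1 with hm
          have hml : l ≠ m := by rintro h; exact h2 (by rw [h]; exact hm1)
          have hd : flagD (⟨(p, l), hpl⟩ : Flag P L) ⟨(p₀, m), hm1⟩ = 2 :=
            flagD_eq_two.2 ⟨Ne.symm h1, hml, Or.inl hm2⟩
          refine ⟨⟨⟨p₀, m⟩, hm1⟩, rfl, by rw [hd], ?_⟩
          rintro ⟨⟨p', m'⟩, hm'⟩ hu hne
          have hp' : p' = p₀ := hu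
          rw [hd]
          refine flagD_eq_three.2 ⟨?_, fun h => h2 (by rw [← hp']; exact h)⟩
          intro hpm'
          rcases huniq p p₀ m m' hm2 hm1 hpm' (by rw [← hp']; exact hm') with h | h
          · exact h1 h.symm
          · subst hp'
            exact hne (Subtype.ext (Prod.ext rfl h.symm))
    · by_cases h1 : l₀ = l
      · subst h1
        refine ⟨⟨⟨p, l₀⟩, hpl⟩, rfl, ?_, ?_⟩
        · rw [flagD_eq_zero.2 rfl]; omega
        · rintro ⟨⟨p', m⟩, hm⟩ hu hne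
          have hp' : m = l₀ := hu
          subst hp'
          rw [flagD_eq_zero.2 rfl, flagD_eq_one.2 ⟨Ne.symm hne, Or.inr rfl⟩]
      · by_cases h2 : p ∈ l₀
        · have hd : flagD (⟨(p, l), hpl⟩ : Flag P L) ⟨(p, l₀), h2⟩ = 1 :=
            flagD_eq_one.2 ⟨fun h => h1 (congrArg (fun z : Flag P L => z.1.2) h).symm, Or.inl rfl⟩
          refine ⟨⟨⟨p, l₀⟩, h2⟩, rfl, by rw [hd]; omega, ?_⟩
          rintro ⟨⟨p', m⟩, hm⟩ hu hne
          have hp' : m = l₀ := hu
          subst hp'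
          have hml : p' ≠ p := by rintro rfl; exact hne rfl
          rw [hd]
          exact flagD_eq_two.2 ⟨Ne.symm hml, Ne.symm h1, Or.inl h2⟩
        · obtain ⟨hm1, hm2⟩ := HasPoints.mkPoint_ax (P := P) (L := L) h1
          set m := HasPoints.mkPoint (P := P) (L := L) h1 with hm
          have hml : p ≠ m := by rintro h; exact h2 (by rw [h]; exact hm1)
          have hd : flagD (⟨(p, l), hpl⟩ : Flag P L) ⟨(m, l₀), hm1⟩ = 2 :=
            flagD_eq_two.2 ⟨hml, Ne.symm h1, Or.inr hm2⟩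
          refine ⟨⟨⟨m, l₀⟩, hm1⟩, rfl, by rw [hd], ?_⟩
          rintro ⟨⟨m', p'⟩, hm'⟩ hu hne
          have hp' : p' = l₀ := hu
          rw [hd]
          refine flagD_eq_three.2 ⟨fun h => h2 (by rw [← hp']; exact h), ?_⟩
          intro hpm'
          rcases huniq m m' l l₀ hm2 hpm' hm1 (by rw [← hp']; exact hm') with h | h
          · subst hp'
            exact hne (Subtype.ext (Prod.ext h.symm rfl))
          · exact h1 h.symm
  · -- at most one line toward a given flag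
    rintro ⟨⟨p, l⟩, hpl⟩ ⟨⟨p', l'⟩, hpl'⟩ hle K K' hK hK' ⟨g, hg1, hg2⟩ ⟨g', hg1', hg2'⟩
    -- it suffices that the two different lines through `y` are not both toward `x`
    have key : ∀ g g' : Flag P L, g.1.1 = p' → g'.1.2 = l' →
        flagD ⟨(p, l), hpl⟩ g + 1 = flagD ⟨(p, l), hpl⟩ ⟨(p', l'), hpl'⟩ →
        flagD ⟨(p, l), hpl⟩ g' + 1 = flagD ⟨(p, l), hpl⟩ ⟨(p', l'), hpl'⟩ → False := by
      rintro ⟨⟨a, b⟩, hab⟩ ⟨⟨a', b'⟩, hab'⟩ ha hb e1 e2
      have ha : a = p' := ha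
      have hb : b' = l' := hb
      subst ha hb
      have hcase : flagD (⟨(p, l), hpl⟩ : Flag P L) ⟨(a, b'), hpl'⟩ = 1 ∨
          flagD (⟨(p, l), hpl⟩ : Flag P L) ⟨(a, b'), hpl'⟩ = 2 := by omega
      rcases hcase with h1 | h2
      · have f1 : flagD (⟨(p, l), hpl⟩ : Flag P L) ⟨(a, b), hab⟩ = 0 := by omega
        have f2 : flagD (⟨(p, l), hpl⟩ : Flag P L) ⟨(a', b'), hab'⟩ = 0 := by omega
        rw [flagD_eq_zero] at f1 f2
        have g1 : p = a := congrArg (fun z : Flag P L => z.1.1) f1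
        have g2 : l = b' := congrArg (fun z : Flag P L => z.1.2) f2
        exact (flagD_eq_one.1 h1).1 (by simp only [g1, g2])
      · obtain ⟨k1, k2, k3⟩ := flagD_eq_two.1 h2
        have f1 : flagD (⟨(p, l), hpl⟩ : Flag P L) ⟨(a, b), hab⟩ = 1 := by omega
        have f2 : flagD (⟨(p, l), hpl⟩ : Flag P L) ⟨(a', b'), hab'⟩ = 1 := by omega
        obtain ⟨-, f1⟩ := flagD_eq_one.1 f1
        obtain ⟨-, f2⟩ := flagD_eq_one.1 f2
        have f1' : l = b := f1.resolve_left k1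
        have f2' : p = a' := f2.resolve_right k2
        subst f1' f2'
        have : p ∈ b' := hab'
        have : a ∈ l := hab
        rcases huniq p a l b' hpl hab hab' hpl' with h | h
        · exact k1 h
        · exact k2 h
    rcases K with K | K <;> rcases K' with K' | K'
    · have h1 : p' = K := hK
      have h2 : p' = K' := hK'
      rw [← h1, ← h2]
    · have h1 : p' = K := hK
      have h2 : l' = K' := hK'
      subst h1 h2
      exact (key g g' hg1 hg1' hg2 hg2').elim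
    · have h1 : l' = K := hK
      have h2 : p' = K' := hK'
      subst h1 h2
      exact (key g' g hg1' hg1 hg2' hg2).elim
    · have h1 : l' = K := hK
      have h2 : l' = K' := hK'
      rw [← h1, ← h2]
  · rintro ⟨⟨p, l⟩, hpl⟩ ⟨⟨p', l'⟩, hpl'⟩ h
    obtain ⟨-, h⟩ := flagD_eq_one.1 h
    rcases h with h | h
    · exact ⟨Sum.inl p, rfl, h.symm⟩
    · exact ⟨Sum.inr l, rfl, h.symm⟩

end flag

theorem FH.semifinite {P₀ L₀ : Type} [Finite P₀] [Finite L₀] [Nonempty P₀] {I₀ : P₀ → L₀ → Prop}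
    {d : P₀ → P₀ → ℕ} (H : FH I₀ d) {s : ℕ} (hs : Nat.card P₀ + 4 ≤ s) :
    ∃ (P L : Type) (I : P → L → Prop), (HexGraph.IG I).ediam = 6 ∧ (HexGraph.IG I).egirth = 12 ∧
      (∀ l, {p | I p l}.Finite ∧ {p | I p l}.ncard = s + 1) ∧ (∀ p, {l | I p l}.Infinite) ∧
      ∃ (φ : P₀ → P) (ψ : L₀ → L), Function.Injective φ ∧ Function.Injective ψ ∧
        ∀ p l, I (φ p) (ψ l) ↔ I₀ p l := by
  obtain ⟨L, δ, HL, φ, ψ, h1, h2, h3⟩ := H.embed hs
  refine ⟨ℕ, {K // K ∈ L}, inc L, HL.ediam (by omega), HL.egirth (by omega), ?_, ?_, φ, ψ, h1,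
    h2, h3⟩
  · intro l
    have h1 : {p : ℕ | inc L p l} = (l.1 : Set ℕ) := rfl
    rw [h1]
    refine ⟨l.1.finite_toSet, ?_⟩
    rw [Set.ncard_coe_finset, HL.card l.1 l.2]
  · intro p hfin
    apply HL.inf p
    have h2 : {K | K ∈ L ∧ p ∈ K} = Subtype.val '' {l : {K // K ∈ L} | inc L p l} := by
      ext K
      constructor
      · rintro ⟨hK, hp⟩
        exact ⟨⟨K, hK⟩, hp, rfl⟩
      · rintro ⟨l, hl, rfl⟩
        exact ⟨l.2, hl⟩
    rw [h2]
    exact hfin.image _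

end Pool.Agent.W290.Fr
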