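import Pool.Agent.W290.FrBase

set_option autoImplicit false

/-!
# Free construction of hexagons with finite lines: graph theoretic generalized hexagons
-/

namespace Pool.Agent.W290.Fr

open SimpleGraph Pool.Agent.W290.HexGraph

theorem nonempty_points {P L : Type} (I : P → L → Prop) (hdiam : (IG I).ediam = 6) :
    Nonempty P := by
  have h0 : (IG I).ediam ≠ 0 := by rw [hdiam]; exact_mod_cast (by norm_num : (6 : ℕ) ≠ 0)
  have htop : (IG I).ediam ≠ ⊤ := by rw [hdiam]; exact ENat.natCast_ne_top 6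
  have hnt : Nontrivial (P ⊕ L) := nontrivial_of_ediam_ne_zero h0
  have hpre := preconnected_of_ediam_ne_top htop
  obtain ⟨x, y, hxy⟩ := exists_pair_ne (P ⊕ L)
  obtain ⟨w⟩ := hpre x y
  have hnil : ¬ w.Nil := fun h => hxy h.eq
  have hadj := w.adj_snd hnil
  rcases x with p | K
  · exact ⟨p⟩
  · rcases hs : w.snd with q | M
    · exact ⟨q⟩
    · rw [hs] at hadj
      exact absurd hadj (not_adj_rr I)

theorem fh_of_graph {P L : Type} (I : P → L → Prop) (hdiam : (IG I).ediam = 6)
    (hgirth : (IG I).egirth = 12) : ∃ d : P → P → ℕ, FH I d := by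
  classical
  have hne : Nonempty P := nonempty_points I hdiam
  have htop : (IG I).ediam ≠ ⊤ := by rw [hdiam]; exact ENat.natCast_ne_top 6
  have hconn : (IG I).Connected := connected_of_ediam_ne_top htop
  have hle : ∀ x y, (IG I).dist x y ≤ 6 := by
    intro x y
    have h1 : (IG I).edist x y ≤ 6 := hdiam ▸ edist_le_ediam
    have h2 := ENat.toNat_le_toNat h1 (ENat.natCast_ne_top 6)
    exact h2
  have hg : ∀ k : ℕ, k < 6 → ((2 * k : ℕ) : ℕ∞) < (IG I).egirth := by
    intro k hk
    rw [hgirth]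
    have : 2 * k < 12 := by omega
    exact_mod_cast this
  set D : P → P → ℕ := fun x y => (IG I).dist (Sum.inl x) (Sum.inl y) with hD
  set E : P → L → ℕ := fun x K => (IG I).dist (Sum.inl x) (Sum.inr K) with hE
  have hDle : ∀ x y, D x y ≤ 6 := fun x y => hle _ _
  have hElt : ∀ x K, E x K ≤ 5 := by
    intro x K
    have h1 : E x K ≤ 6 := hle _ _
    have h2 : Odd (E x K) := odd_pl I hconn x K
    obtain ⟨k, hk⟩ := h2
    omega
  have hDe : ∀ x y, ∃ k, D x y = 2 * k := by
    intro x y
    obtain ⟨k, hk⟩ := even_pp I hconn x y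
    exact ⟨k, by simp only [hD]; omega⟩
  have hEo : ∀ x K, ∃ k, E x K = 2 * k + 1 := by
    intro x K
    exact odd_pl I hconn x K
  have hDz : ∀ x y, D x y = 0 ↔ x = y := by
    intro x y
    simp only [hD]
    rw [hconn.dist_eq_zero_iff]
    simp
  have hDs : ∀ x y, D x y = D y x := fun x y => (IG I).dist_comm
  have hstep : ∀ x y K, I y K → (D x y + 1 = E x K ∨ E x K + 1 = D x y) := by
    intro x y K hy
    have hadj : (IG I).Adj (Sum.inl y) (Sum.inr K) := (adj_lr I).2 hy
    have h1 := hconn.dist_triangle (u := Sum.inl x) (v := Sum.inl y) (w := Sum.inr K)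
    have h2 := hconn.dist_triangle (u := Sum.inl x) (v := Sum.inr K) (w := Sum.inl y)
    rw [(SimpleGraph.dist_eq_one_iff_adj).2 hadj] at h1
    rw [(SimpleGraph.dist_eq_one_iff_adj).2 hadj.symm] at h2
    obtain ⟨k, hk⟩ := hDe x y
    obtain ⟨l, hl⟩ := hEo x K
    simp only [hD, hE] at *
    omega
  have hproj : ∀ x K, ∃ y, I y K ∧ D x y + 1 = E x K := by
    intro x K
    obtain ⟨a, ha, hda⟩ := exists_pred hconn (u := Sum.inl x) (v := Sum.inr K) (by simp)
    rcases a with a | a
    · exact ⟨a, (adj_lr I).1 ha, hda⟩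
    · exact absurd ha (not_adj_rr I)
  choose proj hp1 hp2 using hproj
  have hfar : ∀ x K y, I y K → y ≠ proj x K → E x K + 1 = D x y := by
    intro x K y hy hne
    rcases hstep x y K hy with h | h
    · exfalso
      apply hne
      have := pred_unique hconn (u := Sum.inl x) (v := Sum.inr K) (a := Sum.inl y)
        (b := Sum.inl (proj x K)) ((adj_lr I).2 hy) ((adj_lr I).2 (hp1 x K)) h (hp2 x K)
        (hg _ (by have := hElt x K; simp only [hE] at this; omega))
      exact Sum.inl_injective this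
    · exact h
  have hhalf : ∀ x y, D x y = 2 * (D x y / 2) := by
    intro x y
    obtain ⟨k, hk⟩ := hDe x y
    omega
  refine ⟨fun x y => D x y / 2, ⟨?_, ?_, ?_, ?_, ?_, ?_⟩⟩
  · intro x y
    simp only [hDs x y]
  · intro x y
    rw [← hDz x y]
    have := hhalf x y
    omega
  · intro x y
    have := hDle x y
    omega
  · intro x K
    refine ⟨proj x K, hp1 x K, ?_, ?_⟩
    · have := hp2 x K
      have := hElt x K
      omega
    · intro u hu hne
      have h1 := hfar x K u hu hne
      have h2 := hp2 x K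
      omega
  · rintro x y hle2 K K' hy hy' ⟨g, hg1, hg2⟩ ⟨g', hg1', hg2'⟩
    have a1 := hhalf x y
    have a2 := hhalf x g
    have a3 := hhalf x g'
    have key : ∀ K, I y K → ∀ g, I g K → D x g + 2 = D x y → E x K + 1 = D x y := by
      intro K hy g hg h
      have h1 := hstep x y K hy
      have h2 := hstep x g K hg
      omega
    have b1 := key K hy g hg1 (by omega)
    have b2 := key K' hy' g' hg1' (by omega)
    have := pred_unique hconn (u := Sum.inl x) (v := Sum.inl y) (a := Sum.inr K)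
      (b := Sum.inr K') ((adj_rl I).2 hy) ((adj_rl I).2 hy') b1 b2
      (hg _ (by simp only [hD] at hle2 a1; omega))
    exact Sum.inr_injective this
  · intro x y h1
    have a1 := hhalf x y
    have hne' : x ≠ y := by
      rintro rfl
      have := (hDz x x).2 rfl
      omega
    obtain ⟨a, ha, hda⟩ := exists_pred hconn (u := Sum.inl x) (v := Sum.inl y)
      (fun h => hne' (Sum.inl_injective h))
    rcases a with a | a
    · exact absurd ha (not_adj_ll I)
    · refine ⟨a, ?_, (adj_rl I).1 ha⟩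
      have h3 : (IG I).dist (Sum.inl x) (Sum.inr a) = 1 := by
        simp only [hD] at a1 h1
        omega
      exact (adj_lr I).1 ((SimpleGraph.dist_eq_one_iff_adj).1 h3)

/-- **Every finite generalized hexagon is a subgeometry of a semi-finite one.** -/
theorem embed_hexagon {P₀ L₀ : Type} [Finite P₀] [Finite L₀] (I₀ : P₀ → L₀ → Prop)
    (hdiam : (IG I₀).ediam = 6) (hgirth : (IG I₀).egirth = 12) {s : ℕ}
    (hs : Nat.card P₀ + 4 ≤ s) :
    ∃ (P L : Type) (I : P → L → Prop), (IG I).ediam = 6 ∧ (IG I).egirth = 12 ∧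
      (∀ l, {p | I p l}.Finite ∧ {p | I p l}.ncard = s + 1) ∧ (∀ p, {l | I p l}.Infinite) ∧
      ∃ (φ : P₀ → P) (ψ : L₀ → L), Function.Injective φ ∧ Function.Injective ψ ∧
        ∀ p l, I (φ p) (ψ l) ↔ I₀ p l := by
  have hne : Nonempty P₀ := nonempty_points I₀ hdiam
  obtain ⟨d, H⟩ := fh_of_graph I₀ hdiam hgirth
  obtain ⟨L, δ, HL, φ, ψ, h1, h2, h3⟩ := H.embed hs
  refine ⟨ℕ, {K // K ∈ L}, inc L, HL.ediam (by omega), HL.egirth (by omega), ?_, ?_, φ, ψ, h1,
    h2, h3⟩
  · intro l
    have h1 : {p : ℕ | inc L p l} = (l.1 : Set ℕ) := rfl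
    rw [h1]
    refine ⟨l.1.finite_toSet, ?_⟩
    rw [Set.ncard_coe_finset, HL.card l.1 l.2]
  · intro p hfin
    apply HL.inf p
    have h2 : {K | K ∈ L ∧ p ∈ K} = Subtype.val '' {l : {K // K ∈ L} | inc L p l} := by
      ext K
      constructor
      · rintro ⟨hK, hp⟩
        exact ⟨⟨K, hK⟩, hp, rfl⟩
      · rintro ⟨l, hl, rfl⟩
        exact ⟨l.2, hl⟩
    rw [h2]
    exact hfin.image _

end Pool.Agent.W290.Fr
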