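import Mathlib

set_option autoImplicit false

namespace Pool.Agent.W290.HexAbs

/-- Point-line geometry with the distance data of a hexagon, three points per line. -/
structure Hex (P L : Type*) where
  I : P → L → Prop
  d : P → P → ℕ
  proj : P → L → P
  tow : P → P → L
  d_symm : ∀ x y, d x y = d y x
  d_le : ∀ x y, d x y ≤ 3
  d_zero : ∀ x y, d x y = 0 ↔ x = y
  proj_mem : ∀ x K, I (proj x K) K
  proj_le : ∀ x K, d x (proj x K) ≤ 2
  proj_far : ∀ x K y, I y K → y ≠ proj x K → d x y = d x (proj x K) + 1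
  tow_mem : ∀ x y, x ≠ y → d x y ≤ 2 → I y (tow x y)
  tow_ne : ∀ x y, x ≠ y → d x y ≤ 2 → proj x (tow x y) ≠ y
  tow_uniq : ∀ x y K, x ≠ y → d x y ≤ 2 → I y K → proj x K ≠ y → K = tow x y
  three : ∀ K, {x | I x K}.ncard = 3
  opp_ex : ∀ x, ∃ y, d x y = 3

namespace Hex

variable {P L : Type*} (H : Hex P L)

lemma d_self (x : P) : H.d x x = 0 := (H.d_zero x x).2 rfl

lemma ne_of_pos {x y : P} (h : 0 < H.d x y) : x ≠ y := by
  rintro rfl
  rw [H.d_self] at h
  exact absurd h (lt_irrefl _)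

/-- the nearest point is characterised -/
lemma eq_proj {x y z : P} {K : L} (hy : H.I y K) (hz : H.I z K) (h : H.d x y < H.d x z) :
    y = H.proj x K := by
  by_contra hne
  have h1 := H.proj_far x K y hy hne
  by_cases hz' : z = H.proj x K
  · rw [← hz'] at h1; omega
  · have h2 := H.proj_far x K z hz hz'
    omega

lemma proj_self {x : P} {K : L} (hx : H.I x K) : H.proj x K = x := by
  by_contra hne
  have h1 := H.proj_far x K x hx (Ne.symm hne)
  rw [H.d_self] at h1
  omega

lemma d_line {x y : P} {K : L} (hx : H.I x K) (hy : H.I y K) (hne : x ≠ y) : H.d x y = 1 := by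
  have h := H.proj_far x K y hy (by rw [H.proj_self hx]; exact hne.symm)
  rw [H.proj_self hx, H.d_self] at h
  omega

lemma tri {x y z : P} {K : L} (hy : H.I y K) (hz : H.I z K) : H.d x y ≤ H.d x z + 1 := by
  by_cases hyp : y = H.proj x K
  · by_cases hzp : z = H.proj x K
    · rw [hyp, ← hzp]; omega
    · have := H.proj_far x K z hz hzp
      rw [← hyp] at this; omega
  · have h1 := H.proj_far x K y hy hyp
    by_cases hzp : z = H.proj x K
    · rw [← hzp] at h1; omega
    · have := H.proj_far x K z hz hzp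
      omega

/-- points at distance one are on a common line -/
lemma line_of_d1 {x y : P} (h : H.d x y = 1) : ∃ K, H.I x K ∧ H.I y K := by
  have hne : x ≠ y := H.ne_of_pos (by omega)
  have h1 := H.tow_mem x y hne (by omega)
  have h2 := H.tow_ne x y hne (by omega)
  have h3 := H.proj_far x _ y h1 (Ne.symm h2)
  have h4 : H.d x (H.proj x (H.tow x y)) = 0 := by omega
  have h5 := (H.d_zero _ _).1 h4
  refine ⟨H.tow x y, ?_, h1⟩
  have := H.proj_mem x (H.tow x y)
  rwa [← h5] at this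

lemma tri' {x y z : P} (h : H.d y z ≤ 1) : H.d x y ≤ H.d x z + 1 := by
  rcases Nat.lt_or_ge (H.d y z) 1 with h0 | h0
  · have : y = z := (H.d_zero _ _).1 (by omega)
    rw [this]; omega
  · obtain ⟨K, hy, hz⟩ := H.line_of_d1 (x := y) (y := z) (by omega)
    exact H.tri hy hz

/-- two points are on at most one common line -/
lemma line_unique {x y : P} {K K' : L} (hne : x ≠ y) (hx : H.I x K) (hy : H.I y K)
    (hx' : H.I x K') (hy' : H.I y K') : K = K' := by
  have h1 := H.d_line hx hy hne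
  rw [H.tow_uniq x y K hne (by omega) hy (by rw [H.proj_self hx]; exact hne),
    H.tow_uniq x y K' hne (by omega) hy' (by rw [H.proj_self hx']; exact hne)]

/-- the unique line toward x: uniqueness in distance form -/
lemma tow_eq {x y z : P} {K : L} (hz : H.I z K) (hy : H.I y K) (h : H.d x z < H.d x y)
    (h2 : H.d x y ≤ 2) : K = H.tow x y := by
  have hz' := H.eq_proj hz hy h
  refine H.tow_uniq x y K (H.ne_of_pos (by omega)) h2 hy ?_
  rw [← hz']
  rintro rfl
  omega

/-- in a line with three points -/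
lemma two_set {p a b c : P} {K : L} (hp : H.I p K) (ha : H.I a K) (hb : H.I b K) (hc : H.I c K)
    (hap : a ≠ p) (hbp : b ≠ p) (hcp : c ≠ p) (hab : a ≠ b) (hbc : b ≠ c) : a = c := by
  by_contra hac
  have h3 := H.three K
  have hfin : {x | H.I x K}.Finite := Set.finite_of_ncard_ne_zero (by rw [h3]; norm_num)
  have hsub : ({p, a, b, c} : Set P) ⊆ {x | H.I x K} := by
    intro x hx
    simp only [Set.mem_insert_iff, Set.mem_singleton_iff] at hx
    rcases hx with rfl | rfl | rfl | rfl <;> assumption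
  have h4 : ({p, a, b, c} : Set P).ncard = 4 := by
    classical
    have : ({p, a, b, c} : Set P) = (({p, a, b, c} : Finset P) : Set P) := by simp
    rw [this, Set.ncard_coe_finset]
    rw [Finset.card_insert_of_notMem, Finset.card_insert_of_notMem, Finset.card_insert_of_notMem,
      Finset.card_singleton]
    · simp [hbc]
    · simp [hab, hac]
    · simp [hap.symm, hbp.symm, hcp.symm]
  have := Set.ncard_le_ncard hsub hfin
  omega

lemma third {a b : P} {K : L} (_ha : H.I a K) (_hb : H.I b K) (hab : a ≠ b) :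
    ∃ c, H.I c K ∧ c ≠ a ∧ c ≠ b := by
  by_contra hcon
  push Not at hcon
  have hsub : {x | H.I x K} ⊆ ({a, b} : Set P) := by
    intro x hx
    by_cases hxa : x = a
    · simp [hxa]
    · have := hcon x hx hxa
      simp [this]
  have h2 : ({a, b} : Set P).ncard = 2 := Set.ncard_pair hab
  have := Set.ncard_le_ncard hsub (by simp)
  have h3 := H.three K
  omega

/-! opposite points -/

lemma opp_proj_ne {p y : P} (h : H.d p y = 3) {K : L} (hy : H.I y K) :
    H.proj p K ≠ y ∧ H.d p (H.proj p K) = 2 := by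
  have hle := H.proj_le p K
  have hne : y ≠ H.proj p K := by
    intro he
    rw [← he] at hle
    omega
  have := H.proj_far p K y hy hne
  exact ⟨hne.symm, by omega⟩

lemma flip {p y y' : P} {K M : L} (hy : H.d p y = 3) (hy' : H.d p y' = 3) (hK : H.I y K)
    (hK' : H.I y' K) (hne : y ≠ y') (hM : H.I p M) (hc : M ≠ H.tow (H.proj p K) p) :
    H.proj y M ≠ H.proj y' M := by
  intro he
  obtain ⟨hg1, hg2⟩ := H.opp_proj_ne hy hK
  set g := H.proj p K with hg
  have hgK : H.I g K := H.proj_mem p K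
  have hgp : g ≠ p := by
    rintro h
    rw [h, H.d_self] at hg2
    omega
  have hdgp : H.d g p = 2 := by rw [H.d_symm]; exact hg2
  have hpg : H.proj g M = p := by
    by_contra hpne
    exact hc (H.tow_uniq g p M hgp (by omega) hM hpne)
  obtain ⟨hx1, hx2⟩ := H.opp_proj_ne (p := y) (y := p) (by rw [H.d_symm]; exact hy) hM
  obtain ⟨hx1', hx2'⟩ := H.opp_proj_ne (p := y') (y := p) (by rw [H.d_symm]; exact hy') hM
  set x := H.proj y M with hx
  have hxM : H.I x M := H.proj_mem y M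
  rw [← he] at hx2'
  have hgx : H.d g x = 3 := by
    have := H.proj_far g M x hxM (by rw [hpg]; exact hx1)
    rw [hpg] at this
    omega
  have h1 : y = H.proj x K := H.eq_proj hK hgK (by rw [H.d_symm x y, H.d_symm x g]; omega)
  have h2 : y' = H.proj x K := H.eq_proj hK' hgK (by rw [H.d_symm x y', H.d_symm x g]; omega)
  exact hne (h1.trans h2.symm)

lemma keep {p y : P} {K M : L} (hy : H.d p y = 3) (hK : H.I y K) (hM : H.I p M)
    (hc : M = H.tow (H.proj p K) p) :
    H.proj y M = H.proj (H.proj p K) M := by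
  obtain ⟨hg1, hg2⟩ := H.opp_proj_ne hy hK
  set g := H.proj p K with hg
  have hgK : H.I g K := H.proj_mem p K
  have hgp : g ≠ p := by
    rintro h
    rw [h, H.d_self] at hg2
    omega
  have hdgp : H.d g p = 2 := by rw [H.d_symm]; exact hg2
  have hx1 : H.proj g M ≠ p := by rw [hc]; exact H.tow_ne g p hgp (by omega)
  set x := H.proj g M with hx
  have hxM : H.I x M := H.proj_mem g M
  have hgx : H.d g x = 1 := by
    have := H.proj_far g M p hM hx1.symm
    rw [← hx] at this
    omega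
  have hyg : H.d y g = 1 := H.d_line hK hgK hg1.symm
  have hyx : H.d x y ≤ H.d x g + 1 := H.tri' (by omega)
  symm
  refine H.eq_proj hxM hM ?_
  rw [H.d_symm y x, H.d_symm y p]
  rw [H.d_symm x g] at hyx
  omega

/-- keep, for two points of the line -/
lemma keep2 {p y y' : P} {K M : L} (hy : H.d p y = 3) (hy' : H.d p y' = 3) (hK : H.I y K)
    (hK' : H.I y' K) (hM : H.I p M) (hc : M = H.tow (H.proj p K) p) :
    H.proj y M = H.proj y' M := by
  rw [H.keep hy hK hM hc, H.keep hy' hK' hM hc]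

lemma color_mem {p y : P} {K : L} (hy : H.d p y = 3) (hK : H.I y K) :
    H.I p (H.tow (H.proj p K) p) := by
  obtain ⟨hg1, hg2⟩ := H.opp_proj_ne hy hK
  refine H.tow_mem _ _ ?_ ?_
  · intro h; rw [h, H.d_self] at hg2; omega
  · rw [H.d_symm]; omega

lemma color_inj {p y : P} {K K' : L} (hy : H.d p y = 3) (hK : H.I y K) (hK' : H.I y K')
    (h : H.tow (H.proj p K) p = H.tow (H.proj p K') p) : K = K' := by
  have key : ∀ K, H.I y K → K = H.tow (H.proj y (H.tow (H.proj p K) p)) y := by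
    intro K hK
    have hM := H.color_mem hy hK
    have hk := H.keep hy hK hM rfl
    obtain ⟨hg1, hg2⟩ := H.opp_proj_ne hy hK
    obtain ⟨hx1, hx2⟩ := H.opp_proj_ne (p := y) (y := p) (by rw [H.d_symm]; exact hy) hM
    set g := H.proj p K with hg
    have hgK : H.I g K := H.proj_mem p K
    set M := H.tow g p with hMdef
    set x := H.proj y M with hx
    have hxM : H.I x M := H.proj_mem y M
    have hgp : H.d g p = 2 := by rw [H.d_symm]; exact hg2
    have hgx : H.d g x = 1 := by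
      have := H.proj_far g M p hM (by rw [← hk]; exact hx1.symm)
      rw [← hk] at this
      omega
    refine H.tow_eq hgK hK ?_ ?_
    · rw [H.d_symm x g, H.d_symm x y]; omega
    · rw [H.d_symm x y]; omega
  rw [key K hK, key K' hK', h]

lemma color_surj {p y : P} {M : L} (hy : H.d p y = 3) (hM : H.I p M) :
    ∃ K, H.I y K ∧ H.tow (H.proj p K) p = M := by
  obtain ⟨hx1, hx2⟩ := H.opp_proj_ne (p := y) (y := p) (by rw [H.d_symm]; exact hy) hM
  set x := H.proj y M with hx
  have hxM : H.I x M := H.proj_mem y M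
  have hxy : x ≠ y := by rintro h; rw [h, H.d_self] at hx2; omega
  have hdxy : H.d x y = 2 := by rw [H.d_symm]; exact hx2
  have hK := H.tow_mem x y hxy (by omega)
  have hne := H.tow_ne x y hxy (by omega)
  set K := H.tow x y with hKdef
  set g := H.proj x K with hg
  have hgK : H.I g K := H.proj_mem x K
  have hxg : H.d x g = 1 := by
    have := H.proj_far x K y hK hne.symm
    rw [← hg] at this
    omega
  have hxp : H.d x p = 1 := H.d_line hxM hM hx1
  have hgp : H.d g p ≤ 2 := by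
    have := H.tri' (x := g) (y := p) (z := x) (by rw [H.d_symm]; omega)
    rw [H.d_symm g x] at this
    omega
  have hgpK : g = H.proj p K := H.eq_proj hgK hK (by rw [H.d_symm p g]; omega)
  refine ⟨K, hK, ?_⟩
  rw [← hgpK]
  symm
  refine H.tow_eq hxM hM ?_ hgp
  rw [H.d_symm g x]
  have h3 : H.d p g = 2 := by
    rw [hgpK]; exact (H.opp_proj_ne hy hK).2
  rw [H.d_symm g p]
  omega

lemma step {p y : P} {M : L} (hy : H.d p y = 3) (hM : H.I p M) :
    ∃ K y', H.I y K ∧ H.I y' K ∧ y ≠ y' ∧ H.d p y' = 3 ∧ H.tow (H.proj p K) p = M := by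
  obtain ⟨K, hK, hc⟩ := H.color_surj hy hM
  obtain ⟨hg1, hg2⟩ := H.opp_proj_ne hy hK
  obtain ⟨y', h1, h2, h3⟩ := H.third hK (H.proj_mem p K) hg1.symm
  refine ⟨K, y', hK, h1, h2.symm, ?_, hc⟩
  have := H.proj_far p K y' h1 h3
  omega

/-- the parity rule for paths of length three -/
lemma par3 {q w0 w1 w2 w3 : P} {K1 K2 K3 : L} (h0 : H.d q w0 = 3) (h1 : H.d q w1 = 3)
    (h2 : H.d q w2 = 3) (h3 : H.d q w3 = 3) (n1 : w0 ≠ w1) (n2 : w1 ≠ w2) (n3 : w2 ≠ w3)
    (a1 : H.I w0 K1) (b1 : H.I w1 K1) (a2 : H.I w1 K2) (b2 : H.I w2 K2) (a3 : H.I w2 K3)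
    (b3 : H.I w3 K3) {M : L} (hM : H.I q M)
    (c1 : M ≠ H.tow (H.proj q K1) q) (c2 : M ≠ H.tow (H.proj q K2) q)
    (c3 : M ≠ H.tow (H.proj q K3) q) : H.proj w0 M ≠ H.proj w3 M := by
  have f1 := H.flip h0 h1 a1 b1 n1 hM c1
  have f2 := H.flip h1 h2 a2 b2 n2 hM c2
  have f3 := H.flip h2 h3 a3 b3 n3 hM c3
  have e : ∀ w, H.d q w = 3 → H.proj w M ≠ q := fun w hw =>
    (H.opp_proj_ne (p := w) (y := q) (by rw [H.d_symm]; exact hw) hM).1
  have := H.two_set hM (H.proj_mem w0 M) (H.proj_mem w1 M) (H.proj_mem w2 M) (e _ h0) (e _ h1)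
    (e _ h2) f1 f2
  rw [this]
  exact f3

/-- at most three lines at `q` on which `w0` and `w3` have the same projection -/
lemma agree3 {q w0 w1 w2 w3 : P} {K1 K2 K3 : L} (h0 : H.d q w0 = 3) (h1 : H.d q w1 = 3)
    (h2 : H.d q w2 = 3) (h3 : H.d q w3 = 3) (n1 : w0 ≠ w1) (n2 : w1 ≠ w2) (n3 : w2 ≠ w3)
    (a1 : H.I w0 K1) (b1 : H.I w1 K1) (a2 : H.I w1 K2) (b2 : H.I w2 K2) (a3 : H.I w2 K3)
    (b3 : H.I w3 K3) : {M | H.I q M ∧ H.proj w0 M = H.proj w3 M}.encard ≤ 3 := by
  have hsub : {M | H.I q M ∧ H.proj w0 M = H.proj w3 M} ⊆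
      {H.tow (H.proj q K1) q, H.tow (H.proj q K2) q, H.tow (H.proj q K3) q} := by
    rintro M ⟨hM, he⟩
    by_contra hcon
    simp only [Set.mem_insert_iff, Set.mem_singleton_iff, not_or] at hcon
    exact H.par3 h0 h1 h2 h3 n1 n2 n3 a1 b1 a2 b2 a3 b3 hM hcon.1 hcon.2.1 hcon.2.2 he
  refine (Set.encard_le_encard hsub).trans ?_
  refine (Set.encard_insert_le _ _).trans ?_
  refine (add_le_add_left (Set.encard_insert_le _ _) 1).trans ?_
  rw [Set.encard_singleton]
  norm_num

/-! the main argument -/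

lemma typeA_map {p y z : P} {c1 c2 c3 : L} (hy : H.d p y = 3) (hz : H.d p z = 3)
    (hyz : H.d y z = 3)
    (hD : ∀ M, H.I p M → M ≠ c1 → M ≠ c2 → M ≠ c3 → H.proj y M ≠ H.proj z M)
    (hA : ∀ M, H.I p M → (M = c1 ∨ M = c2 ∨ M = c3) → H.proj y M = H.proj z M)
    (m1 : H.I p c1) (m2 : H.I p c2) (n12 : c1 ≠ c2) {N : L} (hN : H.I z N)
    (hc1 : H.tow (H.proj p N) p ≠ c1) (hc2 : H.tow (H.proj p N) p ≠ c2)
    (hc3 : H.tow (H.proj p N) p ≠ c3) (hne : H.proj y N ≠ H.proj p N) :
    H.proj z (H.tow (H.proj y N) y) = H.proj p (H.tow (H.proj y N) y) := by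
  obtain ⟨q1, q2⟩ := H.opp_proj_ne hyz hN
  have hqN := H.proj_mem y N
  have hK := H.color_mem hyz hN
  have hu := H.keep hyz hN hK rfl
  have hpq : H.d p (H.proj y N) = 3 := by
    have := H.proj_far p N _ hqN hne
    have h2 := (H.opp_proj_ne hz hN).2
    omega
  have hcM := H.color_mem hz hN
  set q := H.proj y N with hq
  set K := H.tow q y with hKdef
  obtain ⟨u1, u2⟩ := H.opp_proj_ne (p := z) (y := y) (by rw [H.d_symm]; exact hyz) hK
  have huK := H.proj_mem z K
  have dqu : H.d q (H.proj z K) = 1 := by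
    have h1 := H.proj_far q K y hK (by rw [← hu]; exact u1.symm)
    rw [← hu, H.d_symm q y] at h1
    omega
  set u := H.proj z K with hudef
  by_contra hcon
  have hpu : H.d p u = 3 := by
    have := H.proj_far p K u huK hcon
    have h2 := (H.opp_proj_ne hy hK).2
    omega
  obtain ⟨M, hqM, huM⟩ := H.line_of_d1 dqu
  set c := H.tow (H.proj p N) p with hcdef
  have hquv : q ≠ u := H.ne_of_pos (by omega)
  have hbc : c ≠ H.tow (H.proj p M) p := by
    intro hbc
    have hMN : M = N := H.color_inj hpq hqM hqN hbc.symm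
    rw [hMN] at huM
    have h1 : H.d y u = 1 := H.d_line hK huK u1.symm
    have h2 := H.eq_proj (x := y) huM hqN (by omega)
    rw [← hq] at h2
    exact hquv h2.symm
  have hopp : ∀ w, H.d p w = 3 → ∀ e, H.I p e → H.proj w e ≠ p := fun w hw e he =>
    (H.opp_proj_ne (p := w) (y := p) (by rw [H.d_symm]; exact hw) he).1
  by_cases hac : c = H.tow (H.proj p K) p
  · have key : ∀ e, H.I p e → (e = c1 ∨ e = c2 ∨ e = c3) → H.tow (H.proj p M) p = e := by
      intro e he hCI
      by_contra hbe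
      have hec : e ≠ c := by
        rintro rfl
        rcases hCI with h | h | h
        · exact hc1 h
        · exact hc2 h
        · exact hc3 h
      have f1 := H.flip hy hpu hK huK u1.symm he (by rw [← hac]; exact hec)
      have f2 := H.flip hpu hpq huM hqM hquv.symm he (Ne.symm hbe)
      have f3 := H.flip hpq hz hqN hN q1 he hec
      have h4 := H.two_set he (H.proj_mem y e) (H.proj_mem u e) (H.proj_mem q e)
        (hopp _ hy e he) (hopp _ hpu e he) (hopp _ hpq e he) f1 f2
      have h5 := hA e he hCI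
      rw [h4] at h5
      exact f3 h5
    exact n12 ((key c1 m1 (Or.inl rfl)).symm.trans (key c2 m2 (Or.inr (Or.inl rfl))))
  · have f1 := H.flip hy hpu hK huK u1.symm hcM hac
    have f2 := H.flip hpu hpq huM hqM hquv.symm hcM hbc
    have f3 := H.keep2 hpq hz hqN hN hcM hcdef
    have h4 := H.two_set hcM (H.proj_mem y c) (H.proj_mem u c) (H.proj_mem q c)
        (hopp _ hy c hcM) (hopp _ hpu c hcM) (hopp _ hpq c hcM) f1 f2
    exact hD c hcM hc1 hc2 hc3 (h4.trans f3)

lemma typeA_count {p y z : P} {c1 c2 c3 : L} (hy : H.d p y = 3) (hz : H.d p z = 3)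
    (hyz : H.d y z = 3)
    (hD : ∀ M, H.I p M → M ≠ c1 → M ≠ c2 → M ≠ c3 → H.proj y M ≠ H.proj z M)
    (hA : ∀ M, H.I p M → (M = c1 ∨ M = c2 ∨ M = c3) → H.proj y M = H.proj z M)
    (m1 : H.I p c1) (m2 : H.I p c2) (n12 : c1 ≠ c2) :
    {N | H.I z N ∧ (H.tow (H.proj p N) p ≠ c1 ∧ H.tow (H.proj p N) p ≠ c2 ∧
      H.tow (H.proj p N) p ≠ c3) ∧ H.proj y N ≠ H.proj p N}.encard ≤ 3 := by
  set A := {N | H.I z N ∧ (H.tow (H.proj p N) p ≠ c1 ∧ H.tow (H.proj p N) p ≠ c2 ∧
      H.tow (H.proj p N) p ≠ c3) ∧ H.proj y N ≠ H.proj p N} with hAdef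
  rcases Set.eq_empty_or_nonempty A with h | ⟨N, hN, ⟨hc1, hc2, hc3⟩, hne⟩
  · rw [h]; simp
  have hT : {K | H.I y K ∧ H.proj z K = H.proj p K}.encard ≤ 3 := by
    obtain ⟨g1, g2⟩ := H.opp_proj_ne hz hN
    have hhN := H.proj_mem p N
    have hcM := H.color_mem hz hN
    have hk := H.keep hz hN hcM rfl
    have hyh : H.d y (H.proj p N) = 3 := by
      have := H.proj_far y N _ hhN hne.symm
      have h2 := (H.opp_proj_ne hyz hN).2
      omega
    set h := H.proj p N with hh
    set c := H.tow h p with hcdef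
    have hD' := hD c hcM hc1 hc2 hc3
    obtain ⟨v1, v2⟩ := H.opp_proj_ne (p := z) (y := p) (by rw [H.d_symm]; exact hz) hcM
    have hyv : H.d y (H.proj z c) = 3 := by
      have := H.proj_far y c _ (H.proj_mem z c) hD'.symm
      have h2 := (H.opp_proj_ne (p := y) (y := p) (by rw [H.d_symm]; exact hy) hcM).2
      omega
    have hhv : H.d h (H.proj z c) = 1 := by
      have := H.proj_far h c p hcM (by rw [← hk]; exact v1.symm)
      rw [← hk, H.d_symm h p] at this
      omega
    have hvc := H.proj_mem z c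
    set v := H.proj z c with hv
    obtain ⟨M, hM1, hM2⟩ := H.line_of_d1 hhv
    exact H.agree3 (q := y) (w0 := z) (w1 := h) (w2 := v) (w3 := p) hyz hyh hyv
      (by rw [H.d_symm]; exact hy) g1.symm (H.ne_of_pos (by omega)) v1 hN hhN hM1 hM2 hvc hcM
  refine le_trans ?_ hT
  refine Set.encard_le_encard_of_injOn (f := fun N => H.tow (H.proj y N) y) ?_ ?_
  · rintro N ⟨hN, ⟨hc1, hc2, hc3⟩, hne⟩
    exact ⟨H.color_mem hyz hN, H.typeA_map hy hz hyz hD hA m1 m2 n12 hN hc1 hc2 hc3 hne⟩
  · rintro N ⟨hN, -⟩ N' ⟨hN', -⟩ he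
    exact H.color_inj hyz hN hN' he

lemma encard_three (a b c : L) : ({a, b, c} : Set L).encard ≤ 3 := by
  refine (Set.encard_insert_le _ _).trans ?_
  refine (add_le_add_left (Set.encard_insert_le _ _) 1).trans ?_
  rw [Set.encard_singleton]
  norm_num

lemma typeB_count {p y z : P} {c1 c2 c3 : L} (hy : H.d p y = 3) (hz : H.d p z = 3)
    (hyz : H.d y z = 3)
    (hD : ∀ M, H.I p M → M ≠ c1 → M ≠ c2 → M ≠ c3 → H.proj y M ≠ H.proj z M) :
    {N | H.I z N ∧ (H.tow (H.proj p N) p ≠ c1 ∧ H.tow (H.proj p N) p ≠ c2 ∧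
      H.tow (H.proj p N) p ≠ c3) ∧ H.proj y N = H.proj p N}.encard ≤ 3 := by
  set B := {N | H.I z N ∧ (H.tow (H.proj p N) p ≠ c1 ∧ H.tow (H.proj p N) p ≠ c2 ∧
      H.tow (H.proj p N) p ≠ c3) ∧ H.proj y N = H.proj p N} with hBdef
  by_cases hall : ∀ N ∈ B, H.tow (H.proj p (H.tow (H.proj y N) y)) p ∈ ({c1, c2, c3} : Set L)
  · refine le_trans ?_ (encard_three c1 c2 c3)
    refine Set.encard_le_encard_of_injOn
      (f := fun N => H.tow (H.proj p (H.tow (H.proj y N) y)) p) ?_ ?_
    · intro N hN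
      exact hall N hN
    · rintro N ⟨hN, -⟩ N' ⟨hN', -⟩ he
      have h1 := H.color_inj hy (H.color_mem hyz hN) (H.color_mem hyz hN') he
      exact H.color_inj hyz hN hN' h1
  · push Not at hall
    obtain ⟨N, ⟨hN, ⟨hc1, hc2, hc3⟩, he⟩, hnot⟩ := hall
    simp only [Set.mem_insert_iff, Set.mem_singleton_iff, not_or] at hnot
    obtain ⟨k1, k2, k3⟩ := hnot
    have hsub : B ⊆ {N | H.I z N ∧ H.proj y N = H.proj p N} := by
      rintro N ⟨hN, -, he⟩
      exact ⟨hN, he⟩
    refine (Set.encard_le_encard hsub).trans ?_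
    -- the line N gives the path y, g, v_c, p
    have hK := H.color_mem hyz hN
    have hu := H.keep hyz hN hK rfl
    obtain ⟨h1, h2⟩ := H.opp_proj_ne hyz hN
    obtain ⟨h1', h2'⟩ := H.opp_proj_ne hz hN
    have hLM := H.color_mem hz hN
    have hv := H.keep hz hN hLM rfl
    rw [← he] at h1' h2' hLM hv hc1 hc2 hc3
    have hhN := H.proj_mem y N
    set h := H.proj y N with hh
    set K := H.tow h y with hKdef
    set M := H.tow h p with hMdef
    obtain ⟨u1, u2⟩ := H.opp_proj_ne (p := z) (y := y) (by rw [H.d_symm]; exact hyz) hK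
    obtain ⟨v1, v2⟩ := H.opp_proj_ne (p := z) (y := p) (by rw [H.d_symm]; exact hz) hLM
    have huK := H.proj_mem z K
    have hvM := H.proj_mem z M
    have hhu : H.d h (H.proj z K) = 1 := by
      have := H.proj_far h K y hK (by rw [← hu]; exact u1.symm)
      rw [← hu, H.d_symm h y] at this
      omega
    have hhv : H.d h (H.proj z M) = 1 := by
      have := H.proj_far h M p hLM (by rw [← hv]; exact v1.symm)
      rw [← hv, H.d_symm h p] at this
      omega
    have hDM := hD M hLM hc1 hc2 hc3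
    set u := H.proj z K with hudef
    set v := H.proj z M with hvdef
    obtain ⟨g1, g2⟩ := H.opp_proj_ne hy hK
    have hgK := H.proj_mem p K
    have hug : u ≠ H.proj p K := by
      intro hug
      have hpu : H.d p u = 2 := by rw [hug]; exact g2
      obtain ⟨M1, hhM1, huM1⟩ := H.line_of_d1 hhu
      obtain ⟨M2, hhM2, hvM2⟩ := H.line_of_d1 hhv
      have hph : p ≠ h := H.ne_of_pos (by omega)
      have e1 : M1 = H.tow p h := by
        refine H.tow_uniq p h M1 hph (by omega) hhM1 ?_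
        intro hcon
        have := H.proj_far p M1 u huM1 (by
          rw [hcon]; exact (H.ne_of_pos (x := h) (y := u) (by omega)).symm)
        rw [hcon] at this
        omega
      have hpv : H.d p v = 1 := H.d_line hLM hvM v1.symm
      have e2 : M2 = H.tow p h := H.tow_eq hvM2 hhM2 (by omega) (by omega)
      have huM2 : H.I u M2 := by rw [e2, ← e1]; exact huM1
      have hyu : H.d y u = 1 := H.d_line hK huK u1.symm
      have hyv := H.tri (x := y) hvM2 huM2
      have := H.eq_proj (x := y) hvM hLM (by rw [H.d_symm y p]; omega)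
      exact hDM this.symm
    have hcM := H.color_mem hy hK
    have hk := H.keep hy hK hcM rfl
    set g := H.proj p K with hg
    set c := H.tow g p with hcdef
    have hzg : H.d z g = 3 := by
      have := H.proj_far z K g hgK hug.symm
      rw [← hudef] at this
      omega
    have hDc := hD c hcM k1 k2 k3
    obtain ⟨w1, w2⟩ := H.opp_proj_ne (p := y) (y := p) (by rw [H.d_symm]; exact hy) hcM
    have hwc := H.proj_mem y c
    have hzw : H.d z (H.proj y c) = 3 := by
      have := H.proj_far z c _ hwc hDc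
      have h2 := (H.opp_proj_ne (p := z) (y := p) (by rw [H.d_symm]; exact hz) hcM).2
      omega
    have hgw : H.d g (H.proj y c) = 1 := by
      have := H.proj_far g c p hcM (by rw [← hk]; exact w1.symm)
      rw [← hk, H.d_symm g p] at this
      omega
    set w := H.proj y c with hw
    obtain ⟨M3, hM1, hM2⟩ := H.line_of_d1 hgw
    exact H.agree3 (q := z) (w0 := y) (w1 := g) (w2 := w) (w3 := p)
      (by rw [H.d_symm]; exact hyz) hzg hzw
      (by rw [H.d_symm]; exact hz) g1.symm (H.ne_of_pos (by omega)) w1 hK hgK hM1 hM2 hwc hcM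

/-- if a point is on three lines at least, there is a good pair of opposite points -/
lemma exists_pair {p : P} {c1 c2 c3 : L} (m1 : H.I p c1) (m2 : H.I p c2) (m3 : H.I p c3)
    (n12 : c1 ≠ c2) (n13 : c1 ≠ c3) (n23 : c2 ≠ c3) :
    ∃ y z, H.d p y = 3 ∧ H.d p z = 3 ∧ H.d y z = 3 ∧
    (∀ M, H.I p M → M ≠ c1 → M ≠ c2 → M ≠ c3 → H.proj y M ≠ H.proj z M) ∧
    (∀ M, H.I p M → (M = c1 ∨ M = c2 ∨ M = c3) → H.proj y M = H.proj z M) := by
  obtain ⟨y, hy⟩ := H.opp_ex p
  obtain ⟨K1, y1, a1, b1, e1, hy1, r1⟩ := H.step hy m1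
  obtain ⟨K2, y2, a2, b2, e2, hy2, r2⟩ := H.step hy1 m2
  obtain ⟨K3, z, a3, b3, e3, hz, r3⟩ := H.step hy2 m3
  have hK12 : K1 ≠ K2 := by
    rintro rfl
    exact n12 (r1.symm.trans r2)
  have hK23 : K2 ≠ K3 := by
    rintro rfl
    exact n23 (r2.symm.trans r3)
  refine ⟨y, z, hy, hz, ?_, ?_, ?_⟩
  · have h1 : H.d y y1 = 1 := H.d_line a1 b1 e1
    have p1 : H.proj y K2 = y1 := by
      by_contra hcon
      have t1 := H.tow_uniq y y1 K2 e1 (by omega) a2 hcon
      have t2 := H.tow_uniq y y1 K1 e1 (by omega) b1 (by rw [H.proj_self a1]; exact e1)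
      exact hK12 (t2.trans t1.symm)
    have h2 : H.d y y2 = 2 := by
      have := H.proj_far y K2 y2 b2 (by rw [p1]; exact e2.symm)
      rw [p1] at this
      omega
    have e02 : y ≠ y2 := H.ne_of_pos (by omega)
    have p2 : H.proj y K3 = y2 := by
      by_contra hcon
      have t1 := H.tow_uniq y y2 K3 e02 (by omega) a3 hcon
      have t2 := H.tow_uniq y y2 K2 e02 (by omega) b2 (by rw [p1]; exact e2)
      exact hK23 (t2.trans t1.symm)
    have := H.proj_far y K3 z b3 (by rw [p2]; exact e3.symm)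
    rw [p2] at this
    omega
  · intro M hM h1 h2 h3
    exact H.par3 hy hy1 hy2 hz e1 e2 e3 a1 b1 a2 b2 a3 b3 hM (by rw [r1]; exact h1)
      (by rw [r2]; exact h2) (by rw [r3]; exact h3)
  · intro M hM hc
    have hopp : ∀ w, H.d p w = 3 → H.proj w M ≠ p := fun w hw =>
      (H.opp_proj_ne (p := w) (y := p) (by rw [H.d_symm]; exact hw) hM).1
    rcases hc with rfl | rfl | rfl
    · rw [H.keep2 hy hy1 a1 b1 hM r1.symm]
      have f2 := H.flip hy1 hy2 a2 b2 e2 hM (by rw [r2]; exact n12)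
      have f3 := H.flip hy2 hz a3 b3 e3 hM (by rw [r3]; exact n13)
      exact H.two_set hM (H.proj_mem _ _) (H.proj_mem _ _) (H.proj_mem _ _) (hopp _ hy1)
        (hopp _ hy2) (hopp _ hz) f2 f3
    · have f1 := H.flip hy hy1 a1 b1 e1 hM (by rw [r1]; exact n12.symm)
      rw [H.keep2 hy1 hy2 a2 b2 hM r2.symm] at f1
      have f3 := H.flip hy2 hz a3 b3 e3 hM (by rw [r3]; exact n23)
      exact H.two_set hM (H.proj_mem _ _) (H.proj_mem _ _) (H.proj_mem _ _) (hopp _ hy)
        (hopp _ hy2) (hopp _ hz) f1 f3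
    · have f1 := H.flip hy hy1 a1 b1 e1 hM (by rw [r1]; exact n13.symm)
      have f2 := H.flip hy1 hy2 a2 b2 e2 hM (by rw [r2]; exact n23.symm)
      rw [← H.keep2 hy2 hz a3 b3 hM r3.symm]
      exact H.two_set hM (H.proj_mem _ _) (H.proj_mem _ _) (H.proj_mem _ _) (hopp _ hy)
        (hopp _ hy1) (hopp _ hy2) f1 f2

theorem bound (p : P) : {M | H.I p M}.encard ≤ 9 := by
  by_contra hlt
  push Not at hlt
  have h3 : (3 : ℕ∞) ≤ {M | H.I p M}.encard := le_trans (by norm_num) hlt.le
  obtain ⟨t, ht, ht3⟩ := Set.exists_subset_encard_eq h3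
  obtain ⟨c1, c2, c3, n12, n13, n23, rfl⟩ := Set.encard_eq_three.1 ht3
  have m1 : H.I p c1 := ht (by simp)
  have m2 : H.I p c2 := ht (by simp)
  have m3 : H.I p c3 := ht (by simp)
  obtain ⟨y, z, hy, hz, hyz, hD, hA⟩ := H.exists_pair m1 m2 m3 n12 n13 n23
  have hAc := H.typeA_count hy hz hyz hD hA m1 m2 n12
  have hBc := H.typeB_count hy hz hyz hD
  set A := {N | H.I z N ∧ (H.tow (H.proj p N) p ≠ c1 ∧ H.tow (H.proj p N) p ≠ c2 ∧
      H.tow (H.proj p N) p ≠ c3) ∧ H.proj y N ≠ H.proj p N} with hAdef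
  set B := {N | H.I z N ∧ (H.tow (H.proj p N) p ≠ c1 ∧ H.tow (H.proj p N) p ≠ c2 ∧
      H.tow (H.proj p N) p ≠ c3) ∧ H.proj y N = H.proj p N} with hBdef
  have hsub : {M | H.I p M} ⊆ {c1, c2, c3} ∪ ((fun N => H.tow (H.proj p N) p) '' (A ∪ B)) := by
    intro M hM
    by_cases hMc : M ∈ ({c1, c2, c3} : Set L)
    · exact Or.inl hMc
    · right
      simp only [Set.mem_insert_iff, Set.mem_singleton_iff, not_or] at hMc
      obtain ⟨N, hN, hNM⟩ := H.color_surj hz hM
      refine ⟨N, ?_, hNM⟩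
      by_cases hne : H.proj y N = H.proj p N
      · right
        exact ⟨hN, by rw [hNM]; exact hMc, hne⟩
      · left
        exact ⟨hN, by rw [hNM]; exact hMc, hne⟩
  have h9 : {M | H.I p M}.encard ≤ 3 + (3 + 3) := by
    refine (Set.encard_le_encard hsub).trans ?_
    refine (Set.encard_union_le _ _).trans ?_
    refine add_le_add (encard_three _ _ _) ?_
    refine (Set.encard_image_le _ _).trans ?_
    refine (Set.encard_union_le _ _).trans ?_
    exact add_le_add hAc hBc
  have : (3 + (3 + 3) : ℕ∞) = 9 := by norm_num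
  rw [this] at h9
  exact absurd hlt (not_lt.2 h9)

end Hex

end Pool.Agent.W290.HexAbs
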