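import Pool.Agent.W290.HexAbs
import Pool.Agent.W290.HexGraph

set_option autoImplicit false

namespace Pool.Agent.W290.HexBuild

open SimpleGraph HexGraph HexAbs

universe u v

variable {P : Type u} {L : Type v} (I : P → L → Prop)

theorem hexOf [Nonempty P] (hdiam : (IG I).ediam = 6) (hgirth : (IG I).egirth = 12)
    (h3 : ∀ l, {p | I p l}.ncard = 3) : ∃ H : Hex P L, H.I = I := by
  classical
  have htop : (IG I).ediam ≠ ⊤ := by rw [hdiam]; exact ENat.natCast_ne_top 6
  have hconn : (IG I).Connected := connected_of_ediam_ne_top htop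
  have hle : ∀ x y, (IG I).dist x y ≤ 6 := by
    intro x y
    have h1 : (IG I).edist x y ≤ 6 := hdiam ▸ edist_le_ediam
    have h2 := ENat.toNat_le_toNat h1 (ENat.natCast_ne_top 6)
    exact h2
  have hg : ∀ k : ℕ, k < 6 → ((2 * k : ℕ) : ℕ∞) < (IG I).egirth := by
    intro k hk
    rw [hgirth]
    have : 2 * k < 12 := by omega
    exact_mod_cast this
  set D : P → P → ℕ := fun x y => (IG I).dist (Sum.inl x) (Sum.inl y) with hD
  set E : P → L → ℕ := fun x K => (IG I).dist (Sum.inl x) (Sum.inr K) with hE
  have hDle : ∀ x y, D x y ≤ 6 := fun x y => hle _ _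
  have hElt : ∀ x K, E x K ≤ 5 := by
    intro x K
    have h1 : E x K ≤ 6 := hle _ _
    have h2 : Odd (E x K) := odd_pl I hconn x K
    obtain ⟨k, hk⟩ := h2
    omega
  have hDe : ∀ x y, ∃ k, D x y = 2 * k := by
    intro x y
    obtain ⟨k, hk⟩ := even_pp I hconn x y
    exact ⟨k, by simp only [hD]; omega⟩
  have hEo : ∀ x K, ∃ k, E x K = 2 * k + 1 := by
    intro x K
    exact odd_pl I hconn x K
  have hDz : ∀ x y, D x y = 0 ↔ x = y := by
    intro x y
    simp only [hD]
    rw [hconn.dist_eq_zero_iff]
    simp
  have hDs : ∀ x y, D x y = D y x := fun x y => (IG I).dist_comm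
  -- neighbours differ by one
  have hstep : ∀ x y K, I y K → (D x y + 1 = E x K ∨ E x K + 1 = D x y) := by
    intro x y K hy
    have hadj : (IG I).Adj (Sum.inl y) (Sum.inr K) := (adj_lr I).2 hy
    have h1 := hconn.dist_triangle (u := Sum.inl x) (v := Sum.inl y) (w := Sum.inr K)
    have h2 := hconn.dist_triangle (u := Sum.inl x) (v := Sum.inr K) (w := Sum.inl y)
    rw [(SimpleGraph.dist_eq_one_iff_adj).2 hadj] at h1
    rw [(SimpleGraph.dist_eq_one_iff_adj).2 hadj.symm] at h2
    obtain ⟨k, hk⟩ := hDe x y
    obtain ⟨l, hl⟩ := hEo x K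
    simp only [hD, hE] at *
    omega
  -- the projection
  have hproj : ∀ x K, ∃ y, I y K ∧ D x y + 1 = E x K := by
    intro x K
    obtain ⟨a, ha, hda⟩ := exists_pred hconn (u := Sum.inl x) (v := Sum.inr K) (by simp)
    rcases a with a | a
    · exact ⟨a, (adj_lr I).1 ha, hda⟩
    · exact absurd ha (not_adj_rr I)
  choose proj hp1 hp2 using hproj
  have hfar : ∀ x K y, I y K → y ≠ proj x K → E x K + 1 = D x y := by
    intro x K y hy hne
    rcases hstep x y K hy with h | h
    · exfalso
      apply hne
      have := pred_unique hconn (u := Sum.inl x) (v := Sum.inr K) (a := Sum.inl y)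
        (b := Sum.inl (proj x K)) ((adj_lr I).2 hy) ((adj_lr I).2 (hp1 x K)) h (hp2 x K)
        (hg _ (by have := hElt x K; simp only [hE] at this; omega))
      exact Sum.inl_injective this
    · exact h
  have hline : ∀ y : P, ∃ K, I y K := by
    intro y
    obtain ⟨v, hv⟩ := exists_far hconn (col I) 6 (by rw [hgirth]; norm_num) (Sum.inl y)
    obtain ⟨a, ha, -⟩ := exists_pred hconn (u := v) (v := Sum.inl y) (by
      rintro rfl
      simp at hv)
    rcases a with a | a
    · exact absurd ha (not_adj_ll I)
    · exact ⟨a, (adj_rl I).1 ha⟩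
  have htow : ∀ x y, ∃ K, (x ≠ y → D x y ≤ 4 → I y K ∧ proj x K ≠ y ∧
      ∀ K', I y K' → proj x K' ≠ y → K' = K) := by
    intro x y
    by_cases hxy : x = y
    · obtain ⟨K, -⟩ := hline y
      exact ⟨K, fun h => absurd hxy h⟩
    obtain ⟨a, ha, hda⟩ := exists_pred hconn (u := Sum.inl x) (v := Sum.inl y)
      (fun h => hxy (Sum.inl_injective h))
    rcases a with a | a
    · exact absurd ha (not_adj_ll I)
    refine ⟨a, fun _ hle4 => ⟨(adj_rl I).1 ha, ?_, ?_⟩⟩
    · intro he
      have h1 := hp2 x a
      rw [he] at h1
      simp only [hD, hE] at h1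
      omega
    · intro K' hK' hne
      have h1 := hfar x K' y hK' (Ne.symm hne)
      have := pred_unique hconn (u := Sum.inl x) (v := Sum.inl y) (a := Sum.inr K')
        (b := Sum.inr a) ((adj_rl I).2 hK') ha h1 hda
        (hg _ (by simp only [hD] at hle4; omega))
      exact Sum.inr_injective this
  choose tow ht using htow
  have hopp : ∀ x, ∃ y, D x y = 6 := by
    intro x
    obtain ⟨v, hv⟩ := exists_far hconn (col I) 6 (by rw [hgirth]; norm_num) (Sum.inl x)
    rcases v with v | v
    · exact ⟨v, le_antisymm (hDle x v) hv⟩
    · have := hElt x v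
      simp only [hE] at this
      omega
  have hhalf : ∀ x y, D x y = 2 * (D x y / 2) := by
    intro x y
    obtain ⟨k, hk⟩ := hDe x y
    omega
  refine ⟨{ I := I
            d := fun x y => D x y / 2
            proj := proj
            tow := tow
            d_symm := fun x y => by simp only [hDs x y]
            d_le := fun x y => by have := hDle x y; omega
            d_zero := fun x y => by
              rw [← hDz x y]
              have := hhalf x y
              omega
            proj_mem := hp1
            proj_le := fun x K => by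
              have := hp2 x K
              have := hElt x K
              omega
            proj_far := fun x K y hy hne => by
              have h1 := hfar x K y hy hne
              have h2 := hp2 x K
              omega
            tow_mem := fun x y hne hle => (ht x y hne (by have := hhalf x y; omega)).1
            tow_ne := fun x y hne hle => (ht x y hne (by have := hhalf x y; omega)).2.1
            tow_uniq := fun x y K hne hle => (ht x y hne (by have := hhalf x y; omega)).2.2 K
            three := h3
            opp_ex := fun x => by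
              obtain ⟨y, hy⟩ := hopp x
              exact ⟨y, by omega⟩ }, rfl⟩

end Pool.Agent.W290.HexBuild
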