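import Pool.Agent.W886.PM.Stm0

/-!
# The problem PMCSP is in NP
-/

set_option autoImplicit false

namespace Pool.Agent.W290.PMNPC

open Pool.Agent.NPC Pool.Agent.H620R2.Gauge Pool.Agent.H943R6.MC Pool.Agent.H622R2.Ckt
open Pool.Agent.W886.PM
open Pool.Agent.H622R2 (poly_pairBits)

/-- the test -/
def cc (w y : List Bool) : Bool :=
  decide (y = pairBits (pairBits (unpair (unpair y).1).1 (unpair (unpair y).1).2) (unpair y).2) &&
  (decide (w.length = (unpair (unpair y).1).1.length) &&
  (decide (w.length = (unpair (unpair y).1).2.length) &&
  !((List.range w.length).any (fun i => (unpair (unpair y).1).2.getD i false &&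
    (w.getD i false ^^ (unpair (unpair y).1).1.getD i false)))))

theorem cc_iff (w y : List Bool) : cc w y = true ↔ ∃ T M S : List Bool,
    y = pairBits (pairBits T M) S ∧ w.length = T.length ∧ w.length = M.length ∧
      ∀ i < w.length, M.getD i false = true → w.getD i false = T.getD i false := by
  unfold cc
  rw [Bool.and_eq_true, Bool.and_eq_true, Bool.and_eq_true, decide_eq_true_eq, decide_eq_true_eq,
    decide_eq_true_eq, Bool.not_eq_true', List.any_eq_false]
  constructor
  · rintro ⟨h1, h2, h3, h4⟩
    refine ⟨_, _, _, h1, h2, h3, ?_⟩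
    intro i hi hM
    have h5 := h4 i (List.mem_range.2 hi)
    rw [hM, Bool.true_and] at h5
    revert h5
    cases w.getD i false <;> cases (unpair (unpair y).1).1.getD i false <;> simp
  · rintro ⟨T, M, S, rfl, h2, h3, h4⟩
    simp only [unpair_pairBits]
    refine ⟨trivial, h2, h3, ?_⟩
    intro i hi
    have h5 := h4 i (List.mem_range.1 hi)
    revert h5
    cases M.getD i false <;> cases w.getD i false <;> cases T.getD i false <;> simp

theorem poly_cc : Poly (fun z : List Bool => cc (unpair z).1 (unpair z).2) := by
  have hw : Poly (fun z : List Bool => (unpair z).1) := Poly.fst poly_unpair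
  have hy : Poly (fun z : List Bool => (unpair z).2) := Poly.snd poly_unpair
  have hy' : Poly (fun z : List Bool => unpair (unpair z).2) := poly_unpair.comp hy
  have hS : Poly (fun z : List Bool => (unpair (unpair z).2).2) := Poly.snd hy'
  have hTM : Poly (fun z : List Bool => unpair (unpair (unpair z).2).1) :=
    poly_unpair.comp (Poly.fst hy')
  have hT : Poly (fun z : List Bool => (unpair (unpair (unpair z).2).1).1) := Poly.fst hTM
  have hM : Poly (fun z : List Bool => (unpair (unpair (unpair z).2).1).2) := Poly.snd hTM
  have h1 : Poly (fun z : List Bool => decide ((unpair z).2 =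
      pairBits (pairBits (unpair (unpair (unpair z).2).1).1 (unpair (unpair (unpair z).2).1).2)
        (unpair (unpair z).2).2)) :=
    Poly.decide_eq hy (poly_pairBits (poly_pairBits hT hM) hS)
  have h2 : Poly (fun z : List Bool => decide ((unpair z).1.length =
      (unpair (unpair (unpair z).2).1).1.length)) :=
    Poly.decide_eq (Poly.length hw) (Poly.length hT)
  have h3 : Poly (fun z : List Bool => decide ((unpair z).1.length =
      (unpair (unpair (unpair z).2).1).2.length)) :=
    Poly.decide_eq (Poly.length hw) (Poly.length hM)
  have hz : Poly (fun p : List Bool × ℕ => p.1) := Poly.fst Poly.id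
  have hi : Poly (fun p : List Bool × ℕ => p.2) := Poly.snd Poly.id
  have h4 : Poly (fun z : List Bool => (List.range (unpair z).1.length).any
      (fun i => (unpair (unpair (unpair z).2).1).2.getD i false &&
        ((unpair z).1.getD i false ^^ (unpair (unpair (unpair z).2).1).1.getD i false))) := by
    refine Poly.any (p := fun z i => (unpair (unpair (unpair z).2).1).2.getD i false &&
        ((unpair z).1.getD i false ^^ (unpair (unpair (unpair z).2).1).1.getD i false))
        (Poly.range_length hw) ?_
    refine Poly.and ?_ (Poly.xor ?_ ?_)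
    · exact Poly.getD (hM.comp hz) hi (NPC.Poly.const false)
    · exact Poly.getD (hw.comp hz) hi (NPC.Poly.const false)
    · exact Poly.getD (hT.comp hz) hi (NPC.Poly.const false)
  exact Poly.and h1 (Poly.and h2 (Poly.and h3 (Poly.not h4)))

theorem poly_ph : Poly (fun z : List Bool => pairBits (unpair z).1 (unpair (unpair z).2).2) :=
  poly_pairBits (Poly.fst poly_unpair) (Poly.snd (poly_unpair.comp (Poly.snd poly_unpair)))

theorem length_pairBits' (x w : List Bool) : (pairBits x w).length = 2 * x.length + 1 + w.length := by
  unfold pairBits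
  rw [List.length_append, List.length_cons, List.length_flatMap]
  have : ∀ l : List Bool, (List.map (fun b : Bool => ([true, b] : List Bool).length) l).sum =
      2 * l.length := by
    intro l
    induction l with
    | nil => rfl
    | cons b l ih =>
      rw [List.map_cons, List.sum_cons, ih, List.length_cons]
      simp only [List.length_cons, List.length_nil]
      omega
  rw [this]
  omega

theorem task (h : S_NPX) : S_NPC := by
  intro A
  have h1 := h A (MCSP A) Polynomial.X _ _ poly_cc poly_ph (isNP_mcsp A)
  convert h1 using 1
  ext y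
  constructor
  · rintro ⟨n, s, T, M, C, hC, ⟨hT, hM, hA⟩, rfl⟩
    have hl : (table n (C.eval A)).length = 2 ^ n := by
      rw [table, List.length_map, length_cube]
    refine ⟨table n (C.eval A), ?_, ?_, ?_⟩
    · rw [hl, Polynomial.eval_X, length_pairBits', length_pairBits', hT]
      omega
    · rw [unpair_pairBits, cc_iff]
      refine ⟨T, M, List.replicate s true, rfl, by rw [hl, hT], by rw [hl, hM], ?_⟩
      intro i hi hMi
      rw [hl] at hi
      exact hA i hi hMi
    · rw [unpair_pairBits]
      simp only [unpair_pairBits]
      exact ⟨n, s, C, trivial, hC, rfl⟩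
  · rintro ⟨w, -, h2, h3⟩
    rw [unpair_pairBits, cc_iff] at h2
    obtain ⟨T, M, S, rfl, h4, h5, h6⟩ := h2
    simp only [unpair_pairBits] at h3
    obtain ⟨n, s, C, -, hC, he⟩ := h3
    have h7 := congrArg unpair he
    rw [unpair_pairBits, unpair_pairBits, Prod.mk.injEq] at h7
    obtain ⟨rfl, rfl⟩ := h7
    have hl : (table n (C.eval A)).length = 2 ^ n := by
      rw [table, List.length_map, length_cube]
    rw [hl] at h4 h5 h6
    exact ⟨n, s, T, M, C, hC, ⟨h4.symm, h5.symm, h6⟩, rfl⟩

end Pool.Agent.W290.PMNPC
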