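import Pool.Agent.W886.RU.Stm1
import Pool.Agent.H620R2.Gauge.Base

/-!
# Switching for circuits (project RU, part SW)
-/

set_option autoImplicit false

namespace Pool.Agent.W290.RUSW

open Finset H568R2 Pool.Agent.H676 Pool.Agent.H620R2.Gauge Pool.Agent.W886.RU

section

variable {I : Type} [Fintype I] [DecidableEq I]

lemma gate_cert {t : ℕ} (b : Bool) (n : ℕ) (c : Fin n → Ckt I) (ρ : Restr I)
    (h : ∀ i, DTr t (rs (c i).val ρ)) : Cert t b (rs (Ckt.gate b n c).val ρ) := by
  cases b with
  | true =>
    intro x hx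
    have hx' : ∃ i, (c i).val (ov ρ x) = true := by
      simpa [rs, Ckt.val] using hx
    obtain ⟨i, hi⟩ := hx'
    obtain ⟨A, hA, hy⟩ := (h i).cert true x hi
    refine ⟨A, hA, fun z hz => ?_⟩
    have h2 : ∃ i, (c i).val (ov ρ z) = true := ⟨i, hy z hz⟩
    simpa [rs, Ckt.val] using h2
  | false =>
    intro x hx
    have hx' : ∃ i, (c i).val (ov ρ x) = false := by
      simpa [rs, Ckt.val] using hx
    obtain ⟨i, hi⟩ := hx'
    obtain ⟨A, hA, hy⟩ := (h i).cert false x hi
    refine ⟨A, hA, fun z hz => ?_⟩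
    have h2 : ∃ i, (c i).val (ov ρ z) = false := ⟨i, hy z hz⟩
    simpa [rs, Ckt.val] using h2

open Classical in
lemma leaf_zero {t k : ℕ} {q : ℝ} (f : (I → Bool) → Bool) (hf : DTr t f) :
    Ex (wq (q ^ k)) (fun ρ : Restr I =>
      if ¬ DTr t (rs (Ckt.leaf f).val ρ) then (1 : ℝ) else 0) = 0 := by
  have hfun : (fun ρ : Restr I => if ¬ DTr t (rs (Ckt.leaf f).val ρ) then (1 : ℝ) else 0) =
      fun _ => 0 := by
    funext ρ
    have h1 : DTr t (rs (Ckt.leaf f).val ρ) := by
      have h3 : (Ckt.leaf f).val = f := by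
        funext a
        rfl
      rw [h3]
      exact hf.rs
    rw [if_neg (not_not.2 h1)]
  rw [hfun]
  unfold Ex
  simp

end

open Classical in
theorem task : S_SW := by
  intro I _ _ t k q ht h0 h1
  set ε : ℝ := (12 * t * q) ^ (t + 1) with hε
  have hε0 : 0 ≤ ε := by positivity
  induction k with
  | zero =>
    intro C hC hL
    cases C with
    | leaf f =>
      rw [leaf_zero f hL]
      positivity
    | gate b n c => exact absurd hC (by simp [Ckt.DepthLe])
  | succ k ih =>
    intro C hC hL
    cases C with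
    | leaf f =>
      rw [leaf_zero f hL]
      positivity
    | gate b n c =>
      have hC' : ∀ i, (c i).DepthLe k := hC
      have hL' : ∀ i, (c i).Leaves t := hL
      rw [pow_succ, wq_cmp]
      have hwj : ∀ a, 0 ≤ wq (q ^ k) a :=
        wq_nonneg (pow_nonneg h0 k) (pow_le_one₀ h0 (by linarith))
      have hw1 : ∀ a, 0 ≤ wq q a := wq_nonneg h0 (by linarith)
      have hin : ∀ ρ : Restr I, Ex (wq q) (fun τ : Restr I =>
          if ¬ DTr t (rs (Ckt.gate b n c).val (cmp ρ τ)) then (1 : ℝ) else 0) ≤
          (∑ i ∈ (Finset.univ : Finset (Fin n)),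
            (if ¬ DTr t (rs (c i).val ρ) then (1 : ℝ) else 0)) + ε := by
        intro ρ
        have hnn : ∀ i ∈ (Finset.univ : Finset (Fin n)), (0 : ℝ) ≤
            (if ¬ DTr t (rs (c i).val ρ) then (1 : ℝ) else 0) := by
          intro i _
          split_ifs <;> norm_num
        by_cases hG : ∀ i, DTr t (rs (c i).val ρ)
        · have hsw : Ex (wq q) (fun τ : Restr I =>
              if ¬ DTr t (rs (rs (Ckt.gate b n c).val ρ) τ) then (1 : ℝ) else 0) ≤ ε :=
            switch ht h0 h1 (gate_cert b n c ρ hG)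
          have hsum := Finset.sum_nonneg hnn
          have hfun : (fun τ : Restr I =>
              if ¬ DTr t (rs (Ckt.gate b n c).val (cmp ρ τ)) then (1 : ℝ) else 0) =
              fun τ : Restr I =>
              if ¬ DTr t (rs (rs (Ckt.gate b n c).val ρ) τ) then (1 : ℝ) else 0 := by
            funext τ
            rw [rs_cmp]
          rw [hfun]
          linarith
        · have hex : ∃ i, ¬ DTr t (rs (c i).val ρ) := not_forall.1 hG
          obtain ⟨i, hi⟩ := hex
          have hone := Finset.single_le_sum hnn (Finset.mem_univ i)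
          rw [if_pos hi] at hone
          have hle : Ex (wq q) (fun τ : Restr I =>
              if ¬ DTr t (rs (Ckt.gate b n c).val (cmp ρ τ)) then (1 : ℝ) else 0) ≤
              Ex (wq q) (fun _ : Restr I => (1 : ℝ)) := by
            apply Ex_mono hw1
            intro τ
            split_ifs <;> norm_num
          rw [Ex_const (wq_sum q)] at hle
          linarith
      refine (Ex_mono hwj hin).trans ?_
      rw [Ex_add, Ex_const (wq_sum _), Ex_sum]
      have hterm : ∀ i ∈ (Finset.univ : Finset (Fin n)), Ex (wq (q ^ k)) (fun ρ : Restr I =>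
          (if ¬ DTr t (rs (c i).val ρ) then (1 : ℝ) else 0)) ≤ (c i).size * ε :=
        fun i _ => ih (c i) (hC' i) (hL' i)
      have hsize : (((Ckt.gate b n c).size : ℕ) : ℝ) = (∑ i, ((c i).size : ℝ)) + 1 := by
        simp [Ckt.size]
      rw [hsize, add_mul, one_mul, Finset.sum_mul]
      exact add_le_add_left (Finset.sum_le_sum hterm) ε

end Pool.Agent.W290.RUSW
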