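import Pool.Agent.W979.TE.Defs

set_option autoImplicit false

open Classical

namespace Pool.Agent.W290.TE

open Pool.Agent.W979.TE

theorem hall : S_HALL := by
  intro V E _ _ U a b hBal
  -- allowed sets
  let t : {v // v ∈ U} × Fin (Fintype.card E) → Finset (E × Fin U.card) := fun p =>
    (Finset.univ.filter (fun ε : E => a ε = p.1.1 ∨ b ε = p.1.1)) ×ˢ Finset.univ
  have hall : ∀ s : Finset ({v // v ∈ U} × Fin (Fintype.card E)), s.card ≤ (s.biUnion t).card := by
    intro s
    set S : Finset V := s.image (fun p => p.1.1) with hS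
    have hSU : S ⊆ U := by
      intro v hv
      obtain ⟨p, _, rfl⟩ := Finset.mem_image.mp hv
      exact p.1.2
    have h1 : (s.biUnion t) =
        (Finset.univ.filter (fun ε : E => a ε ∈ S ∨ b ε ∈ S)) ×ˢ (Finset.univ : Finset (Fin U.card)) := by
      ext ⟨ε, l⟩
      simp only [t, Finset.mem_biUnion, Finset.mem_product, Finset.mem_filter, Finset.mem_univ,
        true_and, and_true, hS, Finset.mem_image]
      constructor
      · rintro ⟨p, hp, h | h⟩
        · exact Or.inl ⟨p, hp, h.symm⟩
        · exact Or.inr ⟨p, hp, h.symm⟩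
      · rintro (⟨p, hp, h⟩ | ⟨p, hp, h⟩)
        · exact ⟨p, hp, Or.inl h.symm⟩
        · exact ⟨p, hp, Or.inr h.symm⟩
    have h2 : s.card ≤ S.card * Fintype.card E := by
      have hinj : Set.InjOn (fun p : {v // v ∈ U} × Fin (Fintype.card E) => (p.1.1, p.2)) s := by
        rintro ⟨⟨v, hv⟩, i⟩ _ ⟨⟨w, hw⟩, j⟩ _ h
        simp only [Prod.mk.injEq] at h
        obtain ⟨h1, h2⟩ := h
        subst h1; subst h2; rfl
      have h3 : (s.image (fun p : {v // v ∈ U} × Fin (Fintype.card E) => (p.1.1, p.2))).card
          = s.card := Finset.card_image_of_injOn hinj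
      rw [← h3]
      have h4 : s.image (fun p : {v // v ∈ U} × Fin (Fintype.card E) => (p.1.1, p.2))
          ⊆ S ×ˢ (Finset.univ : Finset (Fin (Fintype.card E))) := by
        intro q hq
        obtain ⟨p, hp, rfl⟩ := Finset.mem_image.mp hq
        exact Finset.mem_product.mpr ⟨Finset.mem_image_of_mem _ hp, Finset.mem_univ _⟩
      refine (Finset.card_le_card h4).trans ?_
      rw [Finset.card_product, Finset.card_univ, Fintype.card_fin]
    rw [h1, Finset.card_product, Finset.card_univ, Fintype.card_fin]
    have h5 := hBal S hSU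
    calc s.card ≤ S.card * Fintype.card E := h2
      _ = Fintype.card E * S.card := Nat.mul_comm _ _
      _ ≤ _ := h5
      _ = _ := Nat.mul_comm _ _
  obtain ⟨μ, hinj, hμ⟩ := (Finset.all_card_le_biUnion_card_iff_exists_injective t).mp hall
  refine ⟨μ, hinj, fun p => ?_⟩
  have := hμ p
  simp only [t, Finset.mem_product, Finset.mem_filter, Finset.mem_univ, true_and, and_true] at this
  exact this

end Pool.Agent.W290.TE
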